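import Mathlib
set_option autoImplicit false

/-!
# Virtually solvable `C*`-stable groups: common definitions

* `IsAddHom b`: `b : P → ℝ` is a homomorphism to the additive group of the real numbers.
* `Flat N`: the homomorphisms to `ℝ` of all the finite index subgroups `P` of `G` vanish on `P ∩ N`.
* `cc g x`: the character `a ↦ x (g a g⁻¹)` of the normal subgroup `N`.
-/

namespace Pool.Agent.LibCS44
open scoped Matrix.Norms.L2Operator

/-- homomorphisms to the additive group of real numbers -/
def IsAddHom {P : Type} [Group P] (b : P → ℝ) : Prop := ∀ x y, b (x * y) = b x + b y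

/-- all homomorphisms to `ℝ` of all finite index subgroups `P` of `G` vanish on `P ∩ N` -/
def Flat {G : Type} [Group G] (N : Subgroup G) : Prop :=
  ∀ (P : Subgroup G), P.FiniteIndex → ∀ b : P → ℝ, IsAddHom b → ∀ a : P, (a : G) ∈ N → b a = 0

theorem flat_mono {G : Type} [Group G] {N B : Subgroup G} (hN : Flat N) (h : B ≤ N) :
    Flat B := fun P hP b hb a ha => hN P hP b hb a (h ha)

/-- the conjugate `a ↦ x (g a g⁻¹)` of a character of a normal subgroup -/
noncomputable def cc {G : Type} [Group G] {N : Subgroup G} [N.Normal] (g : G)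
    (x : N →* Circle) : N →* Circle :=
  x.comp (MulAut.conjNormal g : N ≃* N).toMonoidHom

theorem cc_apply {G : Type} [Group G] {N : Subgroup G} [hN : N.Normal] (g : G) (x : N →* Circle)
    (a : N) : cc g x a = x ⟨g * a * g⁻¹, hN.conj_mem a a.2 g⟩ := rfl

theorem cc_mul {G : Type} [Group G] {N : Subgroup G} [hN : N.Normal] (g h : G) (x : N →* Circle) :
    cc (g * h) x = cc h (cc g x) := by
  ext a
  rw [cc_apply, cc_apply, cc_apply]
  congr 2
  simp [mul_assoc]

theorem cc_one {G : Type} [Group G] {N : Subgroup G} [hN : N.Normal] (x : N →* Circle) :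
    cc 1 x = x := by
  ext a
  rw [cc_apply]
  congr 2
  simp

/-- the elements of `N` act trivially on the characters of `N` -/
theorem cc_of_mem {G : Type} [Group G] {N : Subgroup G} [hN : N.Normal] (g : N) (x : N →* Circle) :
    cc (g : G) x = x := by
  ext a
  rw [cc_apply]
  have h1 : (⟨(g : G) * a * (g : G)⁻¹, hN.conj_mem a a.2 g⟩ : N) = g * a * g⁻¹ := rfl
  rw [h1, map_mul, map_mul, map_inv, mul_comm (x g), mul_inv_cancel_right]

end Pool.Agent.LibCS44
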