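import Mathlib
set_option autoImplicit false
namespace Pool.Agent.LibCS44
open scoped Matrix.Norms.L2Operator

variable {Q n : Type} [Fintype Q] [DecidableEq Q] [Fintype n] [DecidableEq n]

/-- the block matrix with the block `X` in position `(b, a)` and `0` elsewhere -/
noncomputable def blockE (b a : Q) (X : Matrix n n ℂ) : Matrix (Q × n) (Q × n) ℂ :=
  Matrix.of fun p q => if p.1 = b ∧ q.1 = a then X p.2 q.2 else 0

theorem blockE_apply (b a : Q) (X : Matrix n n ℂ) (p q : Q × n) :
    blockE b a X p q = if p.1 = b ∧ q.1 = a then X p.2 q.2 else 0 := rfl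

theorem blockE_mul_same (c b a : Q) (X Y : Matrix n n ℂ) :
    blockE c b X * blockE b a Y = blockE c a (X * Y) := by
  ext p q
  rw [Matrix.mul_apply, Fintype.sum_prod_type]
  simp only [blockE_apply]
  by_cases h1 : p.1 = c
  · by_cases h2 : q.1 = a
    · simp only [h1, h2, true_and, and_true, Matrix.mul_apply]
      rw [Finset.sum_eq_single b]
      · simp
      · intro b' _ hb'
        simp [hb']
      · simp
    · simp [h1, h2]
  · simp [h1]

theorem blockE_mul_diff (c b b' a : Q) (h : b ≠ b') (X Y : Matrix n n ℂ) :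
    blockE c b X * blockE b' a Y = 0 := by
  ext p q
  rw [Matrix.mul_apply]
  refine Finset.sum_eq_zero fun r _ => ?_
  simp only [blockE_apply]
  by_cases h1 : r.1 = b
  · have h2 : r.1 ≠ b' := by rw [h1]; exact h
    simp [h2]
  · simp [h1]

theorem blockE_star (b a : Q) (X : Matrix n n ℂ) : star (blockE b a X) = blockE a b (star X) := by
  ext p q
  rw [Matrix.star_apply, blockE_apply, blockE_apply, Matrix.star_apply]
  by_cases h1 : q.1 = b <;> by_cases h2 : p.1 = a <;> simp [h1, h2]

theorem blockE_add (b a : Q) (X Y : Matrix n n ℂ) :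
    blockE b a (X + Y) = blockE b a X + blockE b a Y := by
  ext p q
  rw [Matrix.add_apply, blockE_apply, blockE_apply, blockE_apply, Matrix.add_apply]
  split_ifs <;> simp

theorem blockE_sub (b a : Q) (X Y : Matrix n n ℂ) :
    blockE b a (X - Y) = blockE b a X - blockE b a Y := by
  ext p q
  rw [Matrix.sub_apply, blockE_apply, blockE_apply, blockE_apply, Matrix.sub_apply]
  split_ifs <;> simp

theorem sum_blockE_one : ∑ a : Q, blockE a a (1 : Matrix n n ℂ) = 1 := by
  ext p q
  rw [Matrix.sum_apply]
  simp only [blockE_apply, Matrix.one_apply]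
  rw [Finset.sum_eq_single p.1]
  · obtain ⟨p1, p2⟩ := p
    obtain ⟨q1, q2⟩ := q
    by_cases h1 : q1 = p1
    · subst h1
      by_cases h2 : p2 = q2 <;> simp [h2]
    · have h1' : p1 ≠ q1 := fun h => h1 h.symm
      simp [h1, h1']
  · intro b _ hb
    have : p.1 ≠ b := fun h => hb h.symm
    simp [this]
  · simp

theorem blockE_zero (b a : Q) : blockE b a (0 : Matrix n n ℂ) = 0 := by
  ext p q
  rw [blockE_apply]
  simp

/-- the diagonal block map as a `*`-homomorphism -/
noncomputable def blockHom (a : Q) :
    Matrix n n ℂ →⋆ₙₐ[ℂ] Matrix (Q × n) (Q × n) ℂ where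
  toFun := blockE a a
  map_smul' c X := by
    ext p q
    rw [blockE_apply]
    show _ = c • blockE a a X p q
    rw [blockE_apply]
    by_cases h : p.1 = a ∧ q.1 = a <;> simp [h]
  map_zero' := blockE_zero a a
  map_add' := blockE_add a a
  map_mul' X Y := (blockE_mul_same a a a X Y).symm
  map_star' X := (blockE_star a a X).symm

/-- `‖blockE b a X‖ ≤ ‖X‖`: for instance `‖blockE b a X‖ ^ 2 = ‖blockE a a (star X * X)‖` and `X ↦ blockE a a X` is a (non-unital) `*`-homomorphism of `C*`-algebras, hence
contractive (`NonUnitalStarAlgHom.norm_apply_le`) -/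
theorem norm_blockE_le (b a : Q) (X : Matrix n n ℂ) : ‖blockE b a X‖ ≤ ‖X‖ := by
  have h1 : ‖blockE b a X‖ * ‖blockE b a X‖ = ‖blockE a a (star X * X)‖ := by
    rw [← CStarRing.norm_star_mul_self, blockE_star, blockE_mul_same]
  have h2 : ‖blockE a a (star X * X)‖ ≤ ‖star X * X‖ :=
    NonUnitalStarAlgHom.norm_apply_le (blockHom a) (star X * X)
  rw [CStarRing.norm_star_mul_self] at h2
  rw [← h1] at h2
  exact nonneg_le_nonneg_of_sq_le_sq (norm_nonneg _) h2

theorem continuous_blockE (b a : Q) : Continuous (blockE b a : Matrix n n ℂ → _) := by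
  refine continuous_matrix fun p q => ?_
  simp only [blockE_apply]
  by_cases h : p.1 = b ∧ q.1 = a
  · simp only [h, and_self, if_true]
    exact (continuous_id.matrix_elem _ _)
  · simp only [h, if_false]
    exact continuous_const

theorem trace_blockE (b a : Q) (X : Matrix n n ℂ) :
    (blockE b a X).trace = if b = a then X.trace else 0 := by
  rw [Matrix.trace, Fintype.sum_prod_type]
  simp only [Matrix.diag_apply, blockE_apply]
  by_cases h : b = a
  · subst h
    rw [if_pos rfl, Finset.sum_eq_single b]
    · simp [Matrix.trace]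
    · intro b' _ hb'
      simp [hb']
    · simp
  · rw [if_neg h]
    refine Finset.sum_eq_zero fun c _ => Finset.sum_eq_zero fun i _ => ?_
    by_cases h1 : c = b
    · subst h1
      simp [h]
    · simp [h1]

end Pool.Agent.LibCS44
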