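import Pool.Agent.LibCS44.IndM
set_option autoImplicit false
namespace Pool.Agent.LibCS44
open scoped Matrix.Norms.L2Operator
open Pool.Agent.LibCS15 (cocy cocy_mul cocy_one cocy_inv)

variable {G : Type} [Group G] (H : Subgroup G) [Fintype (G ⧸ H)] [DecidableEq (G ⧸ H)]
  {n : Type} [Fintype n] [DecidableEq n]

/-- the induced function with values in the paths of matrices -/
noncomputable def indC (v : H → C(unitInterval, Matrix n n ℂ)) (g : G) :
    C(unitInterval, Matrix ((G ⧸ H) × n) ((G ⧸ H) × n) ℂ) :=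
  ⟨fun s => indM H (fun h => v h s) g, by
    unfold indM
    refine continuous_finsetSum _ fun a _ => ?_
    exact (continuous_blockE _ _).comp (v _).continuous⟩

theorem indC_apply (v : H → C(unitInterval, Matrix n n ℂ)) (g : G) (s : unitInterval) :
    indC H v g s = indM H (fun h => v h s) g := rfl

theorem norm_indC_le (v : H → C(unitInterval, Matrix n n ℂ)) (C : ℝ) (hC : ∀ h, ‖v h‖ ≤ C)
    (g : G) : ‖indC H v g‖ ≤ (Fintype.card (G ⧸ H)) * C := by
  have h0 : 0 ≤ C := (norm_nonneg _).trans (hC 1)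
  rw [ContinuousMap.norm_le _ (by positivity)]
  intro s
  rw [indC_apply]
  exact norm_indM_le H _ C (fun h => ((v h).norm_coe_le_norm s).trans (hC h)) g

theorem norm_indC_defect_le (v : H → C(unitInterval, Matrix n n ℂ)) (g h : G) :
    ‖indC H v (g * h) - indC H v g * indC H v h‖ ≤
      ∑ a : G ⧸ H, ‖v (cocy H g (h • a) * cocy H h a) -
        v (cocy H g (h • a)) * v (cocy H h a)‖ := by
  rw [ContinuousMap.norm_le _ (Finset.sum_nonneg fun _ _ => norm_nonneg _)]
  intro s
  have h1 : (indC H v (g * h) - indC H v g * indC H v h) s =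
      indM H (fun h => v h s) (g * h) - indM H (fun h => v h s) g * indM H (fun h => v h s) h := rfl
  rw [h1, indM_defect]
  refine (norm_sum_le _ _).trans (Finset.sum_le_sum fun a _ => ?_)
  refine (norm_blockE_le _ _ _).trans ?_
  exact (v (cocy H g (h • a) * cocy H h a) -
    v (cocy H g (h • a)) * v (cocy H h a)).norm_coe_le_norm s

theorem norm_indC_star_defect_le (v : H → C(unitInterval, Matrix n n ℂ)) (g : G) :
    ‖indC H v g⁻¹ - star (indC H v g)‖ ≤
      ∑ a : G ⧸ H, ‖v (cocy H g a)⁻¹ - star (v (cocy H g a))‖ := by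
  rw [ContinuousMap.norm_le _ (Finset.sum_nonneg fun _ _ => norm_nonneg _)]
  intro s
  have h1 : (indC H v g⁻¹ - star (indC H v g)) s =
      indM H (fun h => v h s) g⁻¹ - star (indM H (fun h => v h s) g) := rfl
  rw [h1, indM_star_defect]
  refine (norm_sum_le _ _).trans (Finset.sum_le_sum fun a _ => ?_)
  refine (norm_blockE_le _ _ _).trans ?_
  exact (v (cocy H g a)⁻¹ - star (v (cocy H g a))).norm_coe_le_norm s

end Pool.Agent.LibCS44
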