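import Pool.Agent.LibCS44.IndDef
set_option autoImplicit false
namespace Pool.Agent.LibCS44
open scoped Matrix.Norms.L2Operator
open Pool.Agent.LibCS15 (cocy cocy_mul cocy_one cocy_inv)

variable {G : Type} [Group G] (H : Subgroup G) [Fintype (G ⧸ H)] [DecidableEq (G ⧸ H)]
  {n : Type} [Fintype n] [DecidableEq n]

theorem indM_one {v : H → Matrix n n ℂ} (hv : v 1 = 1) : indM H v 1 = 1 := by
  unfold indM
  rw [← sum_blockE_one (Q := G ⧸ H) (n := n)]
  refine Finset.sum_congr rfl fun a _ => ?_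
  rw [one_smul, cocy_one, hv]

theorem indM_mul (v : H → Matrix n n ℂ) (g h : G) :
    indM H v g * indM H v h =
      ∑ a : G ⧸ H, blockE (g • h • a) a (v (cocy H g (h • a)) * v (cocy H h a)) := by
  unfold indM
  rw [Finset.sum_mul_sum, Finset.sum_comm]
  refine Finset.sum_congr rfl fun a _ => ?_
  rw [Finset.sum_eq_single (h • a)]
  · exact blockE_mul_same _ _ _ _ _
  · intro b _ hb
    exact blockE_mul_diff _ _ _ _ hb _ _
  · intro hb
    exact absurd (Finset.mem_univ _) hb

theorem indM_defect (v : H → Matrix n n ℂ) (g h : G) :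
    indM H v (g * h) - indM H v g * indM H v h =
      ∑ a : G ⧸ H, blockE (g • h • a) a (v (cocy H g (h • a) * cocy H h a) -
        v (cocy H g (h • a)) * v (cocy H h a)) := by
  rw [indM_mul, indM, ← Finset.sum_sub_distrib]
  refine Finset.sum_congr rfl fun a _ => ?_
  rw [blockE_sub, mul_smul, cocy_mul]

/-- substitute `a = g • a'` in `indM H v g⁻¹` and use `cocy_inv` -/
theorem indM_star_defect (v : H → Matrix n n ℂ) (g : G) :
    indM H v g⁻¹ - star (indM H v g) =
      ∑ a : G ⧸ H, blockE a (g • a) (v (cocy H g a)⁻¹ - star (v (cocy H g a))) := by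
  have h1 : indM H v g⁻¹ = ∑ a : G ⧸ H, blockE a (g • a) (v (cocy H g a)⁻¹) := by
    unfold indM
    rw [← Equiv.sum_comp (MulAction.toPerm g : (G ⧸ H) ≃ (G ⧸ H))]
    refine Finset.sum_congr rfl fun a _ => ?_
    rw [MulAction.toPerm_apply, inv_smul_smul, cocy_inv]
  have h2 : star (indM H v g) = ∑ a : G ⧸ H, blockE a (g • a) (star (v (cocy H g a))) := by
    unfold indM
    rw [star_sum]
    exact Finset.sum_congr rfl fun a _ => blockE_star _ _ _
  rw [h1, h2, ← Finset.sum_sub_distrib]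
  exact Finset.sum_congr rfl fun a _ => (blockE_sub _ _ _ _).symm

theorem norm_indM_le (v : H → Matrix n n ℂ) (C : ℝ) (hC : ∀ h, ‖v h‖ ≤ C) (g : G) :
    ‖indM H v g‖ ≤ (Fintype.card (G ⧸ H)) * C := by
  unfold indM
  refine (norm_sum_le _ _).trans ?_
  refine (Finset.sum_le_sum fun a _ => (norm_blockE_le _ _ _).trans (hC _)).trans ?_
  rw [Finset.sum_const, Finset.card_univ, nsmul_eq_mul]

end Pool.Agent.LibCS44
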