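import Pool.Agent.LibCS44.IndM1
set_option autoImplicit false
namespace Pool.Agent.LibCS44
open scoped Matrix.Norms.L2Operator
open Pool.Agent.LibCS15 (cocy cocy_mul cocy_one cocy_inv)

variable {G : Type} [Group G] (H : Subgroup G) [Fintype (G ⧸ H)] [DecidableEq (G ⧸ H)]
  {n : Type} [Fintype n] [DecidableEq n]

/-- `1`-preserving, multiplicative, `star`-preserving functions induce unitary representations -/
theorem ind_rep (v : H →* unitary (Matrix n n ℂ)) :
    ∃ ρ : G →* unitary (Matrix ((G ⧸ H) × n) ((G ⧸ H) × n) ℂ),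
      ∀ g, (ρ g : Matrix ((G ⧸ H) × n) ((G ⧸ H) × n) ℂ) =
        indM H (fun h => (v h : Matrix n n ℂ)) g := by
  have h1 : indM H (fun h => (v h : Matrix n n ℂ)) 1 = 1 := indM_one H (by simp)
  have h2 : ∀ g h, indM H (fun h => (v h : Matrix n n ℂ)) (g * h) =
      indM H (fun h => (v h : Matrix n n ℂ)) g * indM H (fun h => (v h : Matrix n n ℂ)) h := by
    intro g h
    have h3 := indM_defect H (fun h => (v h : Matrix n n ℂ)) g h
    rw [← sub_eq_zero, h3]
    refine Finset.sum_eq_zero fun a _ => ?_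
    have h4 : (v (cocy H g (h • a) * cocy H h a) : Matrix n n ℂ) -
        (v (cocy H g (h • a)) : Matrix n n ℂ) * (v (cocy H h a) : Matrix n n ℂ) = 0 := by
      rw [map_mul, Submonoid.coe_mul, sub_self]
    rw [h4, blockE_zero]
  have h3 : ∀ g, star (indM H (fun h => (v h : Matrix n n ℂ)) g) =
      indM H (fun h => (v h : Matrix n n ℂ)) g⁻¹ := by
    intro g
    have h3 := indM_star_defect H (fun h => (v h : Matrix n n ℂ)) g
    symm
    rw [← sub_eq_zero, h3]
    refine Finset.sum_eq_zero fun a _ => ?_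
    have h4 : (v (cocy H g a)⁻¹ : Matrix n n ℂ) - star (v (cocy H g a) : Matrix n n ℂ) = 0 := by
      rw [map_inv, ← Unitary.coe_star, Unitary.star_eq_inv, sub_self]
    rw [h4, blockE_zero]
  refine ⟨{ toFun := fun g => ⟨indM H (fun h => (v h : Matrix n n ℂ)) g, ?_⟩
            map_one' := ?_
            map_mul' := ?_ }, fun g => rfl⟩
  · rw [Unitary.mem_iff]
    rw [h3, ← h2, ← h2, inv_mul_cancel, mul_inv_cancel, h1]
    exact ⟨rfl, rfl⟩
  · exact Subtype.ext h1
  · intro g h
    exact Subtype.ext (h2 g h)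

end Pool.Agent.LibCS44
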