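import Pool.Agent.LibCS44.IndDef
set_option autoImplicit false
namespace Pool.Agent.LibCS44
open scoped Matrix.Norms.L2Operator
open Pool.Agent.LibCS15 (cocy cocy_mul cocy_one cocy_inv)

variable {G : Type} [Group G] (H : Subgroup G) [Fintype (G ⧸ H)] [DecidableEq (G ⧸ H)]
  {n : Type} [Fintype n] [DecidableEq n]

/-- elements `a` of a normal subgroup contained in `H` fix all the cosets, and `cocy H a b = (out b)⁻¹ * a * out b` -/
theorem smul_of_mem_normal {N : Subgroup G} [N.Normal] (hN : N ≤ H) {a : G} (ha : a ∈ N)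
    (b : G ⧸ H) : a • b = b := by
  have hNn : N.Normal := inferInstance
  conv_rhs => rw [← QuotientGroup.out_eq' b]
  conv_lhs => rw [← QuotientGroup.out_eq' b]
  change ((a * b.out : G) : G ⧸ H) = _
  rw [QuotientGroup.eq]
  have h1 := hNn.conj_mem a⁻¹ (N.inv_mem ha) (b.out)⁻¹
  have h2 := hN h1
  simpa [mul_assoc] using h2

theorem cocy_of_mem_normal {N : Subgroup G} [hNn : N.Normal] (hN : N ≤ H) {a : G} (ha : a ∈ N)
    (b : G ⧸ H) : (cocy H a b : G) = b.out⁻¹ * a * b.out := by
  unfold cocy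
  simp only [smul_of_mem_normal H hN ha b]

theorem trace_indM {N : Subgroup G} [hNn : N.Normal] (hN : N ≤ H) {a : G} (ha : a ∈ N)
    (v : H → Matrix n n ℂ) :
    (indM H v a).trace = ∑ b : G ⧸ H, (v (cocy H a b)).trace := by
  unfold indM
  rw [Matrix.trace_sum]
  refine Finset.sum_congr rfl fun b _ => ?_
  rw [trace_blockE, if_pos (smul_of_mem_normal H hN ha b)]

end Pool.Agent.LibCS44
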