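import Pool.Agent.LibCS44.IndDef
import Pool.Agent.LibCS44.IndM1
import Pool.Agent.LibCS44.IndM2
import Pool.Agent.LibCS44.IndM3
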