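import Pool.Agent.LibCS44.LiftVar
import Pool.Agent.LibCS44.Base
set_option autoImplicit false
namespace Pool.Agent.LibCS44
open Topology Filter
open scoped Matrix.Norms.L2Operator
open Pool.Agent.LibCS15 (IsClosedIdeal CStarStable)

/-- `C*`-stable groups: finite-dimensional representations of large subgroups are approximated on finite sets by representations of the whole group.  `lifting_var` for
`D m = Matrix (n m) (n m) ℂ`, `K m = Set.univ`, `v m g = σ m g` if `g ∈ Gn m` and `v m g = 1` otherwise. -/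
theorem approx_extend {G : Type} [Group G] [Countable G] (hG : CStarStable G)
    (Gn : ℕ → Subgroup G) (hmono : Monotone Gn) (hun : ∀ g, ∃ m, g ∈ Gn m) (n : ℕ → Type)
    [∀ m, Fintype (n m)] [∀ m, DecidableEq (n m)] [∀ m, Nonempty (n m)]
    (σ : ∀ m, Gn m →* unitary (Matrix (n m) (n m) ℂ)) :
    ∃ π : ∀ m, G →* unitary (Matrix (n m) (n m) ℂ), ∀ g, ∀ ε > 0, ∃ m₀, ∀ m, m₀ ≤ m →
      ∀ hg : g ∈ Gn m, ‖(π m g : Matrix (n m) (n m) ℂ) - (σ m ⟨g, hg⟩ : Matrix (n m) (n m) ℂ)‖ < ε := by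
  classical
  let v : ∀ m, G → Matrix (n m) (n m) ℂ := fun m g =>
    if hg : g ∈ Gn m then (σ m ⟨g, hg⟩ : Matrix (n m) (n m) ℂ) else 1
  have hv : ∀ m g (hg : g ∈ Gn m), v m g = (σ m ⟨g, hg⟩ : Matrix (n m) (n m) ℂ) :=
    fun m g hg => dif_pos hg
  have hv' : ∀ m g, g ∉ Gn m → v m g = 1 := fun m g hg => dif_neg hg
  have hv1 : ∀ m, v m 1 = 1 := by
    intro m
    rw [hv m 1 (Gn m).one_mem]
    have : (⟨1, (Gn m).one_mem⟩ : Gn m) = 1 := rfl
    rw [this, map_one, OneMemClass.coe_one]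
  have hev : ∀ g, ∀ᶠ m in atTop, g ∈ Gn m := by
    intro g
    obtain ⟨m₁, hm₁⟩ := hun g
    filter_upwards [eventually_ge_atTop m₁] with m hm
    exact hmono hm hm₁
  obtain ⟨m₀, π, -, hπ⟩ := lifting_var hG (fun m => Matrix (n m) (n m) ℂ)
    (fun m => Set.univ) (fun m => ⟨isClosed_univ, trivial, fun _ _ _ _ => trivial,
      fun _ _ _ => trivial, fun _ _ _ => trivial, fun _ _ _ => trivial, fun _ _ => trivial⟩) v
    (fun g => ⟨1, fun m => by
      by_cases hg : g ∈ Gn m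
      · rw [hv m g hg]
        exact (CStarRing.norm_coe_unitary _).le
      · rw [hv' m g hg, CStarRing.norm_one]⟩)
    (fun m => trivial)
    (by
      simp only [hv1, sub_self, norm_zero]
      exact tendsto_const_nhds)
    (fun m g h => trivial)
    (fun g h => by
      refine tendsto_const_nhds.congr' ?_
      filter_upwards [hev g, hev h] with m hg hh
      rw [hv m g hg, hv m h hh, hv m (g * h) ((Gn m).mul_mem hg hh)]
      have : (⟨g * h, (Gn m).mul_mem hg hh⟩ : Gn m) = ⟨g, hg⟩ * ⟨h, hh⟩ := rfl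
      rw [this, map_mul, MulMemClass.coe_mul, sub_self, norm_zero])
    (fun m g => trivial)
    (fun g => by
      refine tendsto_const_nhds.congr' ?_
      filter_upwards [hev g] with m hg
      rw [hv m g hg, hv m g⁻¹ ((Gn m).inv_mem hg)]
      have : (⟨g⁻¹, (Gn m).inv_mem hg⟩ : Gn m) = (⟨g, hg⟩ : Gn m)⁻¹ := rfl
      rw [this, map_inv, ← Unitary.star_eq_inv, Unitary.coe_star, sub_self, norm_zero])
  refine ⟨π, fun g ε hε => ?_⟩
  obtain ⟨m₁, hm₁⟩ := (Metric.tendsto_atTop.1 (hπ g)) ε hε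
  refine ⟨m₁, fun m hm hg => ?_⟩
  have h2 := hm₁ m hm
  rw [Real.dist_eq, sub_zero, abs_of_nonneg (norm_nonneg _), hv m g hg] at h2
  exact h2

end Pool.Agent.LibCS44
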