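import Pool.Agent.LibCS44.Base
set_option autoImplicit false
namespace Pool.Agent.LibCS44

/-- An element of an abelian group on which all homomorphisms to `ℝ` vanish has finite order: otherwise `ℤ → A`, `k ↦ k • x` is injective and, `ℝ` being divisible
(`Module.Baer.of_divisible`, `Module.Baer.extension_property`), the homomorphism `k ↦ k`, `ℤ → ℝ`, extends to `A`. -/
theorem isOfFinAddOrder_of_hom {A : Type} [AddCommGroup A] (x : A)
    (h : ∀ b : A →+ ℝ, b x = 0) : IsOfFinAddOrder x := by
  by_contra hx
  obtain ⟨b, hb⟩ := (Module.Baer.of_divisible ℝ).extension_property_addMonoidHom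
    (zmultiplesHom A x) (injective_zsmul_iff_not_isOfFinAddOrder.2 hx) (Int.castAddHom ℝ)
  have h1 : b (zmultiplesHom A x 1) = Int.castAddHom ℝ 1 := DFunLike.congr_fun hb 1
  rw [zmultiplesHom_apply, one_zsmul, h b] at h1
  simp at h1

/-- apply `isOfFinAddOrder_of_hom` to `Additive (Abelianization P)` -/
theorem exists_pow_mem_commutator {P : Type} [Group P] (x : P)
    (h : ∀ b : P → ℝ, IsAddHom b → b x = 0) : ∃ k : ℕ, 0 < k ∧ x ^ k ∈ commutator P := by
  have h1 : IsOfFinAddOrder (Additive.ofMul (Abelianization.of x)) := by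
    apply isOfFinAddOrder_of_hom
    intro b
    exact h (fun p => b (Additive.ofMul (Abelianization.of p))) (fun p q => by
      show b (Additive.ofMul (Abelianization.of (p * q))) = _
      rw [map_mul, ofMul_mul, map_add])
  obtain ⟨k, hk, hk2⟩ := isOfFinAddOrder_iff_nsmul_eq_zero.1 h1
  refine ⟨k, hk, ?_⟩
  rw [← ofMul_pow, ← map_pow] at hk2
  have h2 : Abelianization.of (x ^ k) = 1 := hk2
  rwa [← MonoidHom.mem_ker, Abelianization.ker_of] at h2

end Pool.Agent.LibCS44
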