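import Mathlib
set_option autoImplicit false
namespace Pool.Agent.LibCS44
open scoped Matrix.Norms.L2Operator

variable {n : Type} [Fintype n] [DecidableEq n]

/-- a continuous function on `[0,1]` with values in a countable set is constant (the image is connected and countable; e.g. a real-valued continuous function on `[0,1]` which is not constant
takes uncountably many values by the intermediate value theorem; apply this to the real and imaginary parts) -/
theorem const_of_countable (f : C(unitInterval, ℂ)) (C : Set ℂ) (hC : C.Countable)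
    (hf : ∀ s, f s ∈ C) : ∀ s, f s = f 0 := by
  intro s
  have h1 : (Set.range f) ⊆ C := by
    rintro _ ⟨x, rfl⟩
    exact hf x
  have h2 : IsPreconnected (Set.range f) := isPreconnected_range f.continuous
  have h3 : (Set.range f).Subsingleton :=
    hC.isTotallyDisconnected (Set.range f) h1 h2
  exact h3 ⟨s, rfl⟩ ⟨0, rfl⟩

/-- a unitary matrix with trace `card n` is the identity: the diagonal entries have modulus at most one and sum up to `card n`, so they are all equal to `1`, and the rows of a unitary
matrix are unit vectors -/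
theorem eq_one_of_trace (U : unitary (Matrix n n ℂ))
    (h : (U : Matrix n n ℂ).trace = (Fintype.card n : ℂ)) : U = 1 := by
  have hU : (U : Matrix n n ℂ) ∈ Matrix.unitaryGroup n ℂ := U.2
  have hle : ∀ i j, ‖(U : Matrix n n ℂ) i j‖ ≤ 1 := entry_norm_bound_of_unitary hU
  have hre : ∀ i, ((U : Matrix n n ℂ) i i).re ≤ 1 := fun i =>
    (Complex.re_le_norm _).trans (hle i i)
  have hsum : ∑ i, (1 - ((U : Matrix n n ℂ) i i).re) = 0 := by
    have h1 : (∑ i, ((U : Matrix n n ℂ) i i)).re = (Fintype.card n : ℝ) := by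
      have h2 : ∑ i, ((U : Matrix n n ℂ) i i) = (Fintype.card n : ℂ) := h
      rw [h2]
      simp
    rw [Complex.re_sum] at h1
    rw [Finset.sum_sub_distrib, h1]
    simp
  have h0 : ∀ i, 1 - ((U : Matrix n n ℂ) i i).re = 0 := by
    intro i
    exact (Finset.sum_eq_zero_iff_of_nonneg (fun i _ => sub_nonneg.mpr (hre i))).mp hsum i
      (Finset.mem_univ i)
  have hdiag : ∀ i, (U : Matrix n n ℂ) i i = 1 := by
    intro i
    have h1 : ((U : Matrix n n ℂ) i i).re = 1 := by linarith [h0 i]
    have h2 := hle i i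
    have h3 : ‖(U : Matrix n n ℂ) i i‖ ^ 2 ≤ 1 := by
      calc ‖(U : Matrix n n ℂ) i i‖ ^ 2 ≤ 1 ^ 2 := by gcongr
        _ = 1 := one_pow 2
    rw [Complex.sq_norm, Complex.normSq_apply, h1] at h3
    have h4 : ((U : Matrix n n ℂ) i i).im = 0 := by
      have h5 : ((U : Matrix n n ℂ) i i).im * ((U : Matrix n n ℂ) i i).im ≤ 0 := by linarith
      exact mul_self_eq_zero.mp (le_antisymm h5 (mul_self_nonneg _))
    exact Complex.ext (by rw [h1]; simp) (by rw [h4]; simp)
  -- the rows are unit vectors
  have hrow : ∀ i, ∑ j, ‖(U : Matrix n n ℂ) i j‖ ^ 2 = 1 := by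
    intro i
    have h0' : (U : Matrix n n ℂ) * star (U : Matrix n n ℂ) = 1 := Unitary.coe_mul_star_self U
    have h1 : ((U : Matrix n n ℂ) * star (U : Matrix n n ℂ)) i i = 1 := by
      rw [h0']
      exact Matrix.one_apply_eq i
    rw [Matrix.mul_apply] at h1
    have h2 : ∀ j, (U : Matrix n n ℂ) i j * (star (U : Matrix n n ℂ)) j i =
        ((‖(U : Matrix n n ℂ) i j‖ ^ 2 : ℝ) : ℂ) := by
      intro j
      rw [Matrix.star_apply, Complex.star_def, Complex.mul_conj, Complex.normSq_eq_norm_sq]
    rw [Finset.sum_congr rfl fun j _ => h2 j, ← Complex.ofReal_sum] at h1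
    exact_mod_cast h1
  apply Subtype.ext
  ext i j
  change (U : Matrix n n ℂ) i j = (1 : Matrix n n ℂ) i j
  by_cases hij : i = j
  · subst hij
    rw [hdiag, Matrix.one_apply_eq]
  · rw [Matrix.one_apply_ne hij]
    have h1 := hrow i
    rw [← Finset.add_sum_erase _ _ (Finset.mem_univ i), hdiag i] at h1
    have h2 : ∑ x ∈ Finset.univ.erase i, ‖(U : Matrix n n ℂ) i x‖ ^ 2 = 0 := by
      simp only [norm_one, one_pow] at h1
      linarith
    have h3 := (Finset.sum_eq_zero_iff_of_nonneg (fun x _ => by positivity)).mp h2 j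
      (Finset.mem_erase.mpr ⟨Ne.symm hij, Finset.mem_univ j⟩)
    exact norm_eq_zero.mp (pow_eq_zero_iff two_ne_zero |>.mp h3)

end Pool.Agent.LibCS44
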