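import Pool.Agent.LibCS44.VA1
set_option autoImplicit false
namespace Pool.Agent.LibCS44
open Module
open scoped Matrix.Norms.L2Operator

/-- restriction of a representation of a subgroup to an invariant subspace -/
theorem va2_restrict {G : Type} [Group G] {V : Type}
    [NormedAddCommGroup V] [InnerProductSpace ℂ V] [FiniteDimensional ℂ V]
    (ρ : G →* (V →ₗ[ℂ] V)) (hu : ∀ g x y, inner ℂ (ρ g x) (ρ g y) = inner ℂ x y)
    (P : Subgroup G) (W : Submodule ℂ V) (hW : ∀ g ∈ P, ∀ w ∈ W, ρ g w ∈ W) :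
    ∃ σ : P →* (W →ₗ[ℂ] W), (∀ (g : P) (w : W), (σ g w : V) = ρ g w) ∧
      ∀ g x y, inner ℂ (σ g x) (σ g y) = inner ℂ x y := by
  let σ : P →* (W →ₗ[ℂ] W) :=
    { toFun := fun g => (ρ g).restrict (fun w hw => hW g g.2 w hw)
      map_one' := by
        ext w
        simp
      map_mul' := by
        intro x y
        ext w
        simp }
  refine ⟨σ, fun g w => rfl, fun g x y => ?_⟩
  show inner ℂ ((σ g x : W) : V) ((σ g y : W) : V) = inner ℂ (x : V) (y : V)
  exact hu g x y

/-- Induction on the dimension: in dimension `≤ 1` all the `ρ g` are scalar; otherwise take `P` and `W` from `exists_invariant`; `Wᗮ` is invariant under `P` too (unitarity), and apply the induction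
hypothesis to the group `P` acting on `W` and on `Wᗮ`, with the intersection of the two finite index subgroups. -/
theorem virt_abelian_aux (k : ℕ) : ∀ (G : Type) [Group G] (_ : Group.IsSolvable G) (V : Type)
    [NormedAddCommGroup V] [InnerProductSpace ℂ V] [FiniteDimensional ℂ V]
    (ρ : G →* (V →ₗ[ℂ] V)) (_ : ∀ g x y, inner ℂ (ρ g x) (ρ g y) = inner ℂ x y),
    finrank ℂ V ≤ k →
    ∃ P : Subgroup G, P.FiniteIndex ∧ ∀ x ∈ P, ∀ y ∈ P, ρ x * ρ y = ρ y * ρ x := by
  induction k with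
  | zero =>
    intro G _ hG V _ _ _ ρ hu hk
    have hsub : Subsingleton V := (Module.finrank_zero_iff (R := ℂ)).1 (by omega)
    refine ⟨⊤, inferInstance, fun x _ y _ => ?_⟩
    ext v
    exact Subsingleton.elim _ _
  | succ k ih =>
    intro G _ hG V _ _ _ ρ hu hk
    by_cases h2 : 2 ≤ finrank ℂ V
    · obtain ⟨P, W, hP, hW0, hW1, hWP⟩ := exists_invariant hG ρ hu h2
      have hWlt : finrank ℂ W < finrank ℂ V := Submodule.finrank_lt hW1
      have hWpos : 0 < finrank ℂ W := by
        have : Nontrivial W := (Submodule.nontrivial_iff_ne_bot).2 hW0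
        exact Module.finrank_pos
      have hsum := Submodule.finrank_add_finrank_orthogonal W
      have hOP : ∀ g ∈ P, ∀ w ∈ Wᗮ, ρ g w ∈ Wᗮ := by
        intro g hg w hw
        rw [Submodule.mem_orthogonal] at hw ⊢
        intro u hu'
        have h1 := hw _ (hWP g⁻¹ (P.inv_mem hg) u hu')
        have h3 := hu g (ρ g⁻¹ u) w
        rw [← Module.End.mul_apply, ← map_mul, mul_inv_cancel, map_one, Module.End.one_apply] at h3
        rw [h3, h1]
      have hPs : Group.IsSolvable P := by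
        have := hG
        infer_instance
      obtain ⟨σ, hσ, hσu⟩ := va2_restrict ρ hu P W hWP
      obtain ⟨τ, hτ, hτu⟩ := va2_restrict ρ hu P Wᗮ hOP
      obtain ⟨P1, hP1, hP1c⟩ := ih P hPs W σ hσu (by omega)
      obtain ⟨P2, hP2, hP2c⟩ := ih P hPs Wᗮ τ hτu (by omega)
      refine ⟨(P1 ⊓ P2).map P.subtype, ?_, ?_⟩
      · refine ⟨?_⟩
        rw [Subgroup.index_map_subtype]
        exact mul_ne_zero Subgroup.FiniteIndex.index_ne_zero hP.index_ne_zero
      · rintro _ ⟨x, ⟨hx1, hx2⟩, rfl⟩ _ ⟨y, ⟨hy1, hy2⟩, rfl⟩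
        ext v
        obtain ⟨w, hw, u, hu', rfl⟩ := W.exists_add_mem_mem_orthogonal v
        have e1 := congrArg (fun T : W →ₗ[ℂ] W => (T ⟨w, hw⟩ : V)) (hP1c x hx1 y hy1)
        have e2 := congrArg (fun T : Wᗮ →ₗ[ℂ] Wᗮ => (T ⟨u, hu'⟩ : V)) (hP2c x hx2 y hy2)
        simp only [Module.End.mul_apply, hσ, hτ] at e1 e2
        simp only [Module.End.mul_apply, map_add, Subgroup.coe_subtype]
        rw [e1, e2]
    · have h1 : finrank ℂ V ≤ 1 := by omega
      obtain ⟨v, hv⟩ := finrank_le_one_iff.1 h1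
      refine ⟨⊤, inferInstance, fun x _ y _ => ?_⟩
      obtain ⟨c, hc⟩ := hv (ρ x v)
      obtain ⟨d, hd⟩ := hv (ρ y v)
      ext w
      obtain ⟨e, rfl⟩ := hv w
      simp only [Module.End.mul_apply, map_smul, ← hc, ← hd, smul_smul]
      rw [mul_comm c d]

end Pool.Agent.LibCS44
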