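import Pool.Agent.LibCS44.VA2
set_option autoImplicit false
namespace Pool.Agent.LibCS44
open Module
open scoped Matrix.Norms.L2Operator

/-- finite-dimensional unitary representations of virtually solvable groups have virtually abelian image; `V = EuclideanSpace ℂ n`, the operators
`Matrix.toEuclideanLin`, and `virt_abelian_aux` for the group `S`, then push the subgroup of `S` forward to `G` (`Subgroup.map S.subtype`). -/
theorem virt_abelian {G : Type} [Group G] (S : Subgroup G) [S.FiniteIndex]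
    (hS : Group.IsSolvable S) {n : Type} [Fintype n] [DecidableEq n]
    (π : G →* unitary (Matrix n n ℂ)) :
    ∃ P : Subgroup G, P.FiniteIndex ∧ ∀ x ∈ P, ∀ y ∈ P, π x * π y = π y * π x := by
  classical
  let Φ := Matrix.toEuclideanCLM (n := n) (𝕜 := ℂ)
  let ρ : S →* (EuclideanSpace ℂ n →ₗ[ℂ] EuclideanSpace ℂ n) :=
    { toFun := fun s => (Φ (π (s : G) : Matrix n n ℂ) : EuclideanSpace ℂ n →ₗ[ℂ] EuclideanSpace ℂ n)
      map_one' := by
        ext x : 1
        simp
      map_mul' := by
        intro a b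
        ext x : 1
        simp }
  have hρ : ∀ s : S, ∀ x, ρ s x = Φ (π (s : G) : Matrix n n ℂ) x := fun s x => rfl
  have hu : ∀ g x y, inner ℂ (ρ g x) (ρ g y) = inner ℂ x y := by
    intro g x y
    rw [hρ, hρ]
    have h1 : star (Φ (π (g : G) : Matrix n n ℂ)) * Φ (π (g : G) : Matrix n n ℂ) = 1 := by
      rw [← map_star, ← map_mul, Unitary.coe_star_mul_self, map_one]
    rw [← ContinuousLinearMap.adjoint_inner_right, ← ContinuousLinearMap.star_eq_adjoint,
      ← ContinuousLinearMap.mul_apply, h1, ContinuousLinearMap.one_apply]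
  obtain ⟨Q, hQ, hQc⟩ := virt_abelian_aux _ S hS (EuclideanSpace ℂ n) ρ hu le_rfl
  refine ⟨Q.map S.subtype, ?_, ?_⟩
  · refine ⟨?_⟩
    rw [Subgroup.index_map_subtype]
    exact mul_ne_zero hQ.index_ne_zero Subgroup.FiniteIndex.index_ne_zero
  · rintro _ ⟨x, hx, rfl⟩ _ ⟨y, hy, rfl⟩
    have h1 := hQc x hx y hy
    apply Subtype.ext
    apply Φ.injective
    show Φ ((π (x : G) : Matrix n n ℂ) * (π (y : G) : Matrix n n ℂ)) =
      Φ ((π (y : G) : Matrix n n ℂ) * (π (x : G) : Matrix n n ℂ))
    rw [map_mul, map_mul]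
    ext v : 1
    have h2 := congrArg (fun T : EuclideanSpace ℂ n →ₗ[ℂ] EuclideanSpace ℂ n => T v) h1
    exact h2

end Pool.Agent.LibCS44
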