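import Pool.Agent.LibCS44.Base
import Pool.Agent.LibCS44.VA
import Pool.Agent.LibCS44.Tors
import Pool.Agent.LibCS44.TraceA
set_option autoImplicit false
namespace Pool.Agent.LibCS44
open scoped Matrix.Norms.L2Operator

variable {G : Type} [Group G] {n : Type} [Fintype n] [DecidableEq n]

/-- Let `N` be flat.  In every finite-dimensional unitary representation of the virtually solvable group `G` the elements of `N` have finite order.  Proof: let `P` be a finite
index subgroup with commutative image (`virt_abelian`); `a ^ j ∈ P ∩ N` for some `j > 0`; by flatness and `exists_pow_mem_commutator`, `(a ^ j) ^ k ∈ [P, P]`, which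
is in the kernel of `π`. -/
theorem finite_order (S : Subgroup G) [S.FiniteIndex] (hS : Group.IsSolvable S)
    {N : Subgroup G} (hN : Flat N) (π : G →* unitary (Matrix n n ℂ)) (a : G) (ha : a ∈ N) :
    ∃ k : ℕ, 0 < k ∧ (π a : Matrix n n ℂ) ^ k = 1 := by
  obtain ⟨P, hP, hcomm⟩ := virt_abelian S hS π
  obtain ⟨j, hj0, -, hj⟩ := Subgroup.exists_pow_mem_of_index_ne_zero hP.index_ne_zero a
  obtain ⟨k, hk, hk2⟩ := exists_pow_mem_commutator (⟨a ^ j, hj⟩ : P) (fun b hb =>
    hN P hP b hb ⟨a ^ j, hj⟩ (N.pow_mem ha j))
  have hker : commutator P ≤ (π.comp P.subtype).ker := by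
    rw [commutator_def, Subgroup.commutator_le]
    intro x _ y _
    rw [MonoidHom.mem_ker, map_commutatorElement, commutatorElement_eq_one_iff_mul_comm]
    exact hcomm x x.2 y y.2
  have h1 := MonoidHom.mem_ker.1 (hker hk2)
  rw [map_pow] at h1
  have h2 : (π.comp P.subtype) (⟨a ^ j, hj⟩ : P) = π a ^ j := map_pow π a j
  rw [h2, ← pow_mul] at h1
  refine ⟨j * k, Nat.mul_pos hj0 hk, ?_⟩
  have h3 := congrArg (fun u : unitary (Matrix n n ℂ) => (u : Matrix n n ℂ)) h1
  exact h3

/-- evaluation of a path of representations -/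
noncomputable def evalRep (R : G →* unitary C(unitInterval, Matrix n n ℂ)) (s : unitInterval) :
    G →* unitary (Matrix n n ℂ) where
  toFun g := ⟨(R g : C(unitInterval, Matrix n n ℂ)) s, by
    have h1 := Unitary.coe_star_mul_self (R g)
    have h2 := Unitary.coe_mul_star_self (R g)
    rw [Unitary.mem_iff]
    exact ⟨DFunLike.congr_fun h1 s, DFunLike.congr_fun h2 s⟩⟩
  map_one' := by
    apply Subtype.ext
    simp
  map_mul' g h := by
    apply Subtype.ext
    simp

theorem evalRep_apply (R : G →* unitary C(unitInterval, Matrix n n ℂ)) (s : unitInterval) (g : G) :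
    (evalRep R s g : Matrix n n ℂ) = (R g : C(unitInterval, Matrix n n ℂ)) s := rfl

/-- rigidity of the traces along paths of representations: `finite_order` for `evalRep R s`, `countable_traces`, `const_of_countable` for `s ↦ trace (R a s)` -/
theorem rigid (S : Subgroup G) [S.FiniteIndex] (hS : Group.IsSolvable S)
    {N : Subgroup G} (hN : Flat N) (R : G →* unitary C(unitInterval, Matrix n n ℂ))
    (a : G) (ha : a ∈ N) (s : unitInterval) :
    ((R a : C(unitInterval, Matrix n n ℂ)) s).trace =
      ((R a : C(unitInterval, Matrix n n ℂ)) 0).trace := by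
  have hcont : Continuous fun s : unitInterval =>
      ((R a : C(unitInterval, Matrix n n ℂ)) s).trace :=
    (R a : C(unitInterval, Matrix n n ℂ)).continuous.matrix_trace
  exact const_of_countable ⟨_, hcont⟩ _ countable_traces (fun s => by
    obtain ⟨k, hk, hk2⟩ := finite_order S hS hN (evalRep R s) a ha
    exact ⟨_, k, hk, hk2, rfl⟩) s

end Pool.Agent.LibCS44
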