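import Pool.Agent.LibCS44.SemiA
set_option autoImplicit false
namespace Pool.Agent.LibCS44
open Topology Filter

section
variable {H : Type} [Group H] (β : H →* Multiplicative ℤ) (t : H)
  (ht : β t = Multiplicative.ofAdd 1)
variable (D : ℕ → Type) [∀ m, CStarAlgebra (D m)]
include ht

omit [∀ m, CStarAlgebra (D m)] in
lemma semiB_beta_zpow (k : ℤ) : Multiplicative.toAdd (β (t ^ k)) = k := by
  rw [map_zpow, ht, ← ofAdd_zsmul]
  simp

lemma semiB_ker_left (g : H) : β (g * t ^ (-(Multiplicative.toAdd (β g)))) = 1 := by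
  apply Multiplicative.toAdd.injective
  rw [map_mul, toAdd_mul, semiB_beta_zpow β t ht]
  simp

lemma semiB_ker_conj (k : ℤ) {a : H} (ha : β a = 1) : β (t ^ k * a * t ^ (-k)) = 1 := by
  apply Multiplicative.toAdd.injective
  rw [β.map_mul, β.map_mul, ha, toAdd_mul, toAdd_mul, semiB_beta_zpow β t ht,
    semiB_beta_zpow β t ht]
  simp

omit ht in
lemma semiB_norm_conj {E : Type} [CStarAlgebra E] (T : unitary E) (x : E) :
    ‖(T : E) * x * star (T : E)‖ = ‖x‖ := by
  have h1 : star (T : E) = ((star T : unitary E) : E) := rfl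
  rw [h1, CStarRing.norm_mul_coe_unitary, CStarRing.norm_coe_unitary_mul]

/-- `‖u m (t ^ j * a * t ^ (-j)) - T ^ j * u m a * star (T ^ j)‖ → 0` for all integers `j`, by induction from the case `j = 1` (for `j = -1` put `a = t⁻¹ b t`) -/
theorem cov_zpow (u : ∀ m, H → D m) (T : ∀ m, unitary (D m))
    (hcov : ∀ a, β a = 1 → Tendsto (fun m => ‖u m (t * a * t⁻¹) - (T m : D m) * u m a *
      star (T m : D m)‖) atTop (𝓝 0)) (j : ℤ) :
    ∀ a, β a = 1 → Tendsto (fun m => ‖u m (t ^ j * a * t ^ (-j)) -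
      ((T m ^ j : unitary (D m)) : D m) * u m a * star ((T m ^ j : unitary (D m)) : D m)‖)
      atTop (𝓝 0) := by
  induction j using Int.induction_on with
  | zero =>
    intro a _
    simp
  | succ k ih =>
    intro a ha
    have e : t ^ ((k : ℤ) + 1) * a * t ^ (-((k : ℤ) + 1)) =
        t * (t ^ (k : ℤ) * a * t ^ (-(k : ℤ))) * t⁻¹ := by group
    have h1 := hcov _ (semiB_ker_conj β t ht k ha)
    have h2 := ih a ha
    have h3 := h1.add h2
    rw [add_zero] at h3
    refine squeeze_zero (fun m => norm_nonneg _) (fun m => ?_) h3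
    rw [e]
    have e2 : (T m ^ ((k : ℤ) + 1) : unitary (D m)) = T m * T m ^ (k : ℤ) := by
      rw [add_comm, zpow_add, zpow_one]
    rw [e2]
    have e3 : ((T m * T m ^ (k : ℤ) : unitary (D m)) : D m) * u m a *
        star ((T m * T m ^ (k : ℤ) : unitary (D m)) : D m) =
        (T m : D m) * (((T m ^ (k : ℤ) : unitary (D m)) : D m) * u m a *
          star ((T m ^ (k : ℤ) : unitary (D m)) : D m)) * star (T m : D m) := by
      simp only [Submonoid.coe_mul, star_mul, mul_assoc]
    rw [e3]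
    have e4 : u m (t * (t ^ (k : ℤ) * a * t ^ (-(k : ℤ))) * t⁻¹) -
        (T m : D m) * (((T m ^ (k : ℤ) : unitary (D m)) : D m) * u m a *
          star ((T m ^ (k : ℤ) : unitary (D m)) : D m)) * star (T m : D m) =
        (u m (t * (t ^ (k : ℤ) * a * t ^ (-(k : ℤ))) * t⁻¹) -
          (T m : D m) * u m (t ^ (k : ℤ) * a * t ^ (-(k : ℤ))) * star (T m : D m)) +
        (T m : D m) * (u m (t ^ (k : ℤ) * a * t ^ (-(k : ℤ))) -
          ((T m ^ (k : ℤ) : unitary (D m)) : D m) * u m a *
          star ((T m ^ (k : ℤ) : unitary (D m)) : D m)) * star (T m : D m) := by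
      rw [mul_sub, sub_mul]
      abel
    rw [e4]
    refine (norm_add_le _ _).trans ?_
    rw [semiB_norm_conj]
  | pred k ih =>
    intro a ha
    have hb : β (t ^ (-(k : ℤ) - 1) * a * t ^ (-(-(k : ℤ) - 1))) = 1 :=
      semiB_ker_conj β t ht _ ha
    have h1 := hcov _ hb
    have h2 := ih a ha
    have h3 := h1.add h2
    rw [add_zero] at h3
    refine squeeze_zero (fun m => norm_nonneg _) (fun m => ?_) h3
    have e : t * (t ^ (-(k : ℤ) - 1) * a * t ^ (-(-(k : ℤ) - 1))) * t⁻¹ =
        t ^ (-(k : ℤ)) * a * t ^ (-(-(k : ℤ))) := by group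
    rw [e]
    have e2 : (T m ^ (-(k : ℤ) - 1) : unitary (D m)) = (T m)⁻¹ * T m ^ (-(k : ℤ)) := by
      rw [sub_eq_add_neg, add_comm, zpow_add, zpow_neg_one]
    have e3 : (((T m)⁻¹ : unitary (D m)) : D m) = star (T m : D m) := rfl
    have u1 : (T m : D m) * star (T m : D m) = 1 := Unitary.coe_mul_star_self (T m)
    rw [← semiB_norm_conj (T m) (u m (t ^ (-(k : ℤ) - 1) * a * t ^ (-(-(k : ℤ) - 1))) -
      ((T m ^ (-(k : ℤ) - 1) : unitary (D m)) : D m) * u m a *
        star ((T m ^ (-(k : ℤ) - 1) : unitary (D m)) : D m))]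
    have key : ∀ x : D m, (T m : D m) * (star (T m : D m) * x * (T m : D m)) *
        star (T m : D m) = x := by
      intro x
      calc (T m : D m) * (star (T m : D m) * x * (T m : D m)) * star (T m : D m)
          = ((T m : D m) * star (T m : D m)) * x * ((T m : D m) * star (T m : D m)) := by
            simp only [mul_assoc]
        _ = x := by rw [u1, one_mul, mul_one]
    have e5 : ((T m ^ (-(k : ℤ) - 1) : unitary (D m)) : D m) * u m a *
        star ((T m ^ (-(k : ℤ) - 1) : unitary (D m)) : D m) =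
        star (T m : D m) * (((T m ^ (-(k : ℤ)) : unitary (D m)) : D m) * u m a *
          star ((T m ^ (-(k : ℤ)) : unitary (D m)) : D m)) * (T m : D m) := by
      rw [e2]
      simp only [Submonoid.coe_mul, star_mul, e3, star_star, mul_assoc]
    rw [e5, mul_sub, sub_mul, key]
    set P := u m (t ^ (-(k : ℤ)) * a * t ^ (-(-(k : ℤ)))) with hP
    set Q := (T m : D m) * u m (t ^ (-(k : ℤ) - 1) * a * t ^ (-(-(k : ℤ) - 1))) *
      star (T m : D m) with hQ
    set R := ((T m ^ (-(k : ℤ)) : unitary (D m)) : D m) * u m a *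
          star ((T m ^ (-(k : ℤ)) : unitary (D m)) : D m) with hR
    have e6 : Q - R = -(P - Q) + (P - R) := by abel
    rw [e6]
    refine (norm_add_le _ _).trans ?_
    rw [norm_neg]

/-- asymptotic version of `semi_mul` -/
theorem semi_mul_tendsto (u : ∀ m, H → D m) (T : ∀ m, unitary (D m))
    (hb : ∀ m a, ‖u m a‖ ≤ 1)
    (hmul : ∀ a b, β a = 1 → β b = 1 →
      Tendsto (fun m => ‖u m (a * b) - u m a * u m b‖) atTop (𝓝 0))
    (hcov : ∀ a, β a = 1 → Tendsto (fun m => ‖u m (t * a * t⁻¹) - (T m : D m) * u m a *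
      star (T m : D m)‖) atTop (𝓝 0)) (g h : H) :
    Tendsto (fun m => ‖semi β t (u m) (T m) (g * h) -
      semi β t (u m) (T m) g * semi β t (u m) (T m) h‖) atTop (𝓝 0) := by
  unfold semi
  set k := Multiplicative.toAdd (β g) with hk
  set l := Multiplicative.toAdd (β h) with hl
  have e1 : Multiplicative.toAdd (β (g * h)) = k + l := by rw [map_mul, toAdd_mul]
  have e2 : g * h * t ^ (-(k + l)) = g * t ^ (-k) * (t ^ k * (h * t ^ (-l)) * t ^ (-k)) := by
    group
  have ha : β (g * t ^ (-k)) = 1 := semiB_ker_left β t ht g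
  have hb' : β (h * t ^ (-l)) = 1 := semiB_ker_left β t ht h
  have h1 := hmul _ _ ha (semiB_ker_conj β t ht k hb')
  have h2 := cov_zpow β t ht D u T hcov k _ hb'
  have h3 := h1.add h2
  rw [add_zero] at h3
  refine squeeze_zero (fun m => norm_nonneg _) (fun m => ?_) h3
  rw [e1, e2]
  set a := g * t ^ (-k)
  set b := h * t ^ (-l)
  set c := t ^ k * b * t ^ (-k)
  have u1 : star ((T m ^ k : unitary (D m)) : D m) * ((T m ^ k : unitary (D m)) : D m) = 1 :=
    Unitary.coe_star_mul_self _
  have e3 : u m (a * c) * ((T m ^ (k + l) : unitary (D m)) : D m) -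
      u m a * ((T m ^ k : unitary (D m)) : D m) * (u m b * ((T m ^ l : unitary (D m)) : D m)) =
      ((u m (a * c) - u m a * u m c) + u m a * (u m c - ((T m ^ k : unitary (D m)) : D m) * u m b *
        star ((T m ^ k : unitary (D m)) : D m))) * ((T m ^ (k + l) : unitary (D m)) : D m) := by
    rw [zpow_add]
    simp only [Submonoid.coe_mul]
    rw [mul_sub, add_mul, sub_mul, sub_mul]
    have e4 : u m a * (((T m ^ k : unitary (D m)) : D m) * u m b *
        star ((T m ^ k : unitary (D m)) : D m)) * (((T m ^ k : unitary (D m)) : D m) *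
        ((T m ^ l : unitary (D m)) : D m)) =
        u m a * ((T m ^ k : unitary (D m)) : D m) * (u m b * ((T m ^ l : unitary (D m)) : D m)) := by
      calc _ = u m a * ((T m ^ k : unitary (D m)) : D m) * (u m b *
          (star ((T m ^ k : unitary (D m)) : D m) * ((T m ^ k : unitary (D m)) : D m)) *
          ((T m ^ l : unitary (D m)) : D m)) := by simp only [mul_assoc]
        _ = _ := by rw [u1, mul_one]
    rw [e4]
    abel
  rw [e3, CStarRing.norm_mul_coe_unitary]
  refine (norm_add_le _ _).trans ?_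
  gcongr
  refine (norm_mul_le _ _).trans ?_
  calc ‖u m a‖ * _ ≤ 1 * ‖u m c - ((T m ^ k : unitary (D m)) : D m) * u m b *
        star ((T m ^ k : unitary (D m)) : D m)‖ := by
        gcongr
        exact hb m a
    _ = _ := one_mul _

/-- asymptotic version of `semi_star` -/
theorem semi_star_tendsto (u : ∀ m, H → D m) (T : ∀ m, unitary (D m))
    (hstar : ∀ m a, β a = 1 → u m a⁻¹ = star (u m a))
    (hcov : ∀ a, β a = 1 → Tendsto (fun m => ‖u m (t * a * t⁻¹) - (T m : D m) * u m a *
      star (T m : D m)‖) atTop (𝓝 0)) (g : H) :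
    Tendsto (fun m => ‖semi β t (u m) (T m) g⁻¹ - star (semi β t (u m) (T m) g)‖)
      atTop (𝓝 0) := by
  unfold semi
  set k := Multiplicative.toAdd (β g) with hk
  have e1 : Multiplicative.toAdd (β g⁻¹) = -k := by rw [map_inv, toAdd_inv]
  have e2 : g⁻¹ * t ^ (- -k) = t ^ (-k) * (g * t ^ (-k))⁻¹ * t ^ (-(-k)) := by
    group
  have ha : β (g * t ^ (-k)) = 1 := semiB_ker_left β t ht g
  have ha' : β (g * t ^ (-k))⁻¹ = 1 := by rw [map_inv, ha, inv_one]
  have h2 := cov_zpow β t ht D u T hcov (-k) _ ha'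
  refine squeeze_zero (fun m => norm_nonneg _) (fun m => ?_) h2
  rw [e1, e2]
  set a := g * t ^ (-k)
  have e3 : ((T m ^ (-k) : unitary (D m)) : D m) = star ((T m ^ k : unitary (D m)) : D m) := by
    rw [zpow_neg]
    rfl
  have u1 : ((T m ^ k : unitary (D m)) : D m) * star ((T m ^ k : unitary (D m)) : D m) = 1 :=
    Unitary.coe_mul_star_self _
  have e4 : u m (t ^ (-k) * a⁻¹ * t ^ (- -k)) * ((T m ^ (-k) : unitary (D m)) : D m) -
      star (u m a * ((T m ^ k : unitary (D m)) : D m)) =
      (u m (t ^ (-k) * a⁻¹ * t ^ (- -k)) - ((T m ^ (-k) : unitary (D m)) : D m) * u m a⁻¹ *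
        star ((T m ^ (-k) : unitary (D m)) : D m)) * ((T m ^ (-k) : unitary (D m)) : D m) := by
    rw [hstar m a ha, star_mul, sub_mul, e3, star_star]
    congr 1
    rw [mul_assoc, u1, mul_one]
  rw [e4, CStarRing.norm_mul_coe_unitary]

end

end Pool.Agent.LibCS44
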