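import Pool.Agent.LibCS44.GroupStage
import Pool.Agent.LibCS44.Rigid
import Pool.Agent.LibCS44.IndC
import Pool.Agent.LibCS44.IndM
import Pool.Agent.LibCS44.Semi
import Pool.Agent.LibCS44.PathVar
set_option autoImplicit false
namespace Pool.Agent.LibCS44
open Topology Filter
open scoped Matrix.Norms.L2Operator
open Pool.Agent.LibCS15 (CStarStable cocy cocy_mul cocy_one cocy_inv)

theorem caseB {G : Type} [Group G] [Countable G] (hG : CStarStable G) (S : Subgroup G)
    [S.FiniteIndex] (hS : Group.IsSolvable S) {N : Subgroup G} [hNn : N.Normal] (hN : Flat N)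
    (H : Subgroup G) [H.FiniteIndex] (hNH : N ≤ H) (β : H →* Multiplicative ℤ)
    (hβ : ∀ h : H, β h = 1 ↔ (h : G) ∈ N) (t : H) (ht : β t = Multiplicative.ofAdd 1) :
    {x : N →* Circle | (Set.range fun g : G => cc g x).Finite}.Finite := by
  classical
  by_contra hinf
  letI : Fintype (G ⧸ H) := Fintype.ofFinite _
  obtain ⟨e, he⟩ := exists_surjective_nat N
  let F : ℕ → Finset N := fun m => (Finset.range m).image e
  have hF : ∀ a : N, ∃ m₀, ∀ m, m₀ ≤ m → a ∈ F m := by
    intro a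
    obtain ⟨k, hk⟩ := he a
    refine ⟨k + 1, fun m hm => ?_⟩
    exact Finset.mem_image.2 ⟨k, Finset.mem_range.2 (by omega), hk⟩
  have hε : ∀ m : ℕ, (0 : ℝ) < 1 / ((m : ℝ) + 1) := fun m => by positivity
  choose I hI1 hI2 hI3 u T a₀ hu1 hu2 hu3 hu4 hu5 hu6 hu7 hu8 hu9 hu10 using
    fun m => exists_group_stage H (t : G) hinf (F m) (hε m)
  -- extend `u` to `H`
  let uH : ∀ m, H → C(unitInterval, Matrix (I m) (I m) ℂ) := fun m h =>
    if hh : (h : G) ∈ N then u m ⟨h, hh⟩ else 0
  have huH : ∀ m (h : H) (hh : (h : G) ∈ N), uH m h = u m ⟨h, hh⟩ := by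
    intro m h hh
    simp only [uH, dif_pos hh]
  have hmem : ∀ h : H, β h = 1 → (h : G) ∈ N := fun h hh => (hβ h).1 hh
  have hnorm : ∀ m h, ‖uH m h‖ ≤ 1 := by
    intro m h
    by_cases hh : (h : G) ∈ N
    · rw [huH m h hh]; exact hu1 m _
    · simp only [uH, dif_neg hh, norm_zero]; exact zero_le_one
  have hone : ∀ m, uH m 1 = 1 := by
    intro m
    rw [huH m 1 N.one_mem]
    exact hu3 m
  have hstar : ∀ m a, β a = 1 → uH m a⁻¹ = star (uH m a) := by
    intro m a ha
    rw [huH m a (hmem a ha), huH m a⁻¹ (N.inv_mem (hmem a ha)), ← hu2 m]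
    rfl
  have hconj : ∀ (a : H) (ha : (a : G) ∈ N), (MulAut.conjNormal (t : G) ⟨(a : G), ha⟩ : N) =
      ⟨((t * a * t⁻¹ : H) : G), by simpa using hNn.conj_mem _ ha (t : G)⟩ := by
    intro a ha
    apply Subtype.ext
    rw [MulAut.conjNormal_apply]
    rfl
  have hmulT : ∀ a b : H, β a = 1 → β b = 1 →
      Tendsto (fun m => ‖uH m (a * b) - uH m a * uH m b‖) atTop (𝓝 0) := by
    intro a b ha hb
    have ha' := hmem a ha
    have hb' := hmem b hb
    obtain ⟨m₁, h1⟩ := hF ⟨a, ha'⟩
    obtain ⟨m₂, h2⟩ := hF ⟨b, hb'⟩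
    obtain ⟨m₃, h3⟩ := hF (⟨a, ha'⟩ * ⟨b, hb'⟩)
    have hlim : Tendsto (fun m : ℕ => 3 * (1 / ((m : ℝ) + 1))) atTop (𝓝 0) := by
      have := (tendsto_one_div_add_atTop_nhds_zero_nat (𝕜 := ℝ)).const_mul 3
      simpa using this
    refine squeeze_zero' (Eventually.of_forall fun _ => norm_nonneg _) ?_ hlim
    filter_upwards [eventually_ge_atTop m₁, eventually_ge_atTop m₂, eventually_ge_atTop m₃]
      with m g1 g2 g3
    have := hu8 m _ (h1 m g1) _ (h2 m g2) (h3 m g3)
    rw [huH m a ha', huH m b hb', huH m (a * b) (N.mul_mem ha' hb')]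
    exact this
  have hcovT : ∀ a : H, β a = 1 →
      Tendsto (fun m => ‖uH m (t * a * t⁻¹) - (T m : C(unitInterval, Matrix (I m) (I m) ℂ)) *
        uH m a * star (T m : C(unitInterval, Matrix (I m) (I m) ℂ))‖) atTop (𝓝 0) := by
    intro a ha
    have ha' := hmem a ha
    obtain ⟨m₁, h1⟩ := hF ⟨a, ha'⟩
    obtain ⟨m₂, h2⟩ := hF (MulAut.conjNormal (t : G) ⟨(a : G), ha'⟩ : N)
    have hlim : Tendsto (fun m : ℕ => 4 * (1 / ((m : ℝ) + 1))) atTop (𝓝 0) := by
      have := (tendsto_one_div_add_atTop_nhds_zero_nat (𝕜 := ℝ)).const_mul 4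
      simpa using this
    refine squeeze_zero' (Eventually.of_forall fun _ => norm_nonneg _) ?_ hlim
    filter_upwards [eventually_ge_atTop m₁, eventually_ge_atTop m₂] with m g1 g2
    have := hu9 m _ (h1 m g1) (h2 m g2)
    rw [huH m a ha', huH m (t * a * t⁻¹) (by simpa using hNn.conj_mem _ ha' (t : G)), ← hconj a ha']
    exact this
  -- end points
  have hsemi : ∀ (m : ℕ) (s : unitInterval) (h : H),
      (semi β t (uH m) (T m) h) s = semi β t (fun h => uH m h s)
        (evalRep (MonoidHom.id (unitary C(unitInterval, Matrix (I m) (I m) ℂ))) s (T m)) h := by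
    intro m s h
    unfold semi
    rw [← map_zpow, evalRep_apply]
    rfl
  have hex : ∀ (m : ℕ) (s : unitInterval), (∀ a b, u m (a * b) s = u m a s * u m b s) →
      (∀ a, u m (MulAut.conjNormal (t : G) a) s =
        (T m : C(unitInterval, Matrix (I m) (I m) ℂ)) s * u m a s *
        star ((T m : C(unitInterval, Matrix (I m) (I m) ℂ)) s)) →
      (∀ g h : H, (semi β t (uH m) (T m) (g * h)) s =
        (semi β t (uH m) (T m) g) s * (semi β t (uH m) (T m) h) s) ∧
      (∀ g : H, (semi β t (uH m) (T m) g⁻¹) s = star ((semi β t (uH m) (T m) g) s)) := by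
    intro m s h1 h2
    have c1 : ∀ a, β a = 1 → uH m (t * a * t⁻¹) s =
        (evalRep (MonoidHom.id (unitary C(unitInterval, Matrix (I m) (I m) ℂ))) s (T m) :
          Matrix (I m) (I m) ℂ) * uH m a s *
        star (evalRep (MonoidHom.id (unitary C(unitInterval, Matrix (I m) (I m) ℂ))) s (T m) :
          Matrix (I m) (I m) ℂ) := by
      intro a ha
      have ha' := hmem a ha
      rw [huH m a ha', huH m (t * a * t⁻¹) (by simpa using hNn.conj_mem _ ha' (t : G)),
        ← hconj a ha', h2, evalRep_apply]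
      rfl
    refine ⟨fun g h => ?_, fun g => ?_⟩
    · rw [hsemi, hsemi, hsemi]
      refine semi_mul β t ht _ (fun a b ha hb => ?_) c1 g h
      have ha' := hmem a ha
      have hb' := hmem b hb
      rw [huH m a ha', huH m b hb', huH m (a * b) (N.mul_mem ha' hb'), ← h1]
      rfl
    · rw [hsemi, hsemi]
      refine semi_star β t ht _ (fun a ha => ?_) c1 g
      rw [hstar m a ha]
      rfl
  have hex0 := fun m => hex m 0 (hu4 m) (hu6 m)
  have hex1 := fun m => hex m 1 (hu5 m) (hu7 m)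
  let v : ∀ m, G → C(unitInterval, Matrix ((G ⧸ H) × I m) ((G ⧸ H) × I m) ℂ) := fun m g =>
    indC H (fun h => semi β t (uH m) (T m) h) g
  have hv : ∀ m g s, v m g s = indM H (fun h => semi β t (uH m) (T m) h s) g := fun m g s => rfl
  have hv1 : ∀ m, v m 1 = 1 := by
    intro m
    ext1 s
    rw [hv]
    have : semi β t (uH m) (T m) 1 = 1 := semi_one β t (T m) (hone m)
    have h2 : (fun h => semi β t (uH m) (T m) h s) 1 = 1 := by
      show semi β t (uH m) (T m) 1 s = 1
      rw [this]; rfl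
    rw [indM_one H h2]
    rfl
  have hmuls : ∀ (m : ℕ) (s : unitInterval), (∀ g h : H, (semi β t (uH m) (T m) (g * h)) s =
        (semi β t (uH m) (T m) g) s * (semi β t (uH m) (T m) h) s) →
      ∀ g h, v m (g * h) s = v m g s * v m h s := by
    intro m s h1 g h
    rw [hv, hv, hv, ← sub_eq_zero, indM_defect]
    refine Finset.sum_eq_zero fun a _ => ?_
    rw [h1, sub_self, blockE_zero]
  have hstars : ∀ (m : ℕ) (s : unitInterval),
      (∀ g : H, (semi β t (uH m) (T m) g⁻¹) s = star ((semi β t (uH m) (T m) g) s)) →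
      ∀ g, v m g⁻¹ s = star (v m g s) := by
    intro m s h1 g
    rw [hv, hv, ← sub_eq_zero, indM_star_defect]
    refine Finset.sum_eq_zero fun a _ => ?_
    rw [h1, sub_self, blockE_zero]
  obtain ⟨m₀, R, hR⟩ := path_var hG (fun m => (G ⧸ H) × I m) v
    (fun g => ⟨(Fintype.card (G ⧸ H)) * 1, fun m => norm_indC_le H _ 1
      (fun h => norm_semi_le β t (T m) zero_le_one (hnorm m) h) g⟩)
    (fun m => by rw [hv1]; rfl) (fun m => by rw [hv1]; rfl)
    (by simp only [hv1, sub_self, norm_zero]; exact tendsto_const_nhds)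
    (fun m => hmuls m 0 (hex0 m).1) (fun m => hmuls m 1 (hex1 m).1)
    (by
      intro g h
      refine squeeze_zero (fun _ => norm_nonneg _) (fun m => norm_indC_defect_le H _ g h) ?_
      have e1 := tendsto_finsetSum (Finset.univ : Finset (G ⧸ H)) fun a _ =>
        semi_mul_tendsto β t ht _ uH T hnorm hmulT hcovT (cocy H g (h • a)) (cocy H h a)
      rw [Finset.sum_const_zero] at e1
      exact e1)
    (fun m => hstars m 0 (hex0 m).2) (fun m => hstars m 1 (hex1 m).2)
    (by
      intro g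
      refine squeeze_zero (fun _ => norm_nonneg _) (fun m => norm_indC_star_defect_le H _ g) ?_
      have e1 := tendsto_finsetSum (Finset.univ : Finset (G ⧸ H)) fun a _ =>
        semi_star_tendsto β t ht _ uH T hstar hcovT (cocy H g a)
      rw [Finset.sum_const_zero] at e1
      exact e1)
  have htr : ∀ s : unitInterval, (v m₀ (a₀ m₀ : G) s).trace =
      ∑ b : G ⧸ H, (u m₀ (cj H b (a₀ m₀)) s).trace := by
    intro s
    rw [hv, trace_indM H hNH (a₀ m₀).2]
    refine Finset.sum_congr rfl fun b _ => ?_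
    have e1 := cocy_of_mem_normal H hNH (a₀ m₀).2 b
    have e2 : (cocy H (a₀ m₀ : G) b : G) ∈ N := by
      rw [e1]; exact (cj H b (a₀ m₀)).2
    rw [semi_of_ker β t (T m₀) ((hβ _).2 e2), huH m₀ _ e2]
    congr 3
    exact Subtype.ext e1
  have hrig := rigid S hS hN (R m₀) (a₀ m₀ : G) (a₀ m₀).2 1
  rw [(hR m₀ le_rfl _).1, (hR m₀ le_rfl _).2, htr, htr] at hrig
  exact hu10 m₀ hrig.symm

end Pool.Agent.LibCS44
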