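import Mathlib
set_option autoImplicit false
namespace Pool.Agent.LibCS44

private theorem exists_perm_of_fibres {I D : Type} [Fintype I] [DecidableEq D] (F F' : I → D)
    (h : ∀ p, (Finset.univ.filter fun i => F i = p).card =
      (Finset.univ.filter fun i => F' i = p).card) :
    ∃ β : Equiv.Perm I, ∀ i, F' (β i) = F i := by
  classical
  have e : ∀ p : D, Nonempty ({i // F i = p} ≃ {i // F' i = p}) := by
    intro p
    refine ⟨Fintype.equivOfCardEq ?_⟩
    rw [Fintype.card_subtype, Fintype.card_subtype]
    exact h p
  refine ⟨((Equiv.sigmaFiberEquiv F).symm.trans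
    (Equiv.sigmaCongrRight fun p => (e p).some)).trans (Equiv.sigmaFiberEquiv F'), fun i => ?_⟩
  exact ((e (F i)).some ⟨i, rfl⟩).2

/-- two functions with the same transition numbers are related by a permutation: the fibres of `i ↦ (f i, f (σ i))` and of `i ↦ (f' i, f' (σ i))` have the same
cardinalities -/
theorem exists_matching {I C : Type} [Fintype I] [DecidableEq C] (σ : Equiv.Perm I) (f f' : I → C)
    (h : ∀ c c', (Finset.univ.filter fun i => f i = c ∧ f (σ i) = c').card =
      (Finset.univ.filter fun i => f' i = c ∧ f' (σ i) = c').card) :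
    ∃ β : Equiv.Perm I, ∀ i, f' (β i) = f i ∧ f' (σ (β i)) = f (σ i) := by
  classical
  obtain ⟨β, hβ⟩ := exists_perm_of_fibres (fun i => (f i, f (σ i))) (fun i => (f' i, f' (σ i)))
    (by
      rintro ⟨c, c'⟩
      have := h c c'
      simp only [Prod.mk.injEq]
      exact this)
  refine ⟨β, fun i => ?_⟩
  have := hβ i
  simp only [Prod.mk.injEq] at this
  exact this

end Pool.Agent.LibCS44
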