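import Mathlib
set_option autoImplicit false
namespace Pool.Agent.LibCS44

/-- `r = (d * L + 1) ^ c`: `(d * r * L + 1) ^ c ≤ ((d * L + 1) * (r + 1)) ^ c = r * (r + 1) ^ c < (r + 1) ^ (c + 1) ≤ (r + 1) ^ d` -/
theorem exists_pigeon (c L d : ℕ) (hd : c < d) :
    ∃ r : ℕ, (d * r * L + 1) ^ c < (r + 1) ^ d := by
  obtain ⟨r, hr⟩ : ∃ r : ℕ, r = (d * L + 1) ^ c := ⟨_, rfl⟩
  refine ⟨r, ?_⟩
  have h1 : d * r * L + 1 ≤ (d * L + 1) * (r + 1) := by nlinarith [Nat.zero_le (d * L)]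
  calc (d * r * L + 1) ^ c ≤ ((d * L + 1) * (r + 1)) ^ c := Nat.pow_le_pow_left h1 c
    _ = r * (r + 1) ^ c := by rw [mul_pow, ← hr]
    _ < (r + 1) * (r + 1) ^ c :=
        Nat.mul_lt_mul_of_pos_right (Nat.lt_succ_self r) (Nat.pow_pos (Nat.succ_pos r))
    _ = (r + 1) ^ (c + 1) := by rw [pow_succ, mul_comm]
    _ ≤ (r + 1) ^ d := Nat.pow_le_pow_right (Nat.succ_pos r) hd

end Pool.Agent.LibCS44
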