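import Mathlib
set_option autoImplicit false
namespace Pool.Agent.LibCS44

/-- a finite partition of the set of characters into cells on which the values at the elements of `F` vary by at most `ε` (`Circle` is compact, take a finite `ε / 2`-net `T` of `Circle` and
`C = F → T`) -/
theorem exists_cells {N : Type} [Group N] (F : Finset N) {ε : ℝ} (hε : 0 < ε) :
    ∃ (C : Type) (_ : Fintype C) (_ : DecidableEq C) (cell : (N →* Circle) → C),
      ∀ x y, cell x = cell y → ∀ a ∈ F, ‖(x a : ℂ) - (y a : ℂ)‖ ≤ ε := by
  classical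
  obtain ⟨t, -, htf, htc⟩ := finite_cover_balls_of_compact (isCompact_univ (X := Circle))
    (half_pos hε)
  have hch : ∀ z : Circle, ∃ w : t, dist z (w : Circle) < ε / 2 := by
    intro z
    have h1 := htc (Set.mem_univ z)
    simp only [Set.mem_iUnion, Metric.mem_ball, exists_prop] at h1
    obtain ⟨w, hw, hd⟩ := h1
    exact ⟨⟨w, hw⟩, hd⟩
  choose f hf using hch
  have : Fintype t := htf.fintype
  refine ⟨F → t, inferInstance, inferInstance, fun x a => f (x a), ?_⟩
  intro x y hxy a ha
  have h1 : f (x a) = f (y a) := congrFun hxy ⟨a, ha⟩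
  have h2 := hf (x a)
  have h3 := hf (y a)
  rw [← h1] at h3
  have h4 : dist (x a) (y a) ≤ ε := by
    have h5 := dist_triangle_right (x a) (y a) (f (x a) : Circle)
    linarith
  have h6 : dist (x a) (y a) = ‖(x a : ℂ) - (y a : ℂ)‖ := by
    exact Complex.dist_eq (x a : ℂ) (y a : ℂ)
  rwa [h6] at h4

end Pool.Agent.LibCS44
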