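import Mathlib
set_option autoImplicit false
namespace Pool.Agent.LibCS44

/-- the embedding of `ℚ / ℤ` into `ℝ / ℤ` -/
private noncomputable def qz : AddCircle (1 : ℚ) →+ AddCircle (1 : ℝ) :=
  QuotientAddGroup.map _ _ (Rat.castHom ℝ).toAddMonoidHom (by
    intro x hx
    obtain ⟨k, hk⟩ := AddSubgroup.mem_zmultiples_iff.1 hx
    refine AddSubgroup.mem_comap.2 (AddSubgroup.mem_zmultiples_iff.2 ⟨k, ?_⟩)
    rw [← hk]
    simp)

private theorem qz_inj : Function.Injective qz := by
  rw [injective_iff_map_eq_zero]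
  intro x hx
  induction x using QuotientAddGroup.induction_on with
  | H x =>
    have h1 : ((x : ℝ) : AddCircle (1 : ℝ)) = 0 := hx
    rw [AddCircle.coe_eq_zero_iff] at h1
    obtain ⟨k, hk⟩ := h1
    refine (QuotientAddGroup.eq_zero_iff _).2 (AddSubgroup.mem_zmultiples_iff.2 ⟨k, ?_⟩)
    have h2 : ((k • (1 : ℚ) : ℚ) : ℝ) = (x : ℝ) := by
      rw [← hk]
      simp
    exact_mod_cast h2

private theorem exists_char_ne' {A : Type} [CommGroup A] {a : A} (ha : a ≠ 1) :
    ∃ χ : A →* Circle, χ a ≠ 1 := by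
  have ha' : (Additive.ofMul a) ≠ 0 := fun h => ha h
  obtain ⟨c, hc⟩ := CharacterModule.exists_character_apply_ne_zero_of_ne_zero ha'
  let T : AddCircle (1 : ℝ) → Circle := AddCircle.toCircle
  have hT0 : T 0 = 1 := AddCircle.toCircle_zero
  have hTadd : ∀ x y, T (x + y) = T x * T y := AddCircle.toCircle_add
  have hTinj : Function.Injective T := AddCircle.injective_toCircle one_ne_zero
  let ψ : A →* Circle :=
    { toFun := fun x => T (qz (c (Additive.ofMul x)))
      map_one' := by
        rw [ofMul_one, map_zero, map_zero, hT0]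
      map_mul' := fun x y => by
        rw [ofMul_mul, map_add, map_add, hTadd] }
  refine ⟨ψ, ?_⟩
  intro h
  apply hc
  have h2 : T (qz (c (Additive.ofMul a))) = T 0 := by
    rw [hT0]
    exact h
  have h3 := hTinj h2
  exact qz_inj (by rw [map_zero]; exact h3)

/-- Characters of the abelian quotient `Q ⧸ K` (`K` contains the commutators, so it is normal) separate points: `CharacterModule.exists_character_apply_ne_zero_of_ne_zero` for
`Additive (Q ⧸ K)`, composed with `AddCircle → Circle`; or see `exists_char_ne` in `Pool/Agent/LibCS15/FinQuot.lean` (values in `unitary ℂ`). -/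
theorem exists_char_of_quotient {Q : Type} [Group Q] (K : Subgroup Q)
    (hK : commutator Q ≤ K) (a : Q) (ha : a ∉ K) :
    ∃ x : Q →* Circle, (∀ b ∈ K, x b = 1) ∧ x a ≠ 1 := by
  haveI hn : K.Normal := by
    refine ⟨fun n hnK g => ?_⟩
    have h1 : g * n * g⁻¹ * n⁻¹ ∈ K := hK (Subgroup.commutator_mem_commutator
      (Subgroup.mem_top g) (Subgroup.mem_top n))
    have h2 := K.mul_mem h1 hnK
    simpa using h2
  have hcomm : ∀ x y : Q ⧸ K, x * y = y * x := by
    intro x y
    induction x using QuotientGroup.induction_on with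
    | H x =>
      induction y using QuotientGroup.induction_on with
      | H y =>
        rw [← QuotientGroup.mk_mul, ← QuotientGroup.mk_mul, QuotientGroup.eq]
        have h1 : y⁻¹ * x⁻¹ * (y⁻¹)⁻¹ * (x⁻¹)⁻¹ ∈ K := hK (Subgroup.commutator_mem_commutator
          (Subgroup.mem_top y⁻¹) (Subgroup.mem_top x⁻¹))
        simpa [mul_assoc] using h1
  letI : CommGroup (Q ⧸ K) := { (inferInstance : Group (Q ⧸ K)) with mul_comm := hcomm }
  have hne : (QuotientGroup.mk a : Q ⧸ K) ≠ 1 := fun h => ha ((QuotientGroup.eq_one_iff a).1 h)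
  obtain ⟨χ, hχ⟩ := exists_char_ne' hne
  refine ⟨χ.comp (QuotientGroup.mk' K), ?_, ?_⟩
  · intro b hb
    have h1 : (QuotientGroup.mk' K) b = 1 := (QuotientGroup.eq_one_iff b).2 hb
    rw [MonoidHom.comp_apply, h1, map_one]
  · exact hχ

end Pool.Agent.LibCS44
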