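import Pool.Agent.LibCS44.Base
import Pool.Agent.LibCS44.CharB
set_option autoImplicit false
namespace Pool.Agent.LibCS44

/-- a torsion subgroup of an abelian group contained in a finitely generated subgroup is finite -/
private theorem CharA2_finite {M : Type} [AddCommGroup M] (S T : AddSubgroup M) (hS : S.FG)
    (hTS : T ≤ S) (ht : ∀ a ∈ T, ∃ k : ℕ, 0 < k ∧ k • a = 0) : Finite T := by
  let S' : Submodule ℤ M := AddSubgroup.toIntSubmodule S
  let T' : Submodule ℤ M := AddSubgroup.toIntSubmodule T
  have hS' : S'.FG := by
    obtain ⟨s, hs⟩ := hS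
    refine ⟨s, ?_⟩
    refine le_antisymm ?_ ?_
    · rw [Submodule.span_le]
      intro x hx
      have h1 : x ∈ AddSubgroup.closure (s : Set M) := AddSubgroup.subset_closure hx
      rw [hs] at h1
      exact h1
    · intro x hx
      have h1 : x ∈ S := hx
      rw [← hs] at h1
      have h2 : AddSubgroup.closure (s : Set M) ≤
          (Submodule.span ℤ (s : Set M)).toAddSubgroup :=
        (AddSubgroup.closure_le _).2 Submodule.subset_span
      exact h2 h1
  have : IsNoetherian ℤ S' := isNoetherian_of_fg_of_noetherian S' hS'
  have : IsNoetherian ℤ T' := isNoetherian_of_le (show T' ≤ S' from hTS)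
  have : Module.Finite ℤ T' := inferInstance
  have htor : Module.IsTorsion ℤ T' := by
    intro a
    obtain ⟨k, hk, hka⟩ := ht (a : M) a.2
    have hk0 : (k : ℤ) ≠ 0 := by exact_mod_cast hk.ne'
    refine ⟨⟨(k : ℤ), mem_nonZeroDivisors_of_ne_zero hk0⟩, ?_⟩
    apply Subtype.ext
    change (k : ℤ) • (a : M) = 0
    rw [natCast_zsmul]
    exact hka
  exact Module.finite_of_fg_torsion T' htor

/-- the image of `N'` in `Abelianization Q` is contained in the image of `P`, a finitely generated abelian group, and it is a torsion group, so it is finite -/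
theorem relIndex_of_fg {Q : Type} [Group Q] (N' P : Subgroup Q) (hP : P.FG)
    (h : N' ≤ P ⊔ commutator Q) (htors : ∀ a ∈ N', ∃ k : ℕ, 0 < k ∧ a ^ k ∈ commutator Q) :
    (commutator Q).relIndex N' ≠ 0 := by
  have h1 : (commutator Q).relIndex N' =
      Nat.card (N'.map (Abelianization.of : Q →* Abelianization Q)) := by
    rw [← Subgroup.relIndex_ker, Abelianization.ker_of]
  rw [h1]
  have h2 : N'.map (Abelianization.of : Q →* Abelianization Q) ≤
      P.map (Abelianization.of : Q →* Abelianization Q) := by
    refine (Subgroup.map_mono h).trans ?_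
    rw [Subgroup.map_sup]
    refine sup_le le_rfl ?_
    rw [Subgroup.map_le_iff_le_comap]
    intro x hx
    rw [Subgroup.mem_comap]
    have : (Abelianization.of : Q →* Abelianization Q) x = 1 := by
      rw [← MonoidHom.mem_ker, Abelianization.ker_of]
      exact hx
    rw [this]
    exact Subgroup.one_mem _
  have h3 : (P.map (Abelianization.of : Q →* Abelianization Q)).FG := by
    rw [Subgroup.fg_iff_submonoid_fg]
    exact ((Subgroup.fg_iff_submonoid_fg P).1 hP).map _
  have h4 := CharA2_finite (M := Additive (Abelianization Q))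
    (P.map (Abelianization.of : Q →* Abelianization Q)).toAddSubgroup
    (N'.map (Abelianization.of : Q →* Abelianization Q)).toAddSubgroup
    ((Subgroup.fg_iff_add_fg _).1 h3) h2 (by
      rintro a ⟨b, hb, hab⟩
      obtain ⟨k, hk, hbk⟩ := htors b hb
      refine ⟨k, hk, ?_⟩
      have h5 : (Abelianization.of : Q →* Abelianization Q) (b ^ k) = 1 := by
        rw [← MonoidHom.mem_ker, Abelianization.ker_of]
        exact hbk
      rw [map_pow, hab] at h5
      exact h5)
  have h5 : Finite (N'.map (Abelianization.of : Q →* Abelianization Q)) := h4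
  exact Nat.card_pos.ne'

end Pool.Agent.LibCS44
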