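import Pool.Agent.LibCS44.Base
import Pool.Agent.LibCS44.CharB
set_option autoImplicit false
namespace Pool.Agent.LibCS44

private theorem addHom_one {H : Type} [Group H] {b : H → ℝ} (hb : IsAddHom b) : b 1 = 0 := by
  have := hb 1 1
  rw [mul_one] at this
  linarith

private theorem addHom_inv {H : Type} [Group H] {b : H → ℝ} (hb : IsAddHom b) (x : H) :
    b x⁻¹ = -b x := by
  have := hb x x⁻¹
  rw [mul_inv_cancel, addHom_one hb] at this
  linarith

private noncomputable def toMul {H : Type} [Group H] {b : H → ℝ} (hb : IsAddHom b) :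
    H →* Multiplicative ℝ where
  toFun x := Multiplicative.ofAdd (b x)
  map_one' := by rw [addHom_one hb]; rfl
  map_mul' x y := by rw [hb x y]; rfl

private theorem addHom_zpow {H : Type} [Group H] {b : H → ℝ} (hb : IsAddHom b) (x : H) (n : ℤ) :
    b (x ^ n) = n * b x := by
  have h1 := map_zpow (toMul hb) x n
  have h2 : Multiplicative.ofAdd (b (x ^ n)) = Multiplicative.ofAdd (n • b x) := by
    rw [ofAdd_zsmul]
    exact h1
  have h3 := Multiplicative.ofAdd.injective h2
  rw [h3, zsmul_eq_mul]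

/-- common measure of two commensurable values -/
private theorem common {H : Type} [Group H] {b : H → ℝ} (hb : IsAddHom b) (x y : H) {p q : ℤ}
    (hpq : p ≠ 0 ∨ q ≠ 0) (h : p * b x + q * b y = 0) :
    ∃ (t : H) (i j : ℤ), b x = i * b t ∧ b y = j * b t := by
  have hg : 0 < Int.gcd p q := Int.gcd_pos_iff.mpr hpq
  obtain ⟨p', hp'⟩ : (Int.gcd p q : ℤ) ∣ p := Int.gcd_dvd_left p q
  obtain ⟨q', hq'⟩ : (Int.gcd p q : ℤ) ∣ q := Int.gcd_dvd_right p q
  set g := Int.gcd p q with hgdef
  have hgR : (g : ℝ) ≠ 0 := by exact_mod_cast hg.ne'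
  have h1 : (p' : ℝ) * b x + q' * b y = 0 := by
    have e1 : (p : ℝ) = g * p' := by exact_mod_cast hp'
    have e2 : (q : ℝ) = g * q' := by exact_mod_cast hq'
    rw [e1, e2] at h
    have e3 : (g : ℝ) * ((p' : ℝ) * b x + q' * b y) = 0 := by linarith
    exact (mul_eq_zero.mp e3).resolve_left hgR
  have hbez := Int.gcd_eq_gcd_ab p q
  set u := Int.gcdA p q
  set v := Int.gcdB p q
  have h2 : p' * u + q' * v = 1 := by
    have e1 : (g : ℤ) * (p' * u + q' * v) = g * 1 := by
      rw [mul_one]
      conv_rhs => rw [hgdef, hbez]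
      calc (g : ℤ) * (p' * u + q' * v) = (g * p') * u + (g * q') * v := by ring
        _ = p * u + q * v := by rw [← hp', ← hq']
    exact mul_left_cancel₀ (by exact_mod_cast hg.ne') e1
  have h2R : (p' : ℝ) * u + q' * v = 1 := by exact_mod_cast h2
  have hbt : b (x ^ v * y ^ (-u)) = v * b x - u * b y := by
    rw [hb, addHom_zpow hb, addHom_zpow hb]
    push_cast
    ring
  refine ⟨x ^ v * y ^ (-u), q', -p', ?_, ?_⟩
  · rw [hbt]
    have : b x = (p' * u + q' * v) * b x := by rw [h2R, one_mul]
    linear_combination this + u * h1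
  · rw [hbt]
    push_cast
    have : b y = (p' * u + q' * v) * b y := by rw [h2R, one_mul]
    linear_combination this + v * h1

/-- Let `e : ℕ → H` be an enumeration and `H m = closure {e 0, ..., e m} ⊔ ker b`.  If `H m ≠ ⊤` for all `m`, choose characters `χ m ≠ 1` trivial on `H m` (which contains the commutators): contradiction.  So
`b` has finitely generated image in `ℝ`, and any two elements of it are commensurable: so the image is contained in `(1 / D) ℤ (b l)` for some `D > 0`, `l` with `b l ≠ 0`; it is cyclic. -/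
theorem cyclic_of_chars {H : Type} [Group H] [Countable H] (b : H → ℝ) (hb : IsAddHom b)
    (hrank : ∀ h h' : H, ∃ p q : ℤ, (p ≠ 0 ∨ q ≠ 0) ∧ p * b h + q * b h' = 0)
    (h : ∀ χ : ℕ → H →* Circle, (∀ q, ∃ m₀, ∀ m, m₀ ≤ m → χ m q = 1) →
      (∀ m a, b a = 0 → χ m a = 1) → ∃ m₀, ∀ m, m₀ ≤ m → χ m = 1) :
    ∃ t : H, ∀ h : H, ∃ k : ℤ, b h = k * b t := by
  obtain ⟨e, he⟩ := exists_surjective_nat H
  let K : Subgroup H := (toMul hb).ker
  have hK : ∀ a, a ∈ K ↔ b a = 0 := by
    intro a
    show toMul hb a = 1 ↔ b a = 0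
    constructor
    · intro h1
      exact Multiplicative.ofAdd.injective h1
    · intro h1
      show Multiplicative.ofAdd (b a) = 1
      rw [h1]; rfl
  let Hm : ℕ → Subgroup H := fun m => Subgroup.closure (e '' Set.Iic m) ⊔ K
  have hcomm : commutator H ≤ K := by
    rw [commutator_def, Subgroup.commutator_le]
    intro x _ y _
    rw [hK, commutatorElement_def, hb, hb, hb, addHom_inv hb, addHom_inv hb]
    ring
  -- some `Hm m` is everything
  have htop : ∃ m, Hm m = ⊤ := by
    by_contra hcon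
    push Not at hcon
    have h1 : ∀ m, ∃ a, a ∉ Hm m := by
      intro m
      by_contra h2
      push Not at h2
      exact hcon m ((Subgroup.eq_top_iff' _).mpr h2)
    choose a ha using h1
    have h2 : ∀ m, ∃ x : H →* Circle, (∀ b ∈ Hm m, x b = 1) ∧ x (a m) ≠ 1 :=
      fun m => exists_char_of_quotient (Hm m) (le_trans hcomm le_sup_right) (a m) (ha m)
    choose χ hχ hχa using h2
    obtain ⟨m₀, hm₀⟩ := h χ
      (fun q => by
        obtain ⟨j, rfl⟩ := he q
        refine ⟨j, fun m hm => hχ m _ ?_⟩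
        exact (le_sup_left : Subgroup.closure (e '' Set.Iic m) ≤ Hm m)
          (Subgroup.subset_closure ⟨j, hm, rfl⟩))
      (fun m c hc => hχ m c ((le_sup_right : K ≤ Hm m) ((hK c).mpr hc)))
    have := hm₀ m₀ le_rfl
    exact hχa m₀ (by rw [this]; rfl)
  obtain ⟨m, hm⟩ := htop
  -- a common measure of `b (e 0), ..., b (e m)`
  have hP : ∀ m : ℕ, ∃ t : H, ∀ i ≤ m, ∃ k : ℤ, b (e i) = k * b t := by
    intro m
    induction m with
    | zero =>
      refine ⟨e 0, fun i hi => ⟨1, ?_⟩⟩
      have : i = 0 := by omega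
      subst this
      simp
    | succ m ih =>
      obtain ⟨t, ht⟩ := ih
      obtain ⟨p, q, hpq, h1⟩ := hrank t (e (m + 1))
      obtain ⟨t', i', j', h2, h3⟩ := common hb t (e (m + 1)) hpq h1
      refine ⟨t', fun i hi => ?_⟩
      rcases Nat.lt_or_ge i (m + 1) with h4 | h4
      · obtain ⟨k, hk⟩ := ht i (by omega)
        refine ⟨k * i', ?_⟩
        rw [hk, h2]
        push_cast
        ring
      · have : i = m + 1 := by omega
        subst this
        exact ⟨j', h3⟩
  obtain ⟨t, ht⟩ := hP m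
  let L : Subgroup H :=
    { carrier := {x | ∃ k : ℤ, b x = k * b t}
      one_mem' := ⟨0, by rw [addHom_one hb]; simp⟩
      mul_mem' := by
        rintro x y ⟨k, hk⟩ ⟨l, hl⟩
        refine ⟨k + l, ?_⟩
        rw [hb, hk, hl]
        push_cast
        ring
      inv_mem' := by
        rintro x ⟨k, hk⟩
        refine ⟨-k, ?_⟩
        rw [addHom_inv hb, hk]
        push_cast
        ring }
  have hL : Hm m ≤ L := by
    refine sup_le ?_ ?_
    · rw [Subgroup.closure_le]
      rintro _ ⟨i, hi, rfl⟩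
      exact ht i hi
    · intro a ha
      refine ⟨0, ?_⟩
      rw [(hK a).mp ha]
      simp
  rw [hm] at hL
  exact ⟨t, fun x => hL (Subgroup.mem_top x)⟩

end Pool.Agent.LibCS44
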