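import Pool.Agent.LibCS44.Base
import Pool.Agent.LibCS44.CharB
set_option autoImplicit false
namespace Pool.Agent.LibCS44

/-- otherwise choose `a m ∈ N'`, `a m ∉ Qn m ⊔ commutator Q` and a character `χ m`, trivial on `Qn m ⊔ commutator Q`, with `χ m (a m) ≠ 1` -/
theorem le_of_chars {Q : Type} [Group Q] (N' : Subgroup Q) (Qn : ℕ → Subgroup Q)
    (hmono : Monotone Qn) (hun : ∀ q, ∃ m, q ∈ Qn m)
    (h : ∀ χ : ℕ → Q →* Circle, (∀ q, ∃ m₀, ∀ m, m₀ ≤ m → χ m q = 1) →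
      ∃ m₀, ∀ m, m₀ ≤ m → ∀ a ∈ N', χ m a = 1) :
    ∃ m, N' ≤ Qn m ⊔ commutator Q := by
  by_contra hcon
  push Not at hcon
  have h1 : ∀ m, ∃ a ∈ N', a ∉ Qn m ⊔ commutator Q := fun m => SetLike.not_le_iff_exists.mp (hcon m)
  choose a ha haK using h1
  have h2 : ∀ m, ∃ x : Q →* Circle, (∀ b ∈ Qn m ⊔ commutator Q, x b = 1) ∧ x (a m) ≠ 1 :=
    fun m => exists_char_of_quotient (Qn m ⊔ commutator Q) le_sup_right (a m) (haK m)
  choose χ hχ hχa using h2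
  obtain ⟨m₀, hm₀⟩ := h χ (fun q => by
    obtain ⟨m₀, hq⟩ := hun q
    exact ⟨m₀, fun m hm => hχ m q (le_sup_left (a := Qn m) (hmono hm hq))⟩)
  exact hχa m₀ (hm₀ m₀ le_rfl (a m₀) (ha m₀))

end Pool.Agent.LibCS44
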