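import Pool.Agent.LibCS44.FinA1
set_option autoImplicit false
namespace Pool.Agent.LibCS44
open scoped commutatorElement

/-- commutators of `D ⊔ C` for a normal subgroup `C` -/
private theorem FinA2_comm {G : Type} [Group G] (D C : Subgroup G) [C.Normal] :
    ⁅D ⊔ C, D ⊔ C⁆ ≤ ⁅D, D⁆ ⊔ C := by
  have h1 : (D ⊔ C).map (QuotientGroup.mk' C) = D.map (QuotientGroup.mk' C) := by
    rw [Subgroup.map_sup]
    refine sup_eq_left.2 ?_
    rintro _ ⟨x, hx, rfl⟩
    have h2 : QuotientGroup.mk' C x = 1 := by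
      rw [← MonoidHom.mem_ker, QuotientGroup.ker_mk']
      exact hx
    rw [h2]
    exact Subgroup.one_mem _
  have h2 : (⁅D ⊔ C, D ⊔ C⁆).map (QuotientGroup.mk' C) = (⁅D, D⁆).map (QuotientGroup.mk' C) := by
    rw [Subgroup.map_commutator, Subgroup.map_commutator, h1]
  have h3 := Subgroup.le_comap_map (QuotientGroup.mk' C) ⁅D ⊔ C, D ⊔ C⁆
  rw [h2, Subgroup.comap_map_eq, QuotientGroup.ker_mk'] at h3
  exact h3

/-- Let `D i = (derivedSeries N i).map N.subtype` (normal in `G`, `⁅D i, D i⁆ = D (i + 1)`).  By induction on `i` there is `B i`, normal in `G`, of finite index in `N`, with `B i ≤ D i ⊔ C` for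
all `C` normal in `G` of finite index in `N`: let `B (i+1)` be given by `exists_next (B i)`; for `C` let `C' = B i ⊓ (D (i+1) ⊔ C)`; then
`⁅B i, B i⁆ ≤ ⁅D i ⊔ C, D i ⊔ C⁆ ≤ D (i+1) ⊔ C`, so `B (i+1) ≤ C'`.  For `D i = ⊥` we get `B i ≤ C` for all `C`. -/
theorem exists_minimal {G : Type} [Group G] (N : Subgroup G) [N.Normal]
    (hNs : Group.IsSolvable N)
    (hFin : ∀ B : Subgroup G, (_ : B.Normal) → B ≤ N → B.relIndex N ≠ 0 →
      {x : B →* Circle | (Set.range fun g : G => cc g x).Finite}.Finite) :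
    ∃ B : Subgroup G, B.Normal ∧ B ≤ N ∧ B.relIndex N ≠ 0 ∧
      ∀ C : Subgroup G, C.Normal → C ≤ B → C.relIndex N ≠ 0 → C = B := by
  have hDn : ∀ i : ℕ, ((derivedSeries N i).map N.subtype).Normal := fun i => inferInstance
  have key : ∀ i : ℕ, ∃ B : Subgroup G, B.Normal ∧ B ≤ N ∧ B.relIndex N ≠ 0 ∧
      ∀ C : Subgroup G, C.Normal → C ≤ N → C.relIndex N ≠ 0 →
        B ≤ (derivedSeries N i).map N.subtype ⊔ C := by
    intro i
    induction i with
    | zero =>
      refine ⟨N, inferInstance, le_rfl, ?_, fun C _ _ _ => ?_⟩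
      · rw [Subgroup.relIndex_self]
        exact one_ne_zero
      · rw [derivedSeries_zero, ← MonoidHom.range_eq_map, Subgroup.range_subtype]
        exact le_sup_left
    | succ i ih =>
      obtain ⟨B, hBn, hBN, hBi, hB⟩ := ih
      obtain ⟨B', hB'n, hB'B, hB'i, hB'⟩ := exists_next B (hFin B hBn hBN hBi)
      refine ⟨B', hB'n, hB'B.trans hBN, Subgroup.relIndex_ne_zero_trans hB'i hBi, ?_⟩
      intro C hC hCN hCi
      have hX : ((derivedSeries N (i + 1)).map N.subtype ⊔ C).Normal := Subgroup.sup_normal _ _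
      have h1 : (B ⊓ ((derivedSeries N (i + 1)).map N.subtype ⊔ C)).Normal :=
        Subgroup.normal_inf_normal _ _
      have h2 : (B ⊓ ((derivedSeries N (i + 1)).map N.subtype ⊔ C)).relIndex B ≠ 0 := by
        rw [Subgroup.inf_relIndex_left]
        intro h0
        have h3 := Subgroup.relIndex_eq_zero_of_le_right hBN h0
        exact hCi (Subgroup.relIndex_eq_zero_of_le_left le_sup_right h3)
      have h3 : ⁅B, B⁆ ≤ B ⊓ ((derivedSeries N (i + 1)).map N.subtype ⊔ C) := by
        refine le_inf (Subgroup.commutator_le_left B B) ?_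
        have h4 := Subgroup.commutator_mono (hB C hC hCN hCi) (hB C hC hCN hCi)
        have h5 := FinA2_comm ((derivedSeries N i).map N.subtype) C
        rw [← Subgroup.map_commutator, ← derivedSeries_succ] at h5
        exact h4.trans h5
      exact (hB' _ h1 inf_le_left h2 h3).trans inf_le_right
  obtain ⟨n, hn⟩ := hNs.solvable
  obtain ⟨B, hBn, hBN, hBi, hB⟩ := key n
  refine ⟨B, hBn, hBN, hBi, fun C hC hCB hCi => ?_⟩
  have h1 := hB C hC (hCB.trans hBN) hCi
  rw [hn, Subgroup.map_bot, bot_sup_eq] at h1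
  exact le_antisymm hCB h1

end Pool.Agent.LibCS44
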