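import Pool.Agent.LibCS44.Base
import Pool.Agent.LibCS44.CharB
set_option autoImplicit false
namespace Pool.Agent.LibCS44
open scoped commutatorElement

/-- characters with a finite range and a finite orbit -/
private def FinA1_X {G : Type} [Group G] (B : Subgroup G) [B.Normal] : Set (B →* Circle) :=
  {x | (Set.range fun g : G => cc g x).Finite ∧ (Set.range x).Finite}

private theorem FinA1_cc {G : Type} [Group G] {B : Subgroup G} [B.Normal] (g : G)
    {x : B →* Circle} (hx : x ∈ FinA1_X B) : cc g x ∈ FinA1_X B := by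
  refine ⟨hx.1.subset ?_, hx.2.subset ?_⟩
  · rintro _ ⟨h, rfl⟩
    exact ⟨g * h, cc_mul g h x⟩
  · rintro _ ⟨a, rfl⟩
    rw [cc_apply]
    exact ⟨_, rfl⟩

private theorem FinA1_fin {B : Type} [Group B] (K : Subgroup B) (hK : K.index ≠ 0)
    (R : Set Circle) (hR : R.Finite) :
    {y : B →* Circle | (∀ b ∈ K, y b = 1) ∧ ∀ b, y b ∈ R}.Finite := by
  have hfi : K.FiniteIndex := ⟨hK⟩
  have hfin : Finite (B ⧸ K) := Subgroup.finite_quotient_of_finiteIndex
  let f : (B →* Circle) → (B ⧸ K → Circle) := fun y q => y q.out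
  refine Set.Finite.of_finite_image (f := f) ?_ ?_
  · refine (Set.Finite.pi' (t := fun _ : B ⧸ K => R) (fun _ => hR)).subset ?_
    rintro _ ⟨y, hy, rfl⟩ q
    exact hy.2 _
  · intro y hy z hz hyz
    ext b
    have h1 : f y (QuotientGroup.mk b) = f z (QuotientGroup.mk b) := congrFun hyz _
    obtain ⟨k, hk⟩ := QuotientGroup.mk_out_eq_mul K b
    have h2 : f y (QuotientGroup.mk b) = y b := by
      change y (QuotientGroup.mk b : B ⧸ K).out = y b
      rw [hk, map_mul, hy.1 _ k.2, mul_one]
    have h3 : f z (QuotientGroup.mk b) = z b := by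
      change z (QuotientGroup.mk b : B ⧸ K).out = z b
      rw [hk, map_mul, hz.1 _ k.2, mul_one]
    rw [← h2, ← h3, h1]

/-- `B' = {g ∈ B | x g = 1 for all the characters x of B with finite range and with finite G-orbit}`.  It is normal in `G` (conjugates `cc g x` have the same properties), and
has finite index in `B` as an intersection of finitely many kernels of finite index.  Let `C` be as in the statement and `b ∈ B'`, `b ∉ C`; by `exists_char_of_quotient` there is a character `x` of `B`, trivial on `C` with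
`x b ≠ 1`; its range is finite since `C` has finite index in `B`, and its orbit is finite because the `cc g x` are characters of the finite group `B / C`: contradiction. -/
theorem exists_next {G : Type} [Group G] (B : Subgroup G) [B.Normal]
    (hFin : {x : B →* Circle | (Set.range fun g : G => cc g x).Finite}.Finite) :
    ∃ B' : Subgroup G, B'.Normal ∧ B' ≤ B ∧ B'.relIndex B ≠ 0 ∧
      ∀ C : Subgroup G, C.Normal → C ≤ B → C.relIndex B ≠ 0 → ⁅B, B⁆ ≤ C → B' ≤ C := by
  have hXfin : (FinA1_X B).Finite := hFin.subset fun x hx => hx.1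
  have : Finite (FinA1_X B) := hXfin
  let K : Subgroup B := ⨅ x : FinA1_X B, (x : B →* Circle).ker
  have hK : ∀ b : B, b ∈ K ↔ ∀ x ∈ FinA1_X B, x b = 1 := by
    intro b
    simp only [K, Subgroup.mem_iInf, MonoidHom.mem_ker, Subtype.forall]
  refine ⟨K.map B.subtype, ?_, Subgroup.map_subtype_le K, ?_, ?_⟩
  · refine ⟨fun n hn g => ?_⟩
    obtain ⟨b, hb, rfl⟩ := hn
    have hmem : g * b * g⁻¹ ∈ B := (inferInstance : B.Normal).conj_mem b b.2 g
    refine ⟨⟨g * b * g⁻¹, hmem⟩, ?_, rfl⟩
    rw [SetLike.mem_coe, hK] at hb ⊢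
    intro x hx
    have h1 := hb _ (FinA1_cc g hx)
    rw [cc_apply] at h1
    exact h1
  · have h1 : (K.map B.subtype).subgroupOf B = K :=
      Subgroup.comap_map_eq_self_of_injective B.subtype_injective K
    rw [Subgroup.relIndex, h1]
    have h2 : K.FiniteIndex := by
      refine Subgroup.finiteIndex_iInf fun x => ⟨?_⟩
      rw [Subgroup.index_ker]
      have h3 : Finite (x : B →* Circle).range := x.2.2
      exact Nat.card_pos.ne'
    exact h2.index_ne_zero
  · intro C hC hCB hCi hBC c hc
    obtain ⟨b, hb, rfl⟩ := hc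
    by_contra hbC
    have hcomm : commutator B ≤ C.subgroupOf B := by
      have h1 : (commutator B).map B.subtype ≤ C := by
        rw [Subgroup.map_subtype_commutator]
        exact hBC
      exact Subgroup.map_le_iff_le_comap.1 h1
    obtain ⟨x, hx1, hx2⟩ := exists_char_of_quotient (C.subgroupOf B) hcomm b
      (fun h => hbC (Subgroup.mem_subgroupOf.1 h))
    have hrange : (Set.range x).Finite := by
      have h1 : C.subgroupOf B ≤ x.ker := fun b hb => MonoidHom.mem_ker.2 (hx1 b hb)
      have h2 : (C.subgroupOf B).FiniteIndex := ⟨hCi⟩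
      have h3 : x.ker.FiniteIndex := Subgroup.finiteIndex_of_le h1
      have h4 : Nat.card x.range ≠ 0 := by
        rw [← Subgroup.index_ker]
        exact h3.index_ne_zero
      have h5 : Finite x.range := Nat.finite_of_card_ne_zero h4
      exact h5
    have horb : (Set.range fun g : G => cc g x).Finite := by
      refine (FinA1_fin (C.subgroupOf B) hCi (Set.range x) hrange).subset ?_
      rintro _ ⟨g, rfl⟩
      refine ⟨fun a ha => ?_, fun a => ?_⟩
      · rw [cc_apply]
        exact hx1 _ (Subgroup.mem_subgroupOf.2 (hC.conj_mem _ (Subgroup.mem_subgroupOf.1 ha) g))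
      · rw [cc_apply]
        exact ⟨_, rfl⟩
    exact hx2 ((hK b).1 hb x ⟨horb, hrange⟩)

end Pool.Agent.LibCS44
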