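import Pool.Agent.LibCS44.PigeonA
import Pool.Agent.LibCS44.CellsC
set_option autoImplicit false
namespace Pool.Agent.LibCS44

private lemma PigeonB_zmod (L : ℕ) [NeZero L] (f : ℕ → ℂ) :
    ∑ k : ZMod L, f (ZMod.val k) = ∑ k : Fin L, f (k : ℕ) := by
  cases L with
  | zero => exact absurd rfl (NeZero.ne 0)
  | succ l => rfl

private lemma PigeonB_ite (r m : ℕ) (hm : m ≤ r) (X Y : ℂ) :
    ∑ i : Fin r, (if (i : ℕ) < m then X else Y) = m * X + ((r - m : ℕ) : ℂ) * Y := by
  rw [Fin.sum_univ_eq_sum_range (fun i => if i < m then X else Y) r]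
  obtain ⟨s, rfl⟩ := Nat.exists_eq_add_of_le hm
  rw [Finset.sum_range_add]
  have h1 : ∑ i ∈ Finset.range m, (if i < m then X else Y) = m * X := by
    rw [Finset.sum_congr rfl fun i hi => if_pos (Finset.mem_range.1 hi)]
    simp
  have h2 : ∑ i ∈ Finset.range s, (if m + i < m then X else Y) = ((m + s - m : ℕ) : ℂ) * Y := by
    rw [Finset.sum_congr rfl fun i hi => if_neg (by omega)]
    simp
  rw [h1, h2]

/-- the characters of the stage -/
private noncomputable def PigeonB_y {N : Type} [Group N] {d : ℕ} (r : ℕ) (x : Fin d → N →* Circle)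
    (m : Fin d → Fin (r + 1)) (p : Fin d × Fin r) : N →* Circle :=
  if (p.2 : ℕ) < m p.1 then x p.1 else 1

private lemma PigeonB_sum {N : Type} [Group N] (τ : N ≃* N) (d L : ℕ) [NeZero L] (r : ℕ)
    (x : Fin d → N →* Circle) (m : Fin d → Fin (r + 1)) (a : N) :
    ∑ i : (Fin d × Fin r) × ZMod L, (zdat τ L (PigeonB_y r x m) i a : ℂ) =
      ∑ j, (((m j : ℕ)) : ℂ) * ∑ k : Fin L, (x j ((τ ^ (k : ℕ) : MulAut N) a) : ℂ) +
        ∑ j, ((r - (m j : ℕ) : ℕ) : ℂ) * L := by
  rw [Fintype.sum_prod_type, Fintype.sum_prod_type, ← Finset.sum_add_distrib]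
  refine Finset.sum_congr rfl fun j _ => ?_
  rw [← PigeonB_ite r (m j) (Nat.lt_succ_iff.1 (m j).2)]
  refine Finset.sum_congr rfl fun i _ => ?_
  have h1 : ∑ k : ZMod L, (zdat τ L (PigeonB_y r x m) ((j, i), k) a : ℂ) =
      ∑ k : Fin L, (PigeonB_y r x m (j, i) ((τ ^ (k : ℕ) : MulAut N) a) : ℂ) :=
    PigeonB_zmod L fun k => (PigeonB_y r x m (j, i) ((τ ^ k : MulAut N) a) : ℂ)
  rw [h1]
  by_cases h : (i : ℕ) < m j
  · rw [if_pos h]
    refine Finset.sum_congr rfl fun k _ => ?_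
    unfold PigeonB_y
    rw [if_pos h]
  · rw [if_neg h]
    have h2 : ∀ k : Fin L, (PigeonB_y r x m (j, i) ((τ ^ (k : ℕ) : MulAut N) a) : ℂ) = 1 := by
      intro k
      unfold PigeonB_y
      rw [if_neg h]
      simp
    rw [Finset.sum_congr rfl fun k _ => h2 k]
    simp

/-- Pigeonhole.  Take `r` from `exists_pigeon` with `c = card C * card C`, `A = Fin d × Fin r`, for `m : Fin d → Fin (r + 1)` let
`y m (j, i) = if i < m j then x j else 1` and `z m = zdat τ L (y m)`.  The number of the `m` is `(r + 1) ^ d`, greater than the number `(d * r * L + 1) ^ c` of the functions `C × C → {0, ..., card (A × ZMod L)}`,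
so two different `m, m'` have the same transition numbers.  The sum of the characters is `∑ j, m j ∑ k < L, x j (τ ^ k a) + (d r - ∑ m j) L`.  (`r > 0` because of
the inequality, so the index set is not empty.) -/
theorem exists_stage {N : Type} [Group N] (τ : N ≃* N) {C : Type} [Fintype C] [DecidableEq C]
    (cell : (N →* Circle) → C) (d L : ℕ) [NeZero L] (hd : Fintype.card C * Fintype.card C < d)
    (x : Fin d → N →* Circle) (hx : ∀ j a, x j ((τ ^ L : MulAut N) a) = x j a) :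
    ∃ (I : Type) (_ : Fintype I) (_ : DecidableEq I) (_ : Nonempty I) (σ : Equiv.Perm I)
      (z z' : I → N →* Circle) (m m' : Fin d → ℕ) (c c' : ℂ), m ≠ m' ∧
      (∀ i a, z (σ i) (τ a) = z i a) ∧ (∀ i a, z' (σ i) (τ a) = z' i a) ∧
      (∀ c c', (Finset.univ.filter fun i => cell (z i) = c ∧ cell (z (σ i)) = c').card =
        (Finset.univ.filter fun i => cell (z' i) = c ∧ cell (z' (σ i)) = c').card) ∧
      (∀ a, ∑ i, (z i a : ℂ) =
        ∑ j, (m j : ℂ) * ∑ k : Fin L, (x j ((τ ^ (k : ℕ) : MulAut N) a) : ℂ) + c) ∧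
      (∀ a, ∑ i, (z' i a : ℂ) =
        ∑ j, (m' j : ℂ) * ∑ k : Fin L, (x j ((τ ^ (k : ℕ) : MulAut N) a) : ℂ) + c') := by
  obtain ⟨r, hr⟩ := exists_pigeon (Fintype.card C * Fintype.card C) L d hd
  have hr0 : 0 < r := by
    rcases Nat.eq_zero_or_pos r with rfl | h
    · simp at hr
    · exact h
  have hd0 : 0 < d := lt_of_le_of_lt (Nat.zero_le _) hd
  let T : (Fin d → Fin (r + 1)) → (C × C → Fin (Fintype.card ((Fin d × Fin r) × ZMod L) + 1)) :=
    fun m c => ⟨(Finset.univ.filter fun i => cell (zdat τ L (PigeonB_y r x m) i) = c.1 ∧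
      cell (zdat τ L (PigeonB_y r x m) (shiftP (Fin d × Fin r) L i)) = c.2).card,
      Nat.lt_succ_iff.2 (Finset.card_le_univ _)⟩
  have hcard : Fintype.card (C × C → Fin (Fintype.card ((Fin d × Fin r) × ZMod L) + 1)) <
      Fintype.card (Fin d → Fin (r + 1)) := by
    rw [Fintype.card_fun, Fintype.card_fun, Fintype.card_fin, Fintype.card_fin, Fintype.card_fin,
      Fintype.card_prod, Fintype.card_prod, Fintype.card_prod, Fintype.card_fin, Fintype.card_fin,
      ZMod.card]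
    exact hr
  obtain ⟨m, m', hne, hT⟩ := Fintype.exists_ne_map_eq_of_card_lt T hcard
  have hy : ∀ (m : Fin d → Fin (r + 1)) p a,
      PigeonB_y r x m p ((τ ^ L : MulAut N) a) = PigeonB_y r x m p a := by
    intro m p a
    unfold PigeonB_y
    split_ifs
    · exact hx _ _
    · rfl
  refine ⟨(Fin d × Fin r) × ZMod L, inferInstance, inferInstance, ⟨((⟨0, hd0⟩, ⟨0, hr0⟩), 0)⟩,
    shiftP (Fin d × Fin r) L, zdat τ L (PigeonB_y r x m), zdat τ L (PigeonB_y r x m'),
    fun j => m j, fun j => m' j, ∑ j, ((r - (m j : ℕ) : ℕ) : ℂ) * L,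
    ∑ j, ((r - (m' j : ℕ) : ℕ) : ℂ) * L, ?_, ?_, ?_, ?_, ?_, ?_⟩
  · intro h
    exact hne (funext fun j => Fin.ext (congrFun h j))
  · exact fun i a => zdat_shift τ L _ (hy m) i a
  · exact fun i a => zdat_shift τ L _ (hy m') i a
  · intro c c'
    exact congrArg Fin.val (congrFun hT (c, c'))
  · exact fun a => PigeonB_sum τ d L r x m a
  · exact fun a => PigeonB_sum τ d L r x m' a

end Pool.Agent.LibCS44
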