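import Mathlib
set_option autoImplicit false
namespace Pool.Agent.LibCS44
open scoped Matrix.Norms.L2Operator

variable {I : Type} [Fintype I] [DecidableEq I]

omit [Fintype I] [DecidableEq I] in
private theorem vb1 (σ : Equiv.Perm I) (x : I) : σ⁻¹ (σ x) = x := σ.symm_apply_apply x

omit [Fintype I] [DecidableEq I] in
private theorem vb2 (σ : Equiv.Perm I) (x : I) : σ (σ⁻¹ x) = x := σ.apply_symm_apply x

/-- the permutation matrix `e j ↦ e (σ j)` -/
noncomputable def pm (σ : Equiv.Perm I) : Matrix I I ℂ :=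
  Matrix.of fun i j => if i = σ j then 1 else 0

theorem pm_one : pm (1 : Equiv.Perm I) = 1 := by
  ext i j
  simp [pm, Matrix.one_apply]

theorem pm_mul (σ τ : Equiv.Perm I) : pm (σ * τ) = pm σ * pm τ := by
  ext i j
  simp only [pm, Matrix.mul_apply, Matrix.of_apply, Equiv.Perm.mul_apply]
  rw [Finset.sum_eq_single (τ j)]
  · simp
  · intro k _ hk
    rw [if_neg hk, mul_zero]
  · intro h
    exact absurd (Finset.mem_univ _) h

theorem star_pm (σ : Equiv.Perm I) : star (pm σ) = pm σ⁻¹ := by
  ext i j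
  simp only [pm, Matrix.star_apply, Matrix.of_apply]
  by_cases h : j = σ i
  · rw [if_pos h, if_pos (by rw [h, vb1]), star_one]
  · rw [if_neg h, if_neg (fun h' => h (by rw [h', vb2])), star_zero]

/-- the permutation matrices as unitaries -/
noncomputable def pmU : Equiv.Perm I →* unitary (Matrix I I ℂ) where
  toFun σ := ⟨pm σ, by
    rw [Unitary.mem_iff, star_pm, ← pm_mul, ← pm_mul, inv_mul_cancel, mul_inv_cancel, pm_one]
    exact ⟨rfl, rfl⟩⟩
  map_one' := Subtype.ext pm_one
  map_mul' σ τ := Subtype.ext (pm_mul σ τ)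

theorem pm_diagonal (σ : Equiv.Perm I) (w : I → ℂ) :
    pm σ * Matrix.diagonal w * star (pm σ) = Matrix.diagonal (fun i => w (σ⁻¹ i)) := by
  rw [star_pm]
  ext i j
  rw [Matrix.mul_apply, Finset.sum_eq_single (σ⁻¹ i)]
  · rw [Matrix.mul_diagonal]
    simp only [pm, Matrix.of_apply, vb2, if_true, one_mul,
      Matrix.diagonal_apply]
    by_cases h : i = j
    · subst h
      simp
    · rw [if_neg (fun h' => h (σ⁻¹.injective h')), if_neg h, mul_zero]
  · intro k _ hk
    rw [Matrix.mul_diagonal]
    simp only [pm, Matrix.of_apply]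
    rw [if_neg (fun h => hk (by rw [h, vb1])), zero_mul, zero_mul]
  · intro h
    exact absurd (Finset.mem_univ _) h

end Pool.Agent.LibCS44
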