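import Pool.Agent.LibCS44.StageA
import Pool.Agent.LibCS44.VpathB
set_option autoImplicit false
namespace Pool.Agent.LibCS44
open scoped Matrix.Norms.L2Operator

/-- The covariance estimate.  `T s = V s * pm σ`.  For fixed `s`, `pm σ * (upath z z' a s) * star (pm σ) = diag (w (σ⁻¹ i))` with `‖w (σ⁻¹ i) - z (σ⁻¹ i) a‖ ≤ ε` and
`z (σ⁻¹ i) a = z i (τ a)`; choose for each cell `c` with `cell (z i) = c` for some `i` such an `i = i c` and let `ζ c = z (i c) (τ a)`: then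
`‖z i (τ a) - ζ (cell (z i))‖ ≤ ε`, and `V s` commutes with `diag (ζ (cell (z i)))`.  So both `T s * upath a s * star (T s)` and `upath (τ a) s` are within `2 ε` of
this diagonal matrix.  (`Matrix.l2_opNorm_diagonal`) -/
theorem norm_cov_le {N : Type} [Group N] (τ : N ≃* N) {I : Type} [Fintype I] [DecidableEq I]
    {C : Type} (cell : (N →* Circle) → C) (z z' : I → N →* Circle) (σ : Equiv.Perm I)
    (hz : ∀ i a, z (σ i) (τ a) = z i a) (hzz' : ∀ i, cell (z' i) = cell (z i)) {ε : ℝ}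
    (hε : 0 ≤ ε) (a : N)
    (ha : ∀ x y, cell x = cell y → ‖(x a : ℂ) - (y a : ℂ)‖ ≤ ε)
    (hτa : ∀ x y, cell x = cell y → ‖(x (τ a) : ℂ) - (y (τ a) : ℂ)‖ ≤ ε)
    (V : unitary C(unitInterval, Matrix I I ℂ))
    (hV : ∀ (s : unitInterval) (w : C → ℂ),
        Commute ((V : C(unitInterval, Matrix I I ℂ)) s) (Matrix.diagonal fun i => w (cell (z i))))
    (T : unitary C(unitInterval, Matrix I I ℂ))
    (hT : ∀ s, (T : C(unitInterval, Matrix I I ℂ)) s =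
      (V : C(unitInterval, Matrix I I ℂ)) s * pm σ) :
    ‖upath z z' (τ a) - (T : C(unitInterval, Matrix I I ℂ)) * upath z z' a *
      star (T : C(unitInterval, Matrix I I ℂ))‖ ≤ 4 * ε := by
  classical
  rw [ContinuousMap.norm_le _ (by positivity)]
  intro s
  have hV1 : star ((V : C(unitInterval, Matrix I I ℂ)) s) * (V : C(unitInterval, Matrix I I ℂ)) s
      = 1 := by
    have h := congrArg (fun f : C(unitInterval, Matrix I I ℂ) => f s) (Unitary.coe_star_mul_self V)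
    exact h
  have hV2 : (V : C(unitInterval, Matrix I I ℂ)) s * star ((V : C(unitInterval, Matrix I I ℂ)) s)
      = 1 := by
    have h := congrArg (fun f : C(unitInterval, Matrix I I ℂ) => f s) (Unitary.coe_mul_star_self V)
    exact h
  set Vs := (V : C(unitInterval, Matrix I I ℂ)) s with hVs
  set VU : unitary (Matrix I I ℂ) := ⟨Vs, by rw [Unitary.mem_iff]; exact ⟨hV1, hV2⟩⟩ with hVU
  have hVUc : (VU : Matrix I I ℂ) = Vs := rfl
  -- the representatives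
  set ζ : C → ℂ := fun c => if h : ∃ i, cell (z i) = c then (z h.choose (τ a) : ℂ) else 0 with hζ
  have hζ1 : ∀ i, ‖(z i (τ a) : ℂ) - ζ (cell (z i))‖ ≤ ε := by
    intro i
    have h : ∃ i', cell (z i') = cell (z i) := ⟨i, rfl⟩
    have e : ζ (cell (z i)) = (z h.choose (τ a) : ℂ) := by
      simp only [hζ]
      rw [dif_pos h]
    rw [e]
    exact hτa _ _ h.choose_spec.symm
  set Δ : Matrix I I ℂ := Matrix.diagonal fun i => ζ (cell (z i)) with hΔ
  have hcomm := hV s ζ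
  have hconj : Vs * Δ * star Vs = Δ := by
    have h1 : Vs * Δ = Δ * Vs := hcomm
    rw [h1, mul_assoc, hV2, mul_one]
  -- the convex combination
  have hs0 : (0:ℝ) ≤ (s : ℝ) := s.2.1
  have hs1 : (s : ℝ) ≤ 1 := s.2.2
  have hconv : ∀ (p q : ℂ), ‖p - q‖ ≤ ε →
      ‖((1 - (s : ℝ) : ℂ) * p + ((s : ℝ) : ℂ) * q) - p‖ ≤ ε := by
    intro p q hpq
    have e : ((1 - (s : ℝ) : ℂ) * p + ((s : ℝ) : ℂ) * q) - p = ((s : ℝ) : ℂ) * (q - p) := by ring
    rw [e, norm_mul, Complex.norm_real, Real.norm_eq_abs, abs_of_nonneg hs0, norm_sub_rev]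
    calc (s : ℝ) * ‖p - q‖ ≤ 1 * ‖p - q‖ := by gcongr
      _ ≤ ε := by rw [one_mul]; exact hpq
  have h1 : ‖upath z z' (τ a) s - Δ‖ ≤ 2 * ε := by
    have e : upath z z' (τ a) s - Δ = Matrix.diagonal fun i =>
        ((1 - (s : ℝ) : ℂ) * (z i (τ a) : ℂ) + ((s : ℝ) : ℂ) * (z' i (τ a) : ℂ)) -
          ζ (cell (z i)) := by
      change Matrix.diagonal (fun i => (1 - (s : ℝ) : ℂ) * (z i (τ a) : ℂ) +
        ((s : ℝ) : ℂ) * (z' i (τ a) : ℂ)) - Matrix.diagonal (fun i => ζ (cell (z i))) = _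
      rw [Matrix.diagonal_sub]
    rw [e, Matrix.l2_opNorm_diagonal, pi_norm_le_iff_of_nonneg (by positivity)]
    intro i
    have c1 := hconv (z i (τ a) : ℂ) (z' i (τ a) : ℂ) (hτa _ _ (hzz' i).symm)
    have c2 := hζ1 i
    calc ‖((1 - (s : ℝ) : ℂ) * (z i (τ a) : ℂ) + ((s : ℝ) : ℂ) * (z' i (τ a) : ℂ)) -
          ζ (cell (z i))‖
        = ‖(((1 - (s : ℝ) : ℂ) * (z i (τ a) : ℂ) + ((s : ℝ) : ℂ) * (z' i (τ a) : ℂ)) -
          (z i (τ a) : ℂ)) + ((z i (τ a) : ℂ) - ζ (cell (z i)))‖ := by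
          congr 1
          ring
      _ ≤ ε + ε := (norm_add_le _ _).trans (add_le_add c1 c2)
      _ = 2 * ε := by ring
  have h2 : ‖(T : C(unitInterval, Matrix I I ℂ)) s * upath z z' a s *
      star ((T : C(unitInterval, Matrix I I ℂ)) s) - Δ‖ ≤ 2 * ε := by
    have e1 : (T : C(unitInterval, Matrix I I ℂ)) s * upath z z' a s *
        star ((T : C(unitInterval, Matrix I I ℂ)) s) =
        Vs * (Matrix.diagonal fun i => ((1 - (s : ℝ) : ℂ) * (z (σ⁻¹ i) a : ℂ) +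
          ((s : ℝ) : ℂ) * (z' (σ⁻¹ i) a : ℂ))) * star Vs := by
      rw [hT, star_mul]
      have e2 : upath z z' a s = Matrix.diagonal (fun i => (1 - (s : ℝ) : ℂ) * (z i a : ℂ) +
        ((s : ℝ) : ℂ) * (z' i a : ℂ)) := rfl
      rw [e2]
      have e3 := pm_diagonal σ (fun i => (1 - (s : ℝ) : ℂ) * (z i a : ℂ) +
        ((s : ℝ) : ℂ) * (z' i a : ℂ))
      calc Vs * pm σ * (Matrix.diagonal fun i => (1 - (s : ℝ) : ℂ) * (z i a : ℂ) +
            ((s : ℝ) : ℂ) * (z' i a : ℂ)) * (star (pm σ) * star Vs)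
          = Vs * (pm σ * (Matrix.diagonal fun i => (1 - (s : ℝ) : ℂ) * (z i a : ℂ) +
            ((s : ℝ) : ℂ) * (z' i a : ℂ)) * star (pm σ)) * star Vs := by
            simp only [mul_assoc]
        _ = _ := by rw [e3]
    have e4 : Vs * (Matrix.diagonal fun i => ((1 - (s : ℝ) : ℂ) * (z (σ⁻¹ i) a : ℂ) +
          ((s : ℝ) : ℂ) * (z' (σ⁻¹ i) a : ℂ))) * star Vs - Δ =
        (VU : Matrix I I ℂ) * (Matrix.diagonal fun i => (((1 - (s : ℝ) : ℂ) * (z (σ⁻¹ i) a : ℂ) +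
          ((s : ℝ) : ℂ) * (z' (σ⁻¹ i) a : ℂ)) - ζ (cell (z i)))) *
          ((star VU : unitary (Matrix I I ℂ)) : Matrix I I ℂ) := by
      have e5 : ((star VU : unitary (Matrix I I ℂ)) : Matrix I I ℂ) = star Vs := rfl
      rw [e5, hVUc]
      have e6 : (Matrix.diagonal fun i => (((1 - (s : ℝ) : ℂ) * (z (σ⁻¹ i) a : ℂ) +
          ((s : ℝ) : ℂ) * (z' (σ⁻¹ i) a : ℂ)) - ζ (cell (z i)))) =
          (Matrix.diagonal fun i => ((1 - (s : ℝ) : ℂ) * (z (σ⁻¹ i) a : ℂ) +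
          ((s : ℝ) : ℂ) * (z' (σ⁻¹ i) a : ℂ))) - Δ := by
        rw [hΔ, Matrix.diagonal_sub]
      rw [e6, mul_sub, sub_mul, hconj]
    rw [e1, e4, CStarRing.norm_mul_coe_unitary, CStarRing.norm_coe_unitary_mul,
      Matrix.l2_opNorm_diagonal, pi_norm_le_iff_of_nonneg (by positivity)]
    intro i
    have hzi : (z (σ⁻¹ i) a : ℂ) = (z i (τ a) : ℂ) := by
      have h := hz (σ⁻¹ i) a
      have e8 : σ (σ⁻¹ i) = i := σ.apply_symm_apply i
      rw [e8] at h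
      rw [h]
    have c1 := hconv (z (σ⁻¹ i) a : ℂ) (z' (σ⁻¹ i) a : ℂ) (ha _ _ (hzz' _).symm)
    have c2 := hζ1 i
    calc ‖((1 - (s : ℝ) : ℂ) * (z (σ⁻¹ i) a : ℂ) + ((s : ℝ) : ℂ) * (z' (σ⁻¹ i) a : ℂ)) -
          ζ (cell (z i))‖
        = ‖(((1 - (s : ℝ) : ℂ) * (z (σ⁻¹ i) a : ℂ) + ((s : ℝ) : ℂ) * (z' (σ⁻¹ i) a : ℂ)) -
          (z (σ⁻¹ i) a : ℂ)) + ((z i (τ a) : ℂ) - ζ (cell (z i)))‖ := by
          rw [← hzi]
          congr 1
          ring
      _ ≤ ε + ε := (norm_add_le _ _).trans (add_le_add c1 c2)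
      _ = 2 * ε := by ring
  change ‖upath z z' (τ a) s - (T : C(unitInterval, Matrix I I ℂ)) s * upath z z' a s *
      star ((T : C(unitInterval, Matrix I I ℂ)) s)‖ ≤ 4 * ε
  have e7 : upath z z' (τ a) s - (T : C(unitInterval, Matrix I I ℂ)) s * upath z z' a s *
      star ((T : C(unitInterval, Matrix I I ℂ)) s) = (upath z z' (τ a) s - Δ) -
      ((T : C(unitInterval, Matrix I I ℂ)) s * upath z z' a s *
      star ((T : C(unitInterval, Matrix I I ℂ)) s) - Δ) := by abel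
  rw [e7]
  refine (norm_sub_le _ _).trans ?_
  linarith

end Pool.Agent.LibCS44
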