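import Pool.Agent.LibCS44.VpathA
import Pool.Agent.LibCS44.VpathB
set_option autoImplicit false
namespace Pool.Agent.LibCS44
open scoped Matrix.Norms.L2Operator

variable {I : Type} [Fintype I] [DecidableEq I]

/-- `exists_path_of_pow` for `W = pmU κ`, `n = orderOf κ` -/
theorem exists_vpath {C : Type} (κ : Equiv.Perm I) (f : I → C) (hκ : ∀ i, f (κ i) = f i) :
    ∃ V : unitary C(unitInterval, Matrix I I ℂ), (V : C(unitInterval, Matrix I I ℂ)) 0 = 1 ∧
      (V : C(unitInterval, Matrix I I ℂ)) 1 = pm κ ∧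
      ∀ (s : unitInterval) (w : C → ℂ),
        Commute ((V : C(unitInterval, Matrix I I ℂ)) s) (Matrix.diagonal fun i => w (f i)) := by
  obtain ⟨V, h0, h1, h2⟩ := exists_path_of_pow (D := Matrix I I ℂ) (pmU κ) (orderOf_pos κ)
    (by rw [← map_pow, pow_orderOf_eq_one, map_one])
  refine ⟨V, h0, h1, fun s w => h2 s _ ?_⟩
  have h3 := pm_diagonal κ (fun i => w (f i))
  have h4 : (fun i => w (f (κ⁻¹ i))) = fun i => w (f i) := by
    funext i
    have h5 := hκ (κ⁻¹ i)
    rw [show κ (κ⁻¹ i) = i from κ.apply_symm_apply i] at h5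
    rw [h5]
  rw [h4] at h3
  have h6 : star (pm κ) * pm κ = (1 : Matrix I I ℂ) := by
    rw [star_pm, ← pm_mul, inv_mul_cancel, pm_one]
  change pm κ * _ = _ * pm κ
  conv_rhs => rw [← h3]
  rw [mul_assoc _ (star (pm κ)), h6, mul_one]

end Pool.Agent.LibCS44
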