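import Pool.Agent.LibCS44.StageB
import Pool.Agent.LibCS44.CellsB
import Pool.Agent.LibCS44.VpathC
set_option autoImplicit false
namespace Pool.Agent.LibCS44
open scoped Matrix.Norms.L2Operator

lemma stageC_cov {N : Type} [Group N] (τ : N ≃* N) {I : Type} [Fintype I] [DecidableEq I]
    (z : I → N →* Circle) (σ : Equiv.Perm I) (hz : ∀ i a, z (σ i) (τ a) = z i a) (a : N) :
    (Matrix.diagonal fun i => (z i (τ a) : ℂ)) =
      pm σ * (Matrix.diagonal fun i => (z i a : ℂ)) * star (pm σ) := by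
  rw [pm_diagonal]
  congr 1
  funext i
  have h := hz (σ⁻¹ i) a
  have e8 : σ (σ⁻¹ i) = i := σ.apply_symm_apply i
  rw [e8] at h
  rw [h]

/-- One stage.  Let `β` be the permutation of `exists_matching` (for `f i = cell (z i)`, `f' i = cell (z' i)`), `z'' = z' ∘ β`, `σ'' = β⁻¹ * σ * β`, `κ = σ'' * σ⁻¹`: `cell (z (κ i)) = cell (z i)`.
Let `V` be the path of `exists_vpath`, `T s = V s * pm σ`, `u = upath z z''`.  At `s = 0`: `T 0 = pm σ`, at `s = 1`: `T 1 = pm σ''`; covariance at the end points by `pm_diagonal`. -/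
theorem path_stage {N : Type} [Group N] (τ : N ≃* N) {I : Type} [Fintype I] [DecidableEq I]
    {C : Type} [DecidableEq C] (cell : (N →* Circle) → C) (z z' : I → N →* Circle)
    (σ : Equiv.Perm I) (hz : ∀ i a, z (σ i) (τ a) = z i a) (hz' : ∀ i a, z' (σ i) (τ a) = z' i a)
    (hcount : ∀ c c', (Finset.univ.filter fun i => cell (z i) = c ∧ cell (z (σ i)) = c').card =
      (Finset.univ.filter fun i => cell (z' i) = c ∧ cell (z' (σ i)) = c').card)
    {ε : ℝ} (hε : 0 ≤ ε) (F : Finset N)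
    (hcell : ∀ x y, cell x = cell y → ∀ a ∈ F, ‖(x a : ℂ) - (y a : ℂ)‖ ≤ ε) :
    ∃ (u : N → C(unitInterval, Matrix I I ℂ)) (T : unitary C(unitInterval, Matrix I I ℂ)),
      (∀ a, ‖u a‖ ≤ 1) ∧ (∀ a, u a⁻¹ = star (u a)) ∧ u 1 = 1 ∧
      (∀ a b, u (a * b) 0 = u a 0 * u b 0) ∧ (∀ a b, u (a * b) 1 = u a 1 * u b 1) ∧
      (∀ a, u (τ a) 0 = (T : C(unitInterval, Matrix I I ℂ)) 0 * u a 0 *
        star ((T : C(unitInterval, Matrix I I ℂ)) 0)) ∧
      (∀ a, u (τ a) 1 = (T : C(unitInterval, Matrix I I ℂ)) 1 * u a 1 *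
        star ((T : C(unitInterval, Matrix I I ℂ)) 1)) ∧
      (∀ a ∈ F, ∀ b ∈ F, a * b ∈ F → ‖u (a * b) - u a * u b‖ ≤ 3 * ε) ∧
      (∀ a ∈ F, τ a ∈ F → ‖u (τ a) - (T : C(unitInterval, Matrix I I ℂ)) * u a *
        star (T : C(unitInterval, Matrix I I ℂ))‖ ≤ 4 * ε) ∧
      (∀ a, (u a 0).trace = ∑ i, (z i a : ℂ)) ∧ (∀ a, (u a 1).trace = ∑ i, (z' i a : ℂ)) := by
  obtain ⟨β, hβ⟩ := exists_matching σ (fun i => cell (z i)) (fun i => cell (z' i)) hcount
  have hβ1 : ∀ i, cell (z' (β i)) = cell (z i) := fun i => (hβ i).1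
  have hβ2 : ∀ i, cell (z' (σ (β i))) = cell (z (σ i)) := fun i => (hβ i).2
  set z'' : I → N →* Circle := fun i => z' (β i) with hz''
  set σ'' : Equiv.Perm I := β⁻¹ * σ * β with hσ''
  set κ : Equiv.Perm I := σ'' * σ⁻¹ with hκ
  have hβσ : ∀ i, β (σ'' i) = σ (β i) := by
    intro i
    simp only [hσ'', Equiv.Perm.mul_apply]
    exact β.apply_symm_apply _
  have hκf : ∀ i, cell (z (κ i)) = cell (z i) := by
    intro i
    have e8 : σ (σ⁻¹ i) = i := σ.apply_symm_apply i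
    have h1 : cell (z' (β (κ i))) = cell (z (κ i)) := hβ1 _
    have h2 : β (κ i) = σ (β (σ⁻¹ i)) := by
      simp only [hκ, Equiv.Perm.mul_apply]
      exact hβσ _
    rw [← h1, h2, hβ2, e8]
  obtain ⟨V, hV0, hV1, hVc⟩ := exists_vpath κ (fun i => cell (z i)) hκf
  -- the constant path `pm σ`
  set W : unitary C(unitInterval, Matrix I I ℂ) :=
    ⟨ContinuousMap.const _ (pm σ), by
      rw [Unitary.mem_iff]
      constructor
      · ext1 s
        change star (pm σ) * pm σ = 1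
        rw [star_pm, ← pm_mul, inv_mul_cancel, pm_one]
      · ext1 s
        change pm σ * star (pm σ) = 1
        rw [star_pm, ← pm_mul, mul_inv_cancel, pm_one]⟩ with hW
  set T : unitary C(unitInterval, Matrix I I ℂ) := V * W with hTdef
  have hT : ∀ s, (T : C(unitInterval, Matrix I I ℂ)) s =
      (V : C(unitInterval, Matrix I I ℂ)) s * pm σ := fun s => rfl
  have hT0 : (T : C(unitInterval, Matrix I I ℂ)) 0 = pm σ := by rw [hT, hV0, one_mul]
  have hT1 : (T : C(unitInterval, Matrix I I ℂ)) 1 = pm σ'' := by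
    rw [hT, hV1, ← pm_mul, hκ, inv_mul_cancel_right]
  have hu0 : ∀ a, upath z z'' a 0 = Matrix.diagonal fun i => (z i a : ℂ) := upath_zero z z''
  have hu1 : ∀ a, upath z z'' a 1 = Matrix.diagonal fun i => (z'' i a : ℂ) := upath_one z z''
  have hz3 : ∀ i a, z'' (σ'' i) (τ a) = z'' i a := by
    intro i a
    change z' (β (σ'' i)) (τ a) = z' (β i) a
    rw [hβσ]
    exact hz' _ _
  refine ⟨upath z z'', T, norm_upath_le z z'', upath_inv z z'', upath_map_one z z'', ?_, ?_, ?_,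
    ?_, ?_, ?_, ?_, ?_⟩
  · intro a b
    rw [hu0, hu0, hu0, Matrix.diagonal_mul_diagonal]
    congr 1
    funext i
    rw [map_mul, Circle.coe_mul]
  · intro a b
    rw [hu1, hu1, hu1, Matrix.diagonal_mul_diagonal]
    congr 1
    funext i
    rw [map_mul, Circle.coe_mul]
  · intro a
    rw [hu0, hu0, hT0]
    exact stageC_cov τ z σ hz a
  · intro a
    rw [hu1, hu1, hT1]
    exact stageC_cov τ z'' σ'' hz3 a
  · intro a ha b hb hab
    have hc : ∀ c ∈ F, ∀ i, ‖(z i c : ℂ) - z'' i c‖ ≤ ε := by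
      intro c hc i
      exact hcell _ _ (hβ1 i).symm c hc
    exact norm_upath_mul_le z z'' hε a b (hc a ha) (hc b hb) (hc _ hab)
  · intro a ha hτa
    exact norm_cov_le τ cell z z'' σ hz (fun i => hβ1 i) hε a
      (fun x y hxy => hcell x y hxy a ha) (fun x y hxy => hcell x y hxy _ hτa) V hVc T hT
  · intro a
    rw [hu0, Matrix.trace_diagonal]
  · intro a
    rw [hu1, Matrix.trace_diagonal]
    exact Equiv.sum_comp β (fun i => (z' i a : ℂ))

end Pool.Agent.LibCS44
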