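import Pool.Agent.LibCS44.Base
set_option autoImplicit false
namespace Pool.Agent.LibCS44

lemma tracesB_cc_one {G : Type} [Group G] {N : Subgroup G} [N.Normal] (g : G) :
    cc g (1 : N →* Circle) = 1 := by
  ext a
  rfl

/-- same orbit -/
lemma tracesB_range {G : Type} [Group G] {N : Subgroup G} [N.Normal] (x y : N →* Circle)
    (g g' : G) (h : cc g x = cc g' y) :
    (Set.range fun k : G => cc k x) = Set.range fun k : G => cc k y := by
  -- `x = cc (g' g⁻¹) y`
  have h1 : x = cc (g' * g⁻¹) y := by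
    have h2 : cc g⁻¹ (cc g x) = x := by rw [← cc_mul, mul_inv_cancel, cc_one]
    rw [cc_mul, ← h, h2]
  have h3 : y = cc (g * g'⁻¹) x := by
    have h2 : cc g'⁻¹ (cc g' y) = y := by rw [← cc_mul, mul_inv_cancel, cc_one]
    rw [cc_mul, h, h2]
  ext w
  constructor
  · rintro ⟨k, rfl⟩
    refine ⟨(g' * g⁻¹) * k, ?_⟩
    simp only []
    rw [cc_mul, ← h1]
  · rintro ⟨k, rfl⟩
    refine ⟨(g * g'⁻¹) * k, ?_⟩
    simp only []
    rw [cc_mul, ← h3]

/-- Choose representatives of infinitely many orbits: the map from `X` to the set of orbits (`Set.range fun g => cc g x`) has finite fibres since the orbits are finite, so its image is infinite;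
remove the orbit of `1` (`cc g 1 = 1`). -/
theorem exists_disjoint_orbits {G : Type} [Group G] {N : Subgroup G} [N.Normal]
    (X : Set (N →* Circle)) (hX : X.Infinite)
    (hfin : ∀ x ∈ X, (Set.range fun g : G => cc g x).Finite) (d : ℕ) :
    ∃ x : Fin d → (N →* Circle), (∀ j, x j ∈ X) ∧ (∀ j (g : G), cc g (x j) ≠ 1) ∧
      (∀ j j' (g g' : G), cc g (x j) = cc g' (x j') → j = j') := by
  set orb : (N →* Circle) → Set (N →* Circle) := fun x => Set.range fun g : G => cc g x with horb
  set X' : Set (N →* Circle) := X \ {1} with hX'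
  have hX'inf : X'.Infinite := hX.sdiff (Set.finite_singleton 1)
  have hself : ∀ x : N →* Circle, x ∈ orb x := fun x => ⟨1, cc_one x⟩
  have himg : (orb '' X').Infinite := by
    intro hf
    apply hX'inf
    have h1 : X' ⊆ ⋃₀ (orb '' X') := by
      intro x hx
      exact ⟨orb x, ⟨x, hx, rfl⟩, hself x⟩
    refine (hf.sUnion ?_).subset h1
    rintro _ ⟨x, hx, rfl⟩
    exact hfin x hx.1
  obtain ⟨s, hs, hcard⟩ := himg.exists_subset_card_eq d
  -- enumerate the orbits
  have e : Fin d ≃ s := (finCongr hcard.symm).trans s.equivFin.symm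
  have hsel : ∀ j : Fin d, ∃ x, x ∈ X' ∧ orb x = (e j : Set (N →* Circle)) := by
    intro j
    obtain ⟨x, hx, hx2⟩ := hs (e j).2
    exact ⟨x, hx, hx2⟩
  choose x hx hxo using hsel
  refine ⟨x, fun j => (hx j).1, ?_, ?_⟩
  · intro j g h
    apply (hx j).2
    have h1 : cc g⁻¹ (cc g (x j)) = x j := by rw [← cc_mul, mul_inv_cancel, cc_one]
    rw [h, tracesB_cc_one] at h1
    exact h1.symm
  · intro j j' g g' h
    have h1 : orb (x j) = orb (x j') := tracesB_range _ _ g g' h
    rw [hxo, hxo] at h1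
    exact e.injective (Subtype.ext h1)

/-- a character with finite orbit is invariant under some power of `t`: two of the `cc (t ^ k) x`, `k : ℕ`, coincide; a common multiple works for finitely many characters -/
theorem exists_period {G : Type} [Group G] {N : Subgroup G} [N.Normal] (t : G) {d : ℕ}
    (x : Fin d → (N →* Circle)) (hfin : ∀ j, (Set.range fun g : G => cc g (x j)).Finite) :
    ∃ L : ℕ, 0 < L ∧ ∀ j, cc (t ^ L) (x j) = x j := by
  have h1 : ∀ j, ∃ L : ℕ, 0 < L ∧ cc (t ^ L) (x j) = x j := by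
    intro j
    have h2 : ¬ Function.Injective (fun k : ℕ => cc (t ^ k) (x j)) := by
      intro hinj
      have h3 : (Set.range fun k : ℕ => cc (t ^ k) (x j)).Infinite := Set.infinite_range_of_injective hinj
      apply h3
      refine (hfin j).subset ?_
      rintro _ ⟨k, rfl⟩
      exact ⟨t ^ k, rfl⟩
    have key : ∀ a b : ℕ, a < b → cc (t ^ a) (x j) = cc (t ^ b) (x j) →
        ∃ L : ℕ, 0 < L ∧ cc (t ^ L) (x j) = x j := by
      intro a b hab h
      refine ⟨b - a, Nat.sub_pos_of_lt hab, ?_⟩
      have e1 : cc (t ^ a)⁻¹ (cc (t ^ a) (x j)) = x j := by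
        rw [← cc_mul, mul_inv_cancel, cc_one]
      have e2 : cc (t ^ a)⁻¹ (cc (t ^ b) (x j)) = cc (t ^ (b - a)) (x j) := by
        rw [← cc_mul, ← pow_sub _ hab.le]
      rw [← e2, ← h, e1]
    simp only [Function.Injective] at h2
    push Not at h2
    obtain ⟨a, b, hab, hne⟩ := h2
    rcases lt_or_gt_of_ne hne with h | h
    · exact key a b h hab
    · exact key b a h hab.symm
  choose L hL hLx using h1
  have hmul : ∀ j (k : ℕ), cc (t ^ (L j * k)) (x j) = x j := by
    intro j k
    induction k with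
    | zero => simp [cc_one]
    | succ k ih =>
      rw [Nat.mul_succ, pow_add, cc_mul, ih, hLx]
  refine ⟨∏ j, L j, Finset.prod_pos fun j _ => hL j, fun j => ?_⟩
  obtain ⟨k, hk⟩ := Finset.dvd_prod_of_mem L (Finset.mem_univ j)
  rw [hk]
  exact hmul j k

end Pool.Agent.LibCS44
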