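import Pool.Agent.LibCS44.Base
import Pool.Agent.LibCS44.Stage
import Pool.Agent.LibCS44.Pigeon
import Pool.Agent.LibCS44.Cells
import Pool.Agent.LibCS44.Traces
set_option autoImplicit false
namespace Pool.Agent.LibCS44
open scoped Matrix.Norms.L2Operator

/-- the conjugate `b.out⁻¹ * a * b.out` of an element of a normal subgroup -/
noncomputable def cj {G : Type} [Group G] {N : Subgroup G} [hN : N.Normal] (H : Subgroup G)
    (b : G ⧸ H) (a : N) : N :=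
  ⟨b.out⁻¹ * a * b.out, by simpa using hN.conj_mem a a.2 (b.out)⁻¹⟩

theorem conjNormal_pow_apply {G : Type} [Group G] {N : Subgroup G} [hN : N.Normal] (t : G)
    (k : ℕ) (a : N) :
    (((MulAut.conjNormal t : MulAut N) ^ k : MulAut N) a : G) = t ^ k * a * (t ^ k)⁻¹ := by
  rw [← map_pow, MulAut.conjNormal_apply]

theorem exists_group_stage {G : Type} [Group G] {N : Subgroup G} [hNn : N.Normal]
    (H : Subgroup G) [Fintype (G ⧸ H)] (t : G)
    (hinf : {x : N →* Circle | (Set.range fun g : G => cc g x).Finite}.Infinite)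
    (F : Finset N) {ε : ℝ} (hε : 0 < ε) :
    ∃ (I : Type) (_ : Fintype I) (_ : DecidableEq I) (_ : Nonempty I)
      (u : N → C(unitInterval, Matrix I I ℂ)) (T : unitary C(unitInterval, Matrix I I ℂ)) (a₀ : N),
      (∀ a, ‖u a‖ ≤ 1) ∧ (∀ a, u a⁻¹ = star (u a)) ∧ u 1 = 1 ∧
      (∀ a b, u (a * b) 0 = u a 0 * u b 0) ∧ (∀ a b, u (a * b) 1 = u a 1 * u b 1) ∧
      (∀ a, u (MulAut.conjNormal t a) 0 = (T : C(unitInterval, Matrix I I ℂ)) 0 * u a 0 *
        star ((T : C(unitInterval, Matrix I I ℂ)) 0)) ∧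
      (∀ a, u (MulAut.conjNormal t a) 1 = (T : C(unitInterval, Matrix I I ℂ)) 1 * u a 1 *
        star ((T : C(unitInterval, Matrix I I ℂ)) 1)) ∧
      (∀ a ∈ F, ∀ b ∈ F, a * b ∈ F → ‖u (a * b) - u a * u b‖ ≤ 3 * ε) ∧
      (∀ a ∈ F, MulAut.conjNormal t a ∈ F →
        ‖u (MulAut.conjNormal t a) - (T : C(unitInterval, Matrix I I ℂ)) * u a *
        star (T : C(unitInterval, Matrix I I ℂ))‖ ≤ 4 * ε) ∧
      ∑ b : G ⧸ H, (u (cj H b a₀) 0).trace ≠ ∑ b : G ⧸ H, (u (cj H b a₀) 1).trace := by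
  classical
  obtain ⟨C, hC1, hC2, cell, hcell⟩ := exists_cells F hε
  obtain ⟨x, hxX, hx1, hxd⟩ := exists_disjoint_orbits _ hinf (fun x hx => hx)
    (Fintype.card C * Fintype.card C + 1)
  obtain ⟨L, hL, hxL⟩ := exists_period t x (fun j => hxX j)
  haveI : NeZero L := ⟨hL.ne'⟩
  obtain ⟨I, hI1, hI2, hI3, σ, z, z', m, m', c, c', hmm, hz, hz', hcount, hsum, hsum'⟩ :=
    exists_stage (MulAut.conjNormal t : MulAut N) cell _ L (Nat.lt_succ_self _) x (by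
      intro j a
      have h1 := hxL j
      have h2 := DFunLike.congr_fun h1 a
      rw [cc_apply] at h2
      rw [← h2]
      congr 1
      apply Subtype.ext
      rw [conjNormal_pow_apply])
  obtain ⟨u, T, hu1, hu2, hu3, hu4, hu5, hu6, hu7, hu8, hu9, hu10, hu11⟩ :=
    path_stage (MulAut.conjNormal t : MulAut N) cell z z' σ hz hz' hcount hε.le F hcell
  haveI : Nonempty (Fin L) := ⟨⟨0, hL⟩⟩
  obtain ⟨a₀, ha₀⟩ := traces_ne (Λ := (G ⧸ H) × Fin L)
    (fun j l => cc (t ^ (l.2 : ℕ) * (l.1.out)⁻¹) (x j)) (fun j l => hx1 j _)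
    (fun j j' l l' h => hxd j j' _ _ h) m m' hmm (Fintype.card (G ⧸ H) * c)
    (Fintype.card (G ⧸ H) * c')
  refine ⟨I, hI1, hI2, hI3, u, T, a₀, hu1, hu2, hu3, hu4, hu5, hu6, hu7, hu8, hu9, ?_⟩
  have key : ∀ (m : Fin (Fintype.card C * Fintype.card C + 1) → ℕ) (c : ℂ),
      ∑ b : G ⧸ H, (∑ j, (m j : ℂ) * ∑ k : Fin L,
        (x j ((((MulAut.conjNormal t : MulAut N)) ^ (k : ℕ) : MulAut N) (cj H b a₀)) : ℂ) + c) =
      ∑ j, (m j : ℂ) * ∑ l : (G ⧸ H) × Fin L, (cc (t ^ (l.2 : ℕ) * (l.1.out)⁻¹) (x j) a₀ : ℂ) +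
        Fintype.card (G ⧸ H) * c := by
    intro m c
    rw [Finset.sum_add_distrib, Finset.sum_const, Finset.card_univ, nsmul_eq_mul]
    congr 1
    rw [Finset.sum_comm]
    refine Finset.sum_congr rfl fun j _ => ?_
    rw [← Finset.mul_sum, Fintype.sum_prod_type]
    congr 1
    refine Finset.sum_congr rfl fun b _ => Finset.sum_congr rfl fun k _ => ?_
    rw [cc_apply]
    congr 2
    apply Subtype.ext
    rw [conjNormal_pow_apply]
    simp [cj, mul_assoc]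
  have e0 : ∑ b : G ⧸ H, (u (cj H b a₀) 0).trace = ∑ j, (m j : ℂ) *
      ∑ l : (G ⧸ H) × Fin L, (cc (t ^ (l.2 : ℕ) * (l.1.out)⁻¹) (x j) a₀ : ℂ) +
        Fintype.card (G ⧸ H) * c := by
    rw [← key]
    refine Finset.sum_congr rfl fun b _ => ?_
    rw [hu10, hsum]
  have e1 : ∑ b : G ⧸ H, (u (cj H b a₀) 1).trace = ∑ j, (m' j : ℂ) *
      ∑ l : (G ⧸ H) × Fin L, (cc (t ^ (l.2 : ℕ) * (l.1.out)⁻¹) (x j) a₀ : ℂ) +
        Fintype.card (G ⧸ H) * c' := by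
    rw [← key]
    refine Finset.sum_congr rfl fun b _ => ?_
    rw [hu11, hsum']
  rw [e0, e1]
  exact ha₀

end Pool.Agent.LibCS44
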