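import Pool.Agent.LibCS44.Base
set_option autoImplicit false
namespace Pool.Agent.LibCS44
open scoped commutatorElement

/-- `H' = {h ∈ H | h t ^ (- β h) ∈ B}`, with the restriction of `β` and `t' = t`; `H'` is a subgroup because `B` is normal; `B.relIndex N ≠ 0` gives that `H'` has finite index in `H`: every left
coset of `H'` in `H` contains an element of `N`, and `N ∩ H' = B`. -/
theorem sub_datum {G : Type} [Group G] {N : Subgroup G} [N.Normal] (H : Subgroup G)
    [H.FiniteIndex] (hNH : N ≤ H) (β : H →* Multiplicative ℤ)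
    (hβ : ∀ h : H, β h = 1 ↔ (h : G) ∈ N) (t : H) (ht : β t = Multiplicative.ofAdd 1)
    (B : Subgroup G) [B.Normal] (hBN : B ≤ N) (hB : B.relIndex N ≠ 0) :
    ∃ (H' : Subgroup G) (β' : H' →* Multiplicative ℤ) (t' : H'), H'.FiniteIndex ∧ B ≤ H' ∧
      (∀ h : H', β' h = 1 ↔ (h : G) ∈ B) ∧ β' t' = Multiplicative.ofAdd 1 := by
  have hBH : B ≤ H := hBN.trans hNH
  have hle : B ⊔ Subgroup.zpowers (t : G) ≤ H :=
    sup_le hBH (Subgroup.zpowers_le.2 t.2)
  have hBle : B ≤ B ⊔ Subgroup.zpowers (t : G) := le_sup_left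
  have htm : (t : G) ∈ B ⊔ Subgroup.zpowers (t : G) :=
    (le_sup_right : Subgroup.zpowers (t : G) ≤ _) (Subgroup.mem_zpowers _)
  have hbt : ∀ n : ℤ, β (t ^ n) = Multiplicative.ofAdd n := by
    intro n
    rw [map_zpow, ht, ← ofAdd_zsmul, smul_eq_mul, mul_one]
  refine ⟨B ⊔ Subgroup.zpowers (t : G), β.comp (Subgroup.inclusion hle), ⟨t, htm⟩, ?_, hBle,
    ?_, ?_⟩
  · -- finite index
    have h1 : Finite (N ⧸ B.subgroupOf N) := by
      haveI : (B.subgroupOf N).FiniteIndex := ⟨hB⟩
      exact Subgroup.finite_quotient_of_finiteIndex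
    set H' := B ⊔ Subgroup.zpowers (t : G) with hH'
    let f : N ⧸ B.subgroupOf N → H ⧸ H'.subgroupOf H :=
      Quotient.lift (fun n : N => (QuotientGroup.mk (⟨(n : G), hNH n.2⟩ : H) : H ⧸ H'.subgroupOf H))
        (by
          intro a b hab
          rw [QuotientGroup.eq]
          have h2 : a⁻¹ * b ∈ B.subgroupOf N := QuotientGroup.leftRel_apply.1 hab
          rw [Subgroup.mem_subgroupOf] at h2 ⊢
          exact hBle h2)
    have hf : Function.Surjective f := by
      intro q
      induction q using QuotientGroup.induction_on with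
      | H h =>
        have hn : (h : G) * ((t : G) ^ (Multiplicative.toAdd (β h)))⁻¹ ∈ N := by
          have h3 := (hβ (h * (t ^ (Multiplicative.toAdd (β h)))⁻¹)).1 (by
            rw [map_mul, map_inv, hbt, ofAdd_toAdd, mul_inv_cancel])
          simpa using h3
        refine ⟨QuotientGroup.mk ⟨_, hn⟩, ?_⟩
        show (QuotientGroup.mk (⟨(h : G) * ((t : G) ^ (Multiplicative.toAdd (β h)))⁻¹, hNH hn⟩ : H) :
          H ⧸ H'.subgroupOf H) = QuotientGroup.mk h
        rw [QuotientGroup.eq, Subgroup.mem_subgroupOf]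
        have h4 : ((((⟨(h : G) * ((t : G) ^ (Multiplicative.toAdd (β h)))⁻¹, hNH hn⟩ : H))⁻¹ * h : H) : G)
            = (t : G) ^ (Multiplicative.toAdd (β h)) := by
          simp [mul_assoc]
        rw [h4]
        exact H'.zpow_mem htm _
    have h2 : Finite (H ⧸ H'.subgroupOf H) := Finite.of_surjective f hf
    have h3 : (H'.subgroupOf H).FiniteIndex := Subgroup.finiteIndex_of_finite_quotient
    have h4 : H'.relIndex H ≠ 0 := h3.index_ne_zero
    refine ⟨?_⟩
    rw [← Subgroup.relIndex_mul_index hle]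
    exact mul_ne_zero h4 Subgroup.FiniteIndex.index_ne_zero
  · rintro ⟨h, hh⟩
    show β ⟨h, hle hh⟩ = 1 ↔ h ∈ B
    constructor
    · intro hb
      rw [Subgroup.mem_sup_of_normal_left] at hh
      obtain ⟨y, hy, z, hz, hyz⟩ := hh
      obtain ⟨n, hn⟩ := Subgroup.mem_zpowers_iff.1 hz
      have hyβ : β ⟨y, hBH hy⟩ = 1 := (hβ _).2 (hBN hy)
      have h5 : (⟨h, hle (by
          rw [← hyz, ← hn]
          exact mul_mem (hBle hy) (zpow_mem htm n))⟩ : H) = ⟨y, hBH hy⟩ * t ^ n := by
        apply Subtype.ext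
        simp [← hyz, ← hn]
      have h6 : β (⟨y, hBH hy⟩ * t ^ n) = 1 := by
        rw [← h5]
        exact hb
      rw [map_mul, hyβ, one_mul, hbt] at h6
      have h7 : n = 0 := by
        have := congrArg Multiplicative.toAdd h6
        simpa using this
      rw [← hyz, ← hn, h7, zpow_zero, mul_one]
      exact hy
    · intro hb
      exact (hβ _).2 (hBN hb)
  · show β ⟨t, hle htm⟩ = _
    exact ht

end Pool.Agent.LibCS44
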