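import Pool.Agent.LibCS44.Base
set_option autoImplicit false
namespace Pool.Agent.LibCS44
open scoped commutatorElement

/-- if the kernel is finite then `t` generates a finite index subgroup: every left coset of `zpowers t` in `H` contains an element of `N` -/
theorem zpowers_finiteIndex {G : Type} [Group G] {N : Subgroup G} (H : Subgroup G)
    [H.FiniteIndex] (β : H →* Multiplicative ℤ) (hβ : ∀ h : H, β h = 1 ↔ (h : G) ∈ N) (t : H)
    (ht : β t = Multiplicative.ofAdd 1) (hNfin : Finite N) :
    (Subgroup.zpowers (t : G)).FiniteIndex := by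
  have hle : Subgroup.zpowers (t : G) ≤ H := by
    rw [Subgroup.zpowers_le]
    exact t.2
  let K : Subgroup H := (Subgroup.zpowers (t : G)).subgroupOf H
  have hfin : Finite {h : H // (h : G) ∈ N} := by
    refine Finite.of_injective (fun h : {h : H // (h : G) ∈ N} => (⟨(h.1 : G), h.2⟩ : N)) ?_
    intro h h' e
    exact Subtype.ext (Subtype.ext (congrArg (fun z : N => (z : G)) e))
  have hsurj : Function.Surjective
      (fun h : {h : H // (h : G) ∈ N} => (QuotientGroup.mk h.1 : H ⧸ K)) := by
    intro q
    induction q using QuotientGroup.induction_on with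
    | H h =>
      have h1 : β (h * t ^ (-(Multiplicative.toAdd (β h)))) = 1 := by
        rw [map_mul, map_zpow, ht, ← ofAdd_zsmul, smul_eq_mul, mul_one]
        have h2 : β h = Multiplicative.ofAdd (Multiplicative.toAdd (β h)) := rfl
        nth_rewrite 1 [h2]
        rw [← ofAdd_add, add_neg_cancel, ofAdd_zero]
      refine ⟨⟨h * t ^ (-(Multiplicative.toAdd (β h))), (hβ _).1 h1⟩, ?_⟩
      change (QuotientGroup.mk (h * t ^ (-(Multiplicative.toAdd (β h)))) : H ⧸ K) =
        QuotientGroup.mk h
      rw [QuotientGroup.eq]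
      have h3 : (h * t ^ (-(Multiplicative.toAdd (β h))))⁻¹ * h =
          t ^ (Multiplicative.toAdd (β h)) := by
        rw [mul_inv_rev, inv_mul_cancel_right, ← zpow_neg, neg_neg]
      rw [h3, Subgroup.mem_subgroupOf]
      refine ⟨Multiplicative.toAdd (β h), ?_⟩
      simp
  have hq : Finite (H ⧸ K) := Finite.of_surjective _ hsurj
  have hK : K.FiniteIndex := Subgroup.finiteIndex_of_finite_quotient
  refine ⟨?_⟩
  rw [← Subgroup.relIndex_mul_index hle]
  exact mul_ne_zero hK.index_ne_zero Subgroup.FiniteIndex.index_ne_zero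

end Pool.Agent.LibCS44
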