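import Pool.Agent.LibCS44.Base
set_option autoImplicit false
namespace Pool.Agent.LibCS44
open scoped commutatorElement

private lemma GrpD_map {G : Type} [Group G] (B : Subgroup G) :
    (commutator B).map B.subtype = ⁅B, B⁆ := by
  rw [commutator_def, Subgroup.map_commutator, ← MonoidHom.range_eq_map, Subgroup.range_subtype]

/-- a solvable group `B` with `B ≤ ⁅B, B⁆` is trivial -/
theorem eq_bot_of_perfect {G : Type} [Group G] (B : Subgroup G) (hB : Group.IsSolvable B)
    (h : B ≤ ⁅B, B⁆) : B = ⊥ := by
  by_contra hne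
  have hnt : Nontrivial B := (Subgroup.nontrivial_iff_ne_bot B).2 hne
  have h1 := Group.IsSolvable.commutator_lt_top_of_nontrivial B
  apply h1.ne
  rw [eq_top_iff]
  intro x _
  have h2 : (x : G) ∈ (commutator B).map B.subtype := by
    rw [GrpD_map]
    exact h x.2
  obtain ⟨y, hy, hyx⟩ := h2
  have : y = x := Subtype.ext hyx
  rwa [← this]

private def GrpD_E {G : Type} [Group G] (S : Subgroup G) : ℕ → Subgroup G
  | 0 => S
  | n + 1 => ⁅GrpD_E S n, GrpD_E S n⁆

private lemma GrpD_E_eq {G : Type} [Group G] (S : Subgroup G) :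
    ∀ n, GrpD_E S n = (derivedSeries S n).map S.subtype
  | 0 => by
    rw [derivedSeries_zero, ← MonoidHom.range_eq_map, Subgroup.range_subtype]
    rfl
  | n + 1 => by
    rw [derivedSeries_succ, Subgroup.map_commutator, ← GrpD_E_eq S n]
    rfl

/-- If all commutator subgroups of the subgroups `Q ≤ S`, normal and of finite index in `G`, have finite index in `Q`, then `G` is finite: the derived series of `S` (pushed forward to `G`) consists of
finite index subgroups, and it ends with `⊥`. -/
theorem finite_of_derived {G : Type} [Group G] (S : Subgroup G) [S.Normal] [S.FiniteIndex]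
    (hS : Group.IsSolvable S)
    (h : ∀ Q : Subgroup G, Q.Normal → Q.FiniteIndex → Q ≤ S → (commutator Q).FiniteIndex) :
    Finite G := by
  have key : ∀ n, (GrpD_E S n).Normal ∧ (GrpD_E S n).FiniteIndex ∧ GrpD_E S n ≤ S := by
    intro n
    induction n with
    | zero => exact ⟨inferInstanceAs S.Normal, inferInstanceAs S.FiniteIndex, le_refl S⟩
    | succ n ih =>
      obtain ⟨h1, h2, h3⟩ := ih
      have h4 : GrpD_E S (n + 1) = ⁅GrpD_E S n, GrpD_E S n⁆ := rfl
      have h5 := h (GrpD_E S n) h1 h2 h3
      have h6 : GrpD_E S (n + 1) ≤ GrpD_E S n := by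
        rw [h4]
        exact Subgroup.commutator_le_left _ _
      refine ⟨?_, ?_, h6.trans h3⟩
      · rw [h4]
        exact Subgroup.commutator_normal _ _
      · refine ⟨?_⟩
        rw [← Subgroup.relIndex_mul_index h6]
        refine mul_ne_zero ?_ h2.index_ne_zero
        have h7 : (GrpD_E S (n + 1)).subgroupOf (GrpD_E S n) = commutator (GrpD_E S n) := by
          rw [h4, ← GrpD_map, Subgroup.subgroupOf,
            Subgroup.comap_map_eq_self_of_injective (Subgroup.subtype_injective _)]
        rw [Subgroup.relIndex, h7]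
        exact h5.index_ne_zero
  obtain ⟨n, hn⟩ := hS.solvable
  have h1 : GrpD_E S n = ⊥ := by
    rw [GrpD_E_eq, hn, Subgroup.map_bot]
  have h2 := (key n).2.1.index_ne_zero
  rw [h1, Subgroup.index_bot] at h2
  exact Nat.finite_of_card_ne_zero h2

end Pool.Agent.LibCS44
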