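import Pool.Agent.LibCS44.Base
set_option autoImplicit false
namespace Pool.Agent.LibCS44
open scoped commutatorElement

private lemma GrpE_pow {P : Type} [Group P] {b : P → ℝ} (hb : IsAddHom b) (x : P) :
    ∀ k : ℕ, b (x ^ k) = k * b x
  | 0 => by
    have h := hb 1 1
    rw [mul_one] at h
    rw [pow_zero, Nat.cast_zero, zero_mul]
    linarith
  | k + 1 => by
    rw [pow_succ, hb, GrpE_pow hb x k]
    push_cast
    ring

/-- kernels: `N = {g ∈ H | b g = 0}` is normal in `G` if any two homomorphisms `H → ℝ` are proportional: for `g ∈ G` the homomorphism `h ↦ b (g h g⁻¹)` is proportional to `b` -/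
theorem exists_kernel {G : Type} [Group G] (H : Subgroup G) [H.Normal] (b : H → ℝ)
    (hb : IsAddHom b) (hb0 : ∃ h, b h ≠ 0)
    (hprop : ∀ b₁ b₂ : H → ℝ, IsAddHom b₁ → IsAddHom b₂ → ∀ x y, b₁ x * b₂ y = b₁ y * b₂ x) :
    ∃ N : Subgroup G, N.Normal ∧ N ≤ H ∧ ∀ h : H, (h : G) ∈ N ↔ b h = 0 := by
  let f : H →* Multiplicative ℝ := MonoidHom.mk' (fun h => Multiplicative.ofAdd (b h))
    (fun x y => by rw [hb x y, ofAdd_add])
  have hf : ∀ h : H, h ∈ f.ker ↔ b h = 0 := by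
    intro h
    rw [MonoidHom.mem_ker]
    change Multiplicative.ofAdd (b h) = 1 ↔ _
    rw [ofAdd_eq_one]
  let N : Subgroup G := f.ker.map H.subtype
  have hN : ∀ h : H, (h : G) ∈ N ↔ b h = 0 := by
    intro h
    rw [← hf h]
    constructor
    · rintro ⟨y, hy, e⟩
      have : y = h := Subtype.ext e
      rwa [← this]
    · intro hh
      exact ⟨h, hh, rfl⟩
  have hNH : N ≤ H := by
    rintro _ ⟨y, _, rfl⟩
    exact y.2
  refine ⟨N, ⟨?_⟩, hNH, hN⟩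
  intro n hn g
  have hnH : n ∈ H := hNH hn
  have hHn : H.Normal := inferInstance
  have hconj : ∀ h : H, g * h * g⁻¹ ∈ H := fun h => hHn.conj_mem h h.2 g
  let b₂ : H → ℝ := fun h => b ⟨g * h * g⁻¹, hconj h⟩
  have hb₂ : IsAddHom b₂ := by
    intro x y
    change b ⟨g * ((x * y : H) : G) * g⁻¹, _⟩ = b ⟨g * x * g⁻¹, _⟩ + b ⟨g * y * g⁻¹, _⟩
    rw [← hb]
    congr 1
    apply Subtype.ext
    change g * ((x : G) * y) * g⁻¹ = (g * x * g⁻¹) * (g * y * g⁻¹)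
    group
  obtain ⟨h0, hh0⟩ := hb0
  have h1 := hprop b b₂ hb hb₂ ⟨n, hnH⟩ h0
  rw [(hN ⟨n, hnH⟩).1 hn, zero_mul] at h1
  have h2 : b₂ ⟨n, hnH⟩ = 0 := by
    rcases mul_eq_zero.1 h1.symm with h3 | h3
    · exact absurd h3 hh0
    · exact h3
  exact (hN ⟨g * n * g⁻¹, hconj ⟨n, hnH⟩⟩).2 h2

/-- Flatness of the kernel: let `P` be a finite index subgroup, `b' : P → ℝ`, `a ∈ P ∩ N`.  The restrictions of `b'` and of `b` to `P ∩ H` are proportional, the restriction of `b` is not zero (some power of an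
element `h` with `b h ≠ 0` is in `P ∩ H`), and `b a = 0`: so `b' a = 0`. -/
theorem flat_kernel {G : Type} [Group G] (S : Subgroup G) [S.FiniteIndex] (H : Subgroup G)
    [H.FiniteIndex] (hHS : H ≤ S) (b : H → ℝ) (hb : IsAddHom b) (hb0 : ∃ h, b h ≠ 0)
    (hprop : ∀ H' : Subgroup G, H'.FiniteIndex → H' ≤ S → ∀ b₁ b₂ : H' → ℝ, IsAddHom b₁ →
      IsAddHom b₂ → ∀ x y, b₁ x * b₂ y = b₁ y * b₂ x)
    (N : Subgroup G) (hNH : N ≤ H) (hN : ∀ h : H, (h : G) ∈ N ↔ b h = 0) : Flat N := by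
  intro P hP b' hb' a ha
  have hH' : (P ⊓ H).FiniteIndex := inferInstance
  let b₁ : (P ⊓ H : Subgroup G) → ℝ := fun x => b' ⟨x, x.2.1⟩
  let b₂ : (P ⊓ H : Subgroup G) → ℝ := fun x => b ⟨x, x.2.2⟩
  have hb₁ : IsAddHom b₁ := fun x y => hb' ⟨x, x.2.1⟩ ⟨y, y.2.1⟩
  have hb₂ : IsAddHom b₂ := fun x y => hb ⟨x, x.2.2⟩ ⟨y, y.2.2⟩
  obtain ⟨h0, hh0⟩ := hb0
  obtain ⟨k, hk, _, hkP⟩ := Subgroup.exists_pow_mem_of_index_ne_zero hP.index_ne_zero (h0 : G)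
  have hy : (h0 : G) ^ k ∈ P ⊓ H := ⟨hkP, H.pow_mem h0.2 k⟩
  have h1 := hprop (P ⊓ H) hH' (inf_le_right.trans hHS) b₁ b₂ hb₁ hb₂ ⟨a, a.2, hNH ha⟩
    ⟨(h0 : G) ^ k, hy⟩
  have h2 : b₂ ⟨a, a.2, hNH ha⟩ = 0 := (hN ⟨a, hNH ha⟩).1 ha
  have h3 : b₂ ⟨(h0 : G) ^ k, hy⟩ = k * b h0 := GrpE_pow hb h0 k
  rw [h2, mul_zero, h3] at h1
  have h4 : (k : ℝ) * b h0 ≠ 0 := mul_ne_zero (by exact_mod_cast hk.ne') hh0
  rcases mul_eq_zero.1 h1 with h5 | h5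
  · exact h5
  · exact absurd h5 h4

end Pool.Agent.LibCS44
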