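import Pool.Agent.LibCS44.GrpA
import Pool.Agent.LibCS44.GrpB
import Pool.Agent.LibCS44.GrpC
import Pool.Agent.LibCS44.GrpD
import Pool.Agent.LibCS44.GrpE
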