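import Pool.Agent.LibCS44.Base
set_option autoImplicit false
namespace Pool.Agent.LibCS44
open scoped commutatorElement

/-- the integer-valued homomorphism `β h = b h / b t` -/
theorem exists_beta {H : Type} [Group H] (b : H → ℝ) (hb : IsAddHom b) (hb0 : ∃ h, b h ≠ 0)
    (t : H) (ht : ∀ h : H, ∃ k : ℤ, b h = k * b t) :
    ∃ β : H →* Multiplicative ℤ, β t = Multiplicative.ofAdd 1 ∧ ∀ h, β h = 1 ↔ b h = 0 := by
  choose k hk using ht
  have hbt : b t ≠ 0 := by
    intro h0
    obtain ⟨h, hh⟩ := hb0
    exact hh (by rw [hk h, h0, mul_zero])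
  have hmul : ∀ g h, k (g * h) = k g + k h := by
    intro g h
    have h1 : b (g * h) = b g + b h := hb g h
    rw [hk (g * h), hk g, hk h, ← add_mul] at h1
    have h2 := mul_right_cancel₀ hbt h1
    exact_mod_cast h2
  have hone : k 1 = 0 := by
    have h1 := hmul 1 1
    rw [mul_one] at h1
    omega
  refine ⟨{ toFun := fun h => Multiplicative.ofAdd (k h), map_one' := ?_, map_mul' := ?_ }, ?_, ?_⟩
  · rw [hone]
    rfl
  · intro g h
    rw [hmul]
    rfl
  · change Multiplicative.ofAdd (k t) = Multiplicative.ofAdd 1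
    have h1 := hk t
    have h2 : (k t : ℝ) = 1 := by
      have h3 : (1 : ℝ) * b t = k t * b t := by rw [one_mul]; exact h1
      exact (mul_right_cancel₀ hbt h3).symm
    have h3 : k t = 1 := by exact_mod_cast h2
    rw [h3]
  · intro h
    have h1 : Multiplicative.ofAdd (k h) = 1 ↔ k h = 0 := by
      rw [← ofAdd_zero]
      exact Multiplicative.ofAdd.injective.eq_iff
    change Multiplicative.ofAdd (k h) = 1 ↔ b h = 0
    rw [h1, hk h]
    constructor
    · intro h2
      rw [h2, Int.cast_zero, zero_mul]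
    · intro h2
      rcases mul_eq_zero.1 h2 with h3 | h3
      · exact_mod_cast h3
      · exact absurd h3 hbt

end Pool.Agent.LibCS44
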