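import Pool.Agent.LibCS44.Block
import Pool.Agent.LibCS15.IndA
set_option autoImplicit false
namespace Pool.Agent.LibCS44
open scoped Matrix.Norms.L2Operator
open Pool.Agent.LibCS15 (cocy cocy_mul cocy_one cocy_inv)

variable {G : Type} [Group G] (H : Subgroup G) [Fintype (G ⧸ H)] [DecidableEq (G ⧸ H)]
  {n : Type} [Fintype n] [DecidableEq n]

/-- the induced matrix-valued function -/
noncomputable def indM (v : H → Matrix n n ℂ) (g : G) :
    Matrix ((G ⧸ H) × n) ((G ⧸ H) × n) ℂ :=
  ∑ a : G ⧸ H, blockE (g • a) a (v (cocy H g a))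

end Pool.Agent.LibCS44
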