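import Pool.Agent.LibCS15.Lifting
set_option autoImplicit false
namespace Pool.Agent.LibCS44
open Topology Filter
open Pool.Agent.LibCS15 (IsClosedIdeal CStarStable lifting)
open scoped ENNReal

section
variable {D : ℕ → Type} [∀ m, CStarAlgebra (D m)] [∀ m, Nontrivial (D m)]

noncomputable local instance LiftVar_inst : CStarAlgebra (lp D ∞) where

private theorem LiftVar_mem (m : ℕ) (x : D m) :
    Memℓp (Function.update (fun i => (1 : D i)) m x) ∞ := by
  rw [memℓp_infty_iff]
  refine ⟨max 1 ‖x‖, ?_⟩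
  rintro _ ⟨i, rfl⟩
  by_cases h : i = m
  · subst h
    simp only [Function.update_self]
    exact le_max_right _ _
  · simp only [Function.update_of_ne h, norm_one]
    exact le_max_left _ _

/-- the sequence with coordinate `x` at `m` and `1` elsewhere -/
private noncomputable def LiftVar_V (m : ℕ) (x : D m) : lp D ∞ :=
  ⟨Function.update (fun i => (1 : D i)) m x, LiftVar_mem m x⟩

private theorem LiftVar_self (m : ℕ) (x : D m) : (LiftVar_V m x : ∀ i, D i) m = x := by
  show Function.update (fun i => (1 : D i)) m x m = x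
  exact Function.update_self ..

private theorem LiftVar_ne (m : ℕ) (x : D m) (i : ℕ) (h : i ≠ m) :
    (LiftVar_V m x : ∀ i, D i) i = 1 := by
  show Function.update (fun i => (1 : D i)) m x i = 1
  exact Function.update_of_ne h ..

omit [∀ m, Nontrivial (D m)] in
private theorem LiftVar_norm (m : ℕ) (f : lp D ∞) (hf : ∀ i, i ≠ m → f i = 0) :
    ‖f‖ ≤ ‖f m‖ := by
  apply lp.norm_le_of_forall_le (norm_nonneg _)
  intro i
  by_cases h : i = m
  · subst h
    exact le_rfl
  · rw [hf i h, norm_zero]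
    exact norm_nonneg _

private theorem LiftVar_evalCont (m : ℕ) : Continuous (fun f : lp D ∞ => f m) := by
  have h1 : LipschitzWith 1 (fun f : lp D ∞ => f m) := by
    apply LipschitzWith.of_dist_le_mul
    intro f g
    rw [NNReal.coe_one, one_mul, dist_eq_norm, dist_eq_norm]
    exact lp.norm_apply_le_norm ENNReal.top_ne_zero (f - g) m
  exact h1.continuous

end

/-- The lifting lemma for a sequence of `C*`-algebras.  Apply `Pool.Agent.LibCS15.lifting` to the product `D = lp D ∞` (bounded sequences; `lpSpace.lean` in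
`Mathlib/Analysis/CStarAlgebra`, a `C*`-algebra: put together the instances), to the ideal `{f | ∀ m, f m ∈ K m}` and to `v m g =` the sequence with `m`-th coordinate
`v m g` and all the other coordinates equal to `1`; then take the `m`-th coordinates (evaluation at `m` is a unital `*`-homomorphism). -/
theorem lifting_var {G : Type} [Group G] [Countable G] (hG : CStarStable G) (D : ℕ → Type)
    [∀ m, CStarAlgebra (D m)] [∀ m, Nontrivial (D m)] (K : ∀ m, Set (D m))
    (hK : ∀ m, IsClosedIdeal (K m)) (v : ∀ m, G → D m)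
    (hb : ∀ g, ∃ C : ℝ, ∀ m, ‖v m g‖ ≤ C)
    (h1 : ∀ m, v m 1 - 1 ∈ K m) (h1' : Tendsto (fun m => ‖v m 1 - 1‖) atTop (𝓝 0))
    (hmul : ∀ m g h, v m (g * h) - v m g * v m h ∈ K m)
    (hmul' : ∀ g h, Tendsto (fun m => ‖v m (g * h) - v m g * v m h‖) atTop (𝓝 0))
    (hstar : ∀ m g, v m g⁻¹ - star (v m g) ∈ K m)
    (hstar' : ∀ g, Tendsto (fun m => ‖v m g⁻¹ - star (v m g)‖) atTop (𝓝 0)) :
    ∃ (m₀ : ℕ) (π : ∀ m, G →* unitary (D m)),
      (∀ m, m₀ ≤ m → ∀ g, (π m g : D m) - v m g ∈ K m) ∧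
      (∀ g, Tendsto (fun m => ‖(π m g : D m) - v m g‖) atTop (𝓝 0)) := by
  let _ : CStarAlgebra (lp D ∞) := LiftVar_inst
  -- the ideal
  have hKK : IsClosedIdeal {f : lp D ∞ | ∀ m, f m ∈ K m} := by
    constructor
    · have e : {f : lp D ∞ | ∀ m, f m ∈ K m} = ⋂ m, (fun f : lp D ∞ => f m) ⁻¹' K m := by
        ext f
        simp
      rw [e]
      exact isClosed_iInter fun m => (hK m).isClosed.preimage (LiftVar_evalCont m)
    · exact fun m => (hK m).zero_mem
    · exact fun x hx y hy m => (hK m).add_mem _ (hx m) _ (hy m)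
    · exact fun c x hx m => (hK m).smul_mem c _ (hx m)
    · exact fun b x hx m => (hK m).mul_mem_left _ _ (hx m)
    · exact fun b x hx m => (hK m).mul_mem_right _ _ (hx m)
    · exact fun x hx m => (hK m).star_mem _ (hx m)
  have hmem : ∀ (m : ℕ) (f : lp D ∞), (∀ i, i ≠ m → f i = 0) → f m ∈ K m →
      ∀ i, f i ∈ K i := by
    intro m f hf hfm i
    by_cases h : i = m
    · subst h
      exact hfm
    · rw [hf i h]
      exact (hK i).zero_mem
  have htend : ∀ (f : ℕ → lp D ∞) (w : ℕ → ℝ), (∀ m i, i ≠ m → f m i = 0) →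
      (∀ m, ‖f m m‖ = w m) → Tendsto w atTop (𝓝 0) → Tendsto f atTop (𝓝 0) := by
    intro f w hf hw hw0
    rw [tendsto_zero_iff_norm_tendsto_zero]
    refine squeeze_zero (fun m => norm_nonneg _) (fun m => ?_) hw0
    rw [← hw m]
    exact LiftVar_norm m (f m) (hf m)
  -- the differences
  have d1 : ∀ m i, i ≠ m → (LiftVar_V m (v m 1) - 1 : lp D ∞) i = 0 := by
    intro m i h
    show (LiftVar_V m (v m 1) : ∀ i, D i) i - 1 = 0
    rw [LiftVar_ne m _ i h, sub_self]
  have d1' : ∀ m, (LiftVar_V m (v m 1) - 1 : lp D ∞) m = v m 1 - 1 := by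
    intro m
    show (LiftVar_V m (v m 1) : ∀ i, D i) m - 1 = _
    rw [LiftVar_self]
  have d2 : ∀ g h m i, i ≠ m →
      (LiftVar_V m (v m (g * h)) - LiftVar_V m (v m g) * LiftVar_V m (v m h) : lp D ∞) i = 0 := by
    intro g h m i hi
    show (LiftVar_V m (v m (g * h)) : ∀ i, D i) i -
      (LiftVar_V m (v m g) : ∀ i, D i) i * (LiftVar_V m (v m h) : ∀ i, D i) i = 0
    rw [LiftVar_ne m _ i hi, LiftVar_ne m _ i hi, LiftVar_ne m _ i hi, mul_one, sub_self]
  have d2' : ∀ g h m,
      (LiftVar_V m (v m (g * h)) - LiftVar_V m (v m g) * LiftVar_V m (v m h) : lp D ∞) m =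
        v m (g * h) - v m g * v m h := by
    intro g h m
    show (LiftVar_V m (v m (g * h)) : ∀ i, D i) m -
      (LiftVar_V m (v m g) : ∀ i, D i) m * (LiftVar_V m (v m h) : ∀ i, D i) m = _
    rw [LiftVar_self, LiftVar_self, LiftVar_self]
  have d3 : ∀ g m i, i ≠ m →
      (LiftVar_V m (v m g⁻¹) - star (LiftVar_V m (v m g)) : lp D ∞) i = 0 := by
    intro g m i hi
    show (LiftVar_V m (v m g⁻¹) : ∀ i, D i) i - star ((LiftVar_V m (v m g) : ∀ i, D i) i) = 0
    rw [LiftVar_ne m _ i hi, LiftVar_ne m _ i hi, star_one, sub_self]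
  have d3' : ∀ g m,
      (LiftVar_V m (v m g⁻¹) - star (LiftVar_V m (v m g)) : lp D ∞) m =
        v m g⁻¹ - star (v m g) := by
    intro g m
    show (LiftVar_V m (v m g⁻¹) : ∀ i, D i) m - star ((LiftVar_V m (v m g) : ∀ i, D i) m) = _
    rw [LiftVar_self, LiftVar_self]
  obtain ⟨m₀, ρ, hρ1, hρ2, -⟩ := lifting hG hKK (fun m g => LiftVar_V m (v m g))
    (fun g => by
      obtain ⟨C, hC⟩ := hb g
      refine ⟨max 1 C, fun m => ?_⟩
      apply lp.norm_le_of_forall_le (le_trans zero_le_one (le_max_left _ _))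
      intro i
      by_cases h : i = m
      · subst h
        rw [LiftVar_self]
        exact (hC i).trans (le_max_right _ _)
      · rw [LiftVar_ne m _ i h, norm_one]
        exact le_max_left _ _)
    (fun m => hmem m _ (d1 m) (by rw [d1']; exact h1 m))
    (htend _ _ d1 (fun m => by rw [d1']) h1')
    (fun m g h => hmem m _ (d2 g h m) (by rw [d2']; exact hmul m g h))
    (fun g h => htend _ _ (d2 g h) (fun m => by rw [d2']) (hmul' g h))
    (fun m g => hmem m _ (d3 g m) (by rw [d3']; exact hstar m g))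
    (fun g => htend _ _ (d3 g) (fun m => by rw [d3']) (hstar' g))
  refine ⟨m₀, fun m =>
    { toFun := fun g => ⟨(ρ m g : lp D ∞) m, ?_⟩
      map_one' := ?_
      map_mul' := ?_ }, ?_, ?_⟩
  · rw [Unitary.mem_iff]
    constructor
    · have h2 : (star (ρ m g : lp D ∞) * (ρ m g : lp D ∞) : lp D ∞) = 1 :=
        Unitary.star_mul_self_of_mem (ρ m g).2
      exact congrArg (fun f : lp D ∞ => f m) h2
    · have h2 : ((ρ m g : lp D ∞) * star (ρ m g : lp D ∞) : lp D ∞) = 1 :=
        Unitary.mul_star_self_of_mem (ρ m g).2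
      exact congrArg (fun f : lp D ∞ => f m) h2
  · apply Subtype.ext
    show (ρ m 1 : lp D ∞) m = 1
    rw [map_one]
    rfl
  · intro g h
    apply Subtype.ext
    show (ρ m (g * h) : lp D ∞) m = (ρ m g : lp D ∞) m * (ρ m h : lp D ∞) m
    rw [map_mul]
    rfl
  · intro m hm g
    have h2 := hρ1 m hm g m
    have e : ((ρ m g : lp D ∞) - LiftVar_V m (v m g) : lp D ∞) m =
        (ρ m g : lp D ∞) m - v m g := by
      show (ρ m g : lp D ∞) m - (LiftVar_V m (v m g) : ∀ i, D i) m = _
      rw [LiftVar_self]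
    rw [e] at h2
    exact h2
  · intro g
    have h2 := (tendsto_zero_iff_norm_tendsto_zero.1 (hρ2 g))
    refine squeeze_zero (fun m => norm_nonneg _) (fun m => ?_) h2
    have e : ((ρ m g : lp D ∞) - LiftVar_V m (v m g) : lp D ∞) m =
        (ρ m g : lp D ∞) m - v m g := by
      show (ρ m g : lp D ∞) m - (LiftVar_V m (v m g) : ∀ i, D i) m = _
      rw [LiftVar_self]
    show ‖(ρ m g : lp D ∞) m - v m g‖ ≤ _
    rw [← e]
    exact lp.norm_apply_le_norm ENNReal.top_ne_zero _ m

end Pool.Agent.LibCS44
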