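import Pool.Agent.LibCS44.PathCharA
set_option autoImplicit false
namespace Pool.Agent.LibCS44
open Topology Filter
open scoped Matrix.Norms.L2Operator
open Pool.Agent.LibCS15 (CStarStable cocy)

/-- if the sum of `card` numbers of the circle is `card`, then all are `1` -/
private theorem circle_sum {ι : Type} [Fintype ι] (z : ι → Circle)
    (h : ∑ b, (z b : ℂ) = (Fintype.card ι : ℂ)) (b : ι) : z b = 1 := by
  have h1 : ∑ b, (1 - (z b : ℂ).re) = 0 := by
    have h2 := congrArg Complex.re h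
    rw [Complex.re_sum, Complex.natCast_re] at h2
    rw [Finset.sum_sub_distrib, h2]
    simp
  have h3 : ∀ b ∈ (Finset.univ : Finset ι), 0 ≤ 1 - (z b : ℂ).re := by
    intro b _
    have h4 := Complex.re_le_norm (z b : ℂ)
    rw [Circle.norm_coe] at h4
    linarith
  have h5 := (Finset.sum_eq_zero_iff_of_nonneg h3).mp h1 b (Finset.mem_univ b)
  have h6 : (z b : ℂ).re = 1 := by linarith
  have h7 : (z b : ℂ).re ^ 2 + (z b : ℂ).im ^ 2 = 1 := by
    have h8 := Complex.sq_norm (z b : ℂ)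
    rw [Circle.norm_coe, Complex.normSq_apply] at h8
    linarith
  have h9 : (z b : ℂ).im = 0 := by
    rw [h6] at h7
    have : (z b : ℂ).im ^ 2 = 0 := by linarith
    exact pow_eq_zero_iff (two_ne_zero) |>.mp this
  apply Circle.coe_injective
  rw [Circle.coe_one]
  exact Complex.ext (by rw [h6, Complex.one_re]) (by rw [h9, Complex.one_im])

/-- By `rigid` and `trace_indM` (with the normal subgroup `N ⊓ Q`): for `a ∈ N ∩ Q` and `m ≥ m₀`, `∑ b, χ m (cocy Q a b) = card (G ⧸ Q)`, so `χ m (cocy Q a b) = 1` for all `b`;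
for the coset `b` of `1`, `cocy Q a b = o⁻¹ a o` with `o = b.out ∈ Q`, so `χ m (cocy Q a b) = χ m a`. -/
theorem chars_trivial_N {G : Type} [Group G] [Countable G] (hG : CStarStable G)
    (S : Subgroup G) [S.FiniteIndex] (hS : Group.IsSolvable S) {N : Subgroup G} [N.Normal]
    (hN : Flat N) (Q : Subgroup G) [Q.Normal] [Q.FiniteIndex] (χ : ℕ → Q →* Circle)
    (hχ : ∀ q, ∃ m₀, ∀ m, m₀ ≤ m → χ m q = 1) :
    ∃ m₀, ∀ m, m₀ ≤ m → ∀ a : Q, (a : G) ∈ N → χ m a = 1 := by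
  classical
  let _ : Fintype (G ⧸ Q) := Fintype.ofFinite (G ⧸ Q)
  obtain ⟨m₀, R, hR, _⟩ := exists_paths hG Q χ hχ
  refine ⟨m₀, fun m hm a ha => ?_⟩
  have h1 := rigid S hS hN (R m) (a : G) ha 1
  rw [(hR m hm a).1, (hR m hm a).2] at h1
  have hle : N ⊓ Q ≤ Q := inf_le_right
  have hmem : (a : G) ∈ N ⊓ Q := ⟨ha, a.2⟩
  rw [trace_indM Q hle hmem, trace_indM Q hle hmem] at h1
  have h2 : ∑ b : G ⧸ Q, ((χ m (cocy Q a b) : Circle) : ℂ) = (Fintype.card (G ⧸ Q) : ℂ) := by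
    simpa [Matrix.trace_smul] using h1
  have h3 := circle_sum (fun b : G ⧸ Q => χ m (cocy Q a b)) h2 ((1 : G) : G ⧸ Q)
  have ho : (((1 : G) : G ⧸ Q)).out ∈ Q := by
    have h4 : ((((1 : G) : G ⧸ Q)).out : G ⧸ Q) = ((1 : G) : G ⧸ Q) := QuotientGroup.out_eq' _
    have h5 := QuotientGroup.eq.1 h4.symm
    simpa using h5
  have h6 : cocy Q (a : G) ((1 : G) : G ⧸ Q) = (⟨_, ho⟩ : Q)⁻¹ * a * ⟨_, ho⟩ := by
    apply Subtype.ext
    rw [cocy_of_mem_normal Q hle hmem]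
    rfl
  simp only [h6, map_mul, map_inv] at h3
  rw [mul_comm (χ m ⟨_, ho⟩)⁻¹ (χ m a), inv_mul_cancel_right] at h3
  exact h3

end Pool.Agent.LibCS44
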