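import Pool.Agent.LibCS44.PathCharA
set_option autoImplicit false
namespace Pool.Agent.LibCS44
open Topology Filter
open scoped Matrix.Norms.L2Operator
open Pool.Agent.LibCS15 (CStarStable cocy)

private theorem pc_indM_one {G : Type} [Group G] (Q : Subgroup G) [Q.Normal]
    [Fintype (G ⧸ Q)] [DecidableEq (G ⧸ Q)] (h : Q) :
    indM Q (fun _ => (1 : Matrix Unit Unit ℂ)) (h : G) = 1 := by
  unfold indM
  rw [← sum_blockE_one]
  refine Finset.sum_congr rfl fun a _ => ?_
  rw [Pool.Agent.LibCS15.smul_of_mem_normal Q h a]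

private theorem pc_entry {G : Type} [Group G] (Q : Subgroup G) [hQ : Q.Normal]
    [Fintype (G ⧸ Q)] [DecidableEq (G ⧸ Q)] (x : Q →* Circle) (h : Q)
    (e : indM Q (fun h => ((x h : ℂ)) • (1 : Matrix Unit Unit ℂ)) (h : G) = 1) : x h = 1 := by
  set c : G ⧸ Q := ((1 : G) : G ⧸ Q) with hc
  have h1 := congrFun (congrFun e (c, ())) (c, ())
  unfold indM at h1
  rw [Matrix.sum_apply, Matrix.one_apply_eq] at h1
  have h2 : ∀ a : G ⧸ Q, blockE ((h : G) • a) a
      (((x (cocy Q (h : G) a) : Circle) : ℂ) • (1 : Matrix Unit Unit ℂ)) (c, ()) (c, ()) =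
      if a = c then ((x (cocy Q (h : G) a) : Circle) : ℂ) else 0 := by
    intro a
    rw [blockE_apply, Pool.Agent.LibCS15.smul_of_mem_normal Q h a]
    by_cases hac : a = c
    · simp [hac]
    · rw [if_neg hac, if_neg]
      rintro ⟨h3, _⟩
      exact hac h3.symm
  rw [Finset.sum_congr rfl fun a _ => h2 a] at h1
  simp only [Finset.sum_ite_eq', Finset.mem_univ, if_true] at h1
  have ho : c.out ∈ Q := by
    have h4 : (c.out : G ⧸ Q) = ((1 : G) : G ⧸ Q) := QuotientGroup.out_eq' _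
    have h5 := QuotientGroup.eq.1 h4.symm
    simpa using h5
  have h6 : cocy Q (h : G) c = (⟨_, ho⟩ : Q)⁻¹ * h * ⟨_, ho⟩ := by
    rw [Pool.Agent.LibCS15.cocy_normal]
    apply Subtype.ext
    rfl
  rw [h6, map_mul, map_mul, map_inv, mul_comm (x ⟨_, ho⟩)⁻¹ (x h), inv_mul_cancel_right] at h1
  apply Circle.coe_injective
  rw [h1, Circle.coe_one]

/-- Suppose moreover that the characters are trivial on `N`, that `N` is the kernel of `b : Q → ℝ` and that `b` has rank one, `b l ≠ 0`.  By `rigid` and `eq_one_of_trace`, `R m a = 1` for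
`a ∈ N` and `m ≥ m₀` (the trace is constant equal to its value `card (G ⧸ Q)` at `0`, where `R m a 0 = 1`).  Let `h ∈ Q`: `R m h` and `R m l` commute (the commutator is in `N`), and
`h ^ p * (l ^ q)⁻¹ ∈ N` for some `p > 0`, `q`, so `(R m h) ^ p = (R m l) ^ q`.  For large `m` (not depending on `h`): `‖R m l - 1‖ < 2` and `R m l` is `1` at `1`.  By `Pool.Agent.LibCS15.path_rank`, `R m h` is `1` at `1`:
`indM Q (χ m) h = 1`, and so `χ m h = 1` (look at the diagonal entry for the coset of `1`). -/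
theorem chars_trivial_rank {G : Type} [Group G] [Countable G] (hG : CStarStable G)
    (S : Subgroup G) [S.FiniteIndex] (hS : Group.IsSolvable S) {N : Subgroup G} [N.Normal]
    (hN : Flat N) (Q : Subgroup G) [Q.Normal] [Q.FiniteIndex] (b : Q → ℝ) (hb : IsAddHom b)
    (hNb : ∀ h : Q, (h : G) ∈ N ↔ b h = 0)
    (hrank : ∀ h h' : Q, ∃ p q : ℤ, (p ≠ 0 ∨ q ≠ 0) ∧ p * b h + q * b h' = 0)
    (l : Q) (hl : b l ≠ 0) (χ : ℕ → Q →* Circle)
    (hχ : ∀ q, ∃ m₀, ∀ m, m₀ ≤ m → χ m q = 1)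
    (hχN : ∀ m a, b a = 0 → χ m a = 1) :
    ∃ m₀, ∀ m, m₀ ≤ m → χ m = 1 := by
  classical
  let _ : Fintype (G ⧸ Q) := Fintype.ofFinite (G ⧸ Q)
  obtain ⟨m₀, R, hR, hlim⟩ := exists_paths hG Q χ hχ
  -- `R m l` is close to `1`
  have h1 : ∃ m₁, ∀ m, m₁ ≤ m →
      ‖(R m l : C(unitInterval, Matrix ((G ⧸ Q) × Unit) ((G ⧸ Q) × Unit) ℂ)) - 1‖ < 2 := by
    have h2 := hlim (l : G)
    rw [pc_indM_one Q l] at h2
    have h3 := (Metric.tendsto_atTop.mp h2) 2 two_pos
    obtain ⟨m₁, hm₁⟩ := h3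
    refine ⟨m₁, fun m hm => ?_⟩
    have h4 := hm₁ m hm
    rw [dist_eq_norm] at h4
    exact h4
  obtain ⟨m₁, hm₁⟩ := h1
  -- `R m l` is `1` at `1`
  have h2 : ∃ m₂, ∀ m, m₂ ≤ m → ∀ a : G ⧸ Q, χ m (cocy Q (l : G) a) = 1 := by
    choose f hf using fun a : G ⧸ Q => hχ (cocy Q (l : G) a)
    refine ⟨Finset.univ.sup f, fun m hm a => ?_⟩
    exact hf a m (le_trans (Finset.le_sup (Finset.mem_univ a)) hm)
  obtain ⟨m₂, hm₂⟩ := h2
  -- the additive homomorphism
  let β : Additive Q →+ ℝ := AddMonoidHom.mk' (fun x => b x.toMul) (fun x y => hb _ _)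
  have hβ : ∀ x : Q, β (Additive.ofMul x) = b x := fun _ => rfl
  have hbz : ∀ (x : Q) (z : ℤ), b (x ^ z) = z * b x := by
    intro x z
    have h3 := map_zsmul β z (Additive.ofMul x)
    rw [zsmul_eq_mul] at h3
    exact h3
  have hbi : ∀ x : Q, b x⁻¹ = - b x := by
    intro x
    have h3 := hbz x (-1)
    simpa using h3
  refine ⟨max m₀ (max m₁ m₂), fun m hm => ?_⟩
  have hm0 : m₀ ≤ m := le_trans (le_max_left _ _) hm
  have hm1 : m₁ ≤ m := le_trans (le_trans (le_max_left _ _) (le_max_right _ _)) hm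
  have hm2 : m₂ ≤ m := le_trans (le_trans (le_max_right _ _) (le_max_right _ _)) hm
  -- `R m a = 1` on the kernel
  have hker : ∀ a : Q, b a = 0 → R m a = 1 := by
    intro a ha
    have haN : (a : G) ∈ N := (hNb a).mpr ha
    apply Subtype.ext
    apply ContinuousMap.ext
    intro s
    have h3 := rigid S hS hN (R m) (a : G) haN s
    rw [(hR m hm0 a).1, pc_indM_one Q a, Matrix.trace_one] at h3
    have h4 := eq_one_of_trace (evalRep (R m) s (a : G)) h3
    have h5 := congrArg Subtype.val h4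
    exact h5
  ext1 h
  -- the relation
  obtain ⟨p, q, hpq, he⟩ := hrank h l
  have hp : p ≠ 0 := by
    rintro rfl
    have hq : q ≠ 0 := by
      rcases hpq with h3 | h3
      · exact absurd rfl h3
      · exact h3
    rw [Int.cast_zero, zero_mul, zero_add] at he
    rcases mul_eq_zero.mp he with h3 | h3
    · exact hq (by exact_mod_cast h3)
    · exact hl h3
  have hcomm : R m h * R m l = R m l * R m h := by
    have h3 : b (h * l * h⁻¹ * l⁻¹) = 0 := by
      rw [hb, hb, hb, hbi, hbi]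
      ring
    have h4 := hker _ h3
    have h5 : R m (h * l * h⁻¹ * l⁻¹ : Q) = R m h * R m l * (R m h)⁻¹ * (R m l)⁻¹ := by
      rw [Subgroup.coe_mul, Subgroup.coe_mul, Subgroup.coe_mul, Subgroup.coe_inv, Subgroup.coe_inv,
        map_mul, map_mul, map_mul, map_inv, map_inv]
    rw [h5] at h4
    rw [mul_inv_eq_one] at h4
    exact mul_inv_eq_iff_eq_mul.mp h4
  have hpow : ∃ (n : ℕ) (M : ℤ), 0 < n ∧ (R m h) ^ n = (R m l) ^ M := by
    refine ⟨p.natAbs, -(Int.sign p * q), Int.natAbs_pos.mpr hp, ?_⟩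
    have h3 : b (h ^ (p.natAbs : ℤ) * l ^ (Int.sign p * q)) = 0 := by
      rw [hb, hbz, hbz]
      have h4 : ((p.natAbs : ℤ) : ℝ) = (Int.sign p : ℝ) * p := by
        have h5 : ((p.natAbs : ℕ) : ℤ) = Int.sign p * p := by
          rw [Int.natCast_natAbs, Int.sign_mul_self_eq_abs]
        rw [h5]
        push_cast
        ring
      rw [h4]
      push_cast
      calc (Int.sign p : ℝ) * p * b h + (Int.sign p : ℝ) * q * b l =
          (Int.sign p : ℝ) * (p * b h + q * b l) := by ring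
        _ = 0 := by rw [he, mul_zero]
    have h4 := hker _ h3
    rw [Subgroup.coe_mul, Subgroup.coe_zpow, Subgroup.coe_zpow, map_mul, map_zpow, map_zpow] at h4
    rw [zpow_neg, eq_inv_iff_mul_eq_one, ← zpow_natCast]
    exact h4
  obtain ⟨n, M, hn, hnM⟩ := hpow
  have hfin := Pool.Agent.LibCS15.path_rank (r := R m h) (s := R m l) hn M hcomm hnM (hm₁ m hm1)
    (by rw [(hR m hm0 h).1, pc_indM_one Q h]) (by rw [(hR m hm0 l).1, pc_indM_one Q l]) (by
      rw [(hR m hm0 l).2]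
      rw [← pc_indM_one Q l]
      unfold indM
      refine Finset.sum_congr rfl fun a _ => ?_
      change blockE ((l : G) • a) a
        (((χ m (cocy Q (l : G) a) : Circle) : ℂ) • (1 : Matrix Unit Unit ℂ)) = _
      rw [hm₂ m hm2 a, Circle.coe_one, one_smul])
  rw [(hR m hm0 h).2] at hfin
  rw [pc_entry Q (χ m) h hfin, MonoidHom.one_apply]

end Pool.Agent.LibCS44
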