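import Pool.Agent.LibCS44.RepFG
import Pool.Agent.LibCS44.PathVar
set_option autoImplicit false
namespace Pool.Agent.LibCS44
open scoped Matrix.Norms.L2Operator commutatorElement
open Pool.Agent.LibCS15 (CStarStable)

/-- Suppose `a ∈ N`, `a ∉ ⁅N, N⁆`.  Let `G m` be the subgroup generated by `t`, `a` and the first `m` elements of an enumeration of `G`.  `exists_rep_sub` gives `σ m : G m →* unitary (Matrix ..)` with
`1 ≤ ‖σ m a - 1‖`, and `approx_extend` gives representations `π m` of `G` with `‖π m a - σ m a‖ → 0`, but `π m a = 1`. -/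
theorem perfect_of_trivial {G : Type} [Group G] [Countable G] (hG : CStarStable G)
    {N : Subgroup G} [N.Normal] (H : Subgroup G) [H.FiniteIndex] (hNH : N ≤ H)
    (β : H →* Multiplicative ℤ) (hβ : ∀ h : H, β h = 1 ↔ (h : G) ∈ N) (t : H)
    (ht : β t = Multiplicative.ofAdd 1)
    (htriv : ∀ (n : Type) [Fintype n] [DecidableEq n] (π : G →* unitary (Matrix n n ℂ)),
      ∀ a ∈ N, π a = 1) : N ≤ ⁅N, N⁆ := by
  intro a ha
  by_contra ha'
  obtain ⟨e, he⟩ := exists_surjective_nat G
  let Gm : ℕ → Subgroup G := fun m =>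
    Subgroup.closure ({(t : G), a} ∪ e '' (Finset.range m : Set ℕ))
  have hfg : ∀ m, (Gm m).FG := fun m => by
    rw [Subgroup.fg_iff]
    exact ⟨_, rfl, (Set.toFinite _).union ((Finset.finite_toSet _).image _)⟩
  have hmono : Monotone Gm := by
    intro m m' h
    apply Subgroup.closure_mono
    apply Set.union_subset_union_right
    apply Set.image_mono
    intro k hk
    simp only [Finset.coe_range, Set.mem_Iio] at hk ⊢
    omega
  have hun : ∀ g, ∃ m, g ∈ Gm m := by
    intro g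
    obtain ⟨k, hk⟩ := he g
    refine ⟨k + 1, Subgroup.subset_closure (Or.inr ⟨k, ?_, hk⟩)⟩
    simp
  have htK : ∀ m, (t : G) ∈ Gm m := fun m => Subgroup.subset_closure (Or.inl (Or.inl rfl))
  have haK : ∀ m, a ∈ Gm m := fun m => Subgroup.subset_closure (Or.inl (Or.inr rfl))
  choose n hn1 hn2 hn3 σ hσ using fun m =>
    exists_rep_sub H hNH β hβ t ht (Gm m) (hfg m) (htK m) ⟨a, haK m⟩ ha ha'
  obtain ⟨π, hπ⟩ := approx_extend hG Gm hmono hun n σ
  obtain ⟨m₀, hm₀⟩ := hπ a 1 one_pos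
  have h1 := hm₀ m₀ le_rfl (haK m₀)
  rw [htriv (n m₀) (π m₀) a ha, OneMemClass.coe_one, norm_sub_rev] at h1
  exact absurd (hσ m₀) (not_le.2 h1)

end Pool.Agent.LibCS44
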