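import Pool.Agent.LibCS44.CaseB
import Pool.Agent.LibCS44.Perfect
import Pool.Agent.LibCS44.PathChar
import Pool.Agent.LibCS44.CharA
import Pool.Agent.LibCS44.FinA
import Pool.Agent.LibCS44.Grp
import Pool.Agent.LibCS15.Dependent
import Pool.Agent.LibCS15.GrpA
set_option autoImplicit false
namespace Pool.Agent.LibCS44
open Topology Filter
open scoped Matrix.Norms.L2Operator commutatorElement
open Pool.Agent.LibCS15 (CStarStable)

/-- `P ∩ Q` is finitely generated if `P` is and `Q` has finite index -/
theorem fg_subgroupOf {G : Type} [Group G] (P Q : Subgroup G) (hP : P.FG) [Q.FiniteIndex] :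
    (P.subgroupOf Q).FG := by
  have h0 : Group.FG P := (Group.fg_iff_subgroup_fg P).2 hP
  have h1 : Group.FG (Q.subgroupOf P) := Subgroup.fg_of_index_ne_zero _
  let f : Q.subgroupOf P →* P.subgroupOf Q :=
    { toFun := fun x => ⟨⟨((x : P) : G), x.2⟩, (x : P).2⟩
      map_one' := rfl
      map_mul' := fun _ _ => rfl }
  have hf : Function.Surjective f := fun y => ⟨⟨⟨((y : Q) : G), y.2⟩, (y : Q).2⟩, rfl⟩
  exact (Group.fg_iff_subgroup_fg _).1 (Group.fg_of_surjective hf)

/-- additive homomorphisms as homomorphisms to `Multiplicative ℝ` -/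
noncomputable def toMul {H : Type} [Group H] (b : H → ℝ) (hb : IsAddHom b) :
    H →* Multiplicative ℝ where
  toFun h := Multiplicative.ofAdd (b h)
  map_one' := by
    have := hb 1 1
    simp at this
    rw [this]; rfl
  map_mul' x y := by rw [hb]; rfl

section
variable {G : Type} [Group G] [Countable G] (hG : CStarStable G) (S : Subgroup G)
  [S.FiniteIndex] (hS : Group.IsSolvable S)
include hG hS

theorem finite_image {N : Subgroup G} [N.Normal] (hN : Flat N) (Q : Subgroup G) [Q.Normal]
    [Q.FiniteIndex] : (commutator Q).relIndex (N.subgroupOf Q) ≠ 0 := by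
  obtain ⟨e, he⟩ := exists_surjective_nat G
  let Gm : ℕ → Subgroup G := fun m => Subgroup.closure (e '' (Finset.range m : Set ℕ))
  have hfg : ∀ m, (Gm m).FG := fun m => by
    rw [Subgroup.fg_iff]
    exact ⟨_, rfl, (Finset.finite_toSet _).image _⟩
  have hmono : Monotone Gm := by
    intro m m' h
    apply Subgroup.closure_mono
    apply Set.image_mono
    intro k hk
    simp only [Finset.coe_range, Set.mem_Iio] at hk ⊢
    omega
  have hun : ∀ g, ∃ m, g ∈ Gm m := by
    intro g
    obtain ⟨k, hk⟩ := he g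
    refine ⟨k + 1, Subgroup.subset_closure ⟨k, ?_, hk⟩⟩
    simp
  obtain ⟨m, hm⟩ := le_of_chars (N.subgroupOf Q) (fun m => (Gm m).subgroupOf Q)
    (fun m m' h => Subgroup.comap_mono (hmono h))
    (fun q => by
      obtain ⟨m, hm⟩ := hun (q : G)
      exact ⟨m, hm⟩)
    (fun χ hχ => by
      obtain ⟨m₀, hm₀⟩ := chars_trivial_N hG S hS hN Q χ hχ
      exact ⟨m₀, fun m hm a ha => hm₀ m hm a ha⟩)
  refine relIndex_of_fg _ _ (fg_subgroupOf (Gm m) Q (hfg m)) hm ?_
  intro a ha
  exact exists_pow_mem_commutator a fun b hb => hN Q inferInstance b hb a ha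

/-- finite-dimensional representations are trivial on a minimal finite index subgroup of `N` -/
theorem trivial_on_minimal {N : Subgroup G} [N.Normal] (hN : Flat N) (B : Subgroup G) [B.Normal]
    (hBN : B ≤ N) (hB : B.relIndex N ≠ 0)
    (hmin : ∀ C : Subgroup G, C.Normal → C ≤ B → C.relIndex N ≠ 0 → C = B)
    {n : Type} [Fintype n] [DecidableEq n] (π : G →* unitary (Matrix n n ℂ)) (a : G)
    (ha : a ∈ B) : π a = 1 := by
  obtain ⟨P, hP, hcomm⟩ := virt_abelian S hS π
  let Q : Subgroup G := P.normalCore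
  have hQ : Q.FiniteIndex := inferInstance
  have hQn : Q.Normal := inferInstance
  have hfin := finite_image hG S hS hN Q
  -- the kernel
  let C : Subgroup G := B ⊓ (Q ⊓ π.ker)
  have hC : C = B := by
    apply hmin C inferInstance inf_le_left
    -- relative index
    have hker : (commutator Q).map Q.subtype ≤ π.ker := by
      rw [commutator_def, Subgroup.map_commutator, ← MonoidHom.range_eq_map, Subgroup.range_subtype,
        Subgroup.commutator_le]
      intro x hx y hy
      rw [MonoidHom.mem_ker, map_commutatorElement, commutatorElement_eq_one_iff_mul_comm]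
      exact hcomm x (Subgroup.normalCore_le P hx) y (Subgroup.normalCore_le P hy)
    have e1 : Q.relIndex N ≠ 0 := by
      have : (Q.subgroupOf N).FiniteIndex := inferInstance
      exact this.index_ne_zero
    have e3 : (N.subgroupOf Q).map Q.subtype = Q ⊓ N := by
      rw [Subgroup.subgroupOf_map_subtype, inf_comm]
    have e4 : ((commutator Q).map Q.subtype).relIndex (Q ⊓ N) ≠ 0 := by
      rw [← e3, Subgroup.relIndex_map_map_of_injective _ _ Q.subtype_injective]
      exact hfin
    have e5 : ((commutator Q).map Q.subtype ⊓ Q).relIndex N ≠ 0 := by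
      rw [← Subgroup.relIndex_inf_mul_relIndex]
      exact mul_ne_zero e4 e1
    have e6 : (B ⊓ ((commutator Q).map Q.subtype ⊓ Q)).relIndex N ≠ 0 :=
      Subgroup.relIndex_inf_ne_zero hB e5
    intro h0
    refine e6 (Subgroup.relIndex_eq_zero_of_le_left ?_ h0)
    exact le_inf inf_le_left (le_inf (inf_le_right.trans inf_le_right)
      ((inf_le_right.trans inf_le_left).trans hker))
  have : a ∈ C := by rw [hC]; exact ha
  exact this.2.2

/-- every countable virtually solvable `C*`-stable group is virtually cyclic -/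
theorem virt_cyclic : ∃ z : G, (Subgroup.zpowers z).FiniteIndex := by
  classical
  -- a normal solvable finite index subgroup
  let S₀ : Subgroup G := S.normalCore
  have hS₀n : S₀.Normal := inferInstance
  have hS₀f : S₀.FiniteIndex := inferInstance
  have hsub : ∀ H : Subgroup G, H ≤ S → Group.IsSolvable H := by
    intro H hH
    have h1 : Group.IsSolvable (H.subgroupOf S) := inferInstance
    exact Group.isSolvable_of_surjective (f := (Subgroup.subgroupOfEquivOfLe hH).toMonoidHom)
      (Subgroup.subgroupOfEquivOfLe hH).surjective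
  have hS₀ : Group.IsSolvable S₀ := hsub S₀ (Subgroup.normalCore_le S)
  have hprop : ∀ H' : Subgroup G, H'.FiniteIndex → H' ≤ S → ∀ b₁ b₂ : H' → ℝ, IsAddHom b₁ →
      IsAddHom b₂ → ∀ x y, b₁ x * b₂ y = b₁ y * b₂ x := by
    intro H' hf hle b₁ b₂ hb₁ hb₂ x y
    have h1 : Group.IsSolvable H' := hsub H' hle
    have h2 : Group.IsSolvable (⊤ : Subgroup (⊤ : Subgroup H')) := inferInstance
    exact Pool.Agent.LibCS15.dependent hG H' ⊤ ⊤ h2 b₁ b₂ hb₁ hb₂ x y trivial trivial
  by_cases hα : ∀ (P : Subgroup G), P.FiniteIndex → ∀ b : P → ℝ, IsAddHom b → ∀ a, b a = 0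
  · -- no homomorphisms to `ℝ`
    have hflat : Flat S₀ := fun P hP b hb a _ => hα P hP b hb a
    have hfin : Finite G := by
      refine finite_of_derived S₀ hS₀ fun Q hQn hQf hQle => ?_
      have h1 := finite_image hG S hS hflat Q
      rw [Subgroup.subgroupOf_eq_top.2 hQle, Subgroup.relIndex_top_right] at h1
      exact ⟨h1⟩
    exact ⟨1, inferInstance⟩
  · push Not at hα
    obtain ⟨P, hP, b₀, hb₀, a₀, ha₀⟩ := hα
    let H : Subgroup G := (P ⊓ S).normalCore
    have hHn : H.Normal := inferInstance
    have hHf : H.FiniteIndex := inferInstance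
    have hHP : H ≤ P := (Subgroup.normalCore_le _).trans inf_le_left
    have hHS : H ≤ S := (Subgroup.normalCore_le _).trans inf_le_right
    let b : H → ℝ := fun h => b₀ ⟨h, hHP h.2⟩
    have hb : IsAddHom b := fun x y => hb₀ ⟨x, hHP x.2⟩ ⟨y, hHP y.2⟩
    have hbn : ∃ h, b h ≠ 0 := by
      have hpow : ∀ k : ℕ, b₀ (a₀ ^ k) = k * b₀ a₀ := by
        intro k
        induction k with
        | zero =>
          have := hb₀ 1 1
          simp at this
          simp [this]
        | succ k ih => rw [pow_succ, hb₀, ih]; push_cast; ring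
      obtain ⟨k, hk, -, hk'⟩ := Subgroup.exists_pow_mem_of_relIndex_ne_zero
        (H := H) (K := P) (by
          have : (H.subgroupOf P).FiniteIndex := inferInstance
          exact this.index_ne_zero) a₀.2
      refine ⟨⟨(a₀ : G) ^ k, hk'.1⟩, ?_⟩
      show b₀ (a₀ ^ k) ≠ 0
      rw [hpow]
      exact mul_ne_zero (Nat.cast_ne_zero.2 hk.ne') ha₀
    obtain ⟨N, hNn, hNH, hN⟩ := exists_kernel H b hb hbn (hprop H hHf hHS)
    have hflat : Flat N := flat_kernel S H hHS b hb hbn hprop N hNH hN
    have hrank : ∀ h h' : H, ∃ p q : ℤ, (p ≠ 0 ∨ q ≠ 0) ∧ p * b h + q * b h' = 0 := by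
      intro h h'
      obtain ⟨p, q, hpq, hc⟩ := Pool.Agent.LibCS15.exists_relation (hprop H hHf hHS) h h'
      refine ⟨p, q, hpq, ?_⟩
      have e1 := Abelianization.commutator_subset_ker (toMul b hb) hc
      rw [MonoidHom.mem_ker, map_mul, map_zpow, map_zpow] at e1
      have e2 := congrArg Multiplicative.toAdd e1
      simp only [toAdd_mul, toAdd_zpow, toAdd_one, zsmul_eq_mul] at e2
      exact e2
    obtain ⟨l, hl⟩ := hbn
    obtain ⟨t, ht⟩ := cyclic_of_chars b hb hrank (fun χ hχ hχN =>
      chars_trivial_rank hG S hS hflat H b hb hN hrank l hl χ hχ hχN)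
    obtain ⟨β, hβt, hβ⟩ := exists_beta b hb ⟨l, hl⟩ t ht
    have hβN : ∀ h : H, β h = 1 ↔ (h : G) ∈ N := fun h => (hβ h).trans (hN h).symm
    by_cases hNfin : Finite N
    · exact ⟨t, zpowers_finiteIndex H β hβN t hβt hNfin⟩
    · exfalso
      have hNs : Group.IsSolvable N := hsub N (hNH.trans hHS)
      obtain ⟨B, hBn, hBN, hBi, hmin⟩ := exists_minimal N hNs (by
        intro B hBn hBN hBi
        obtain ⟨H', β', t', hf', hBH', hβ', ht'⟩ := sub_datum H hNH β hβN t hβt B hBN hBi
        exact caseB hG S hS (flat_mono hflat hBN) H' hBH' β' hβ' t' ht')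
      obtain ⟨H', β', t', hf', hBH', hβ', ht'⟩ := sub_datum H hNH β hβN t hβt B hBN hBi
      have hperf := perfect_of_trivial hG H' hBH' β' hβ' t' ht' (fun n _ _ π a ha =>
        trivial_on_minimal hG S hS hflat B hBN hBi hmin π a ha)
      have hBs : Group.IsSolvable B := hsub B (hBN.trans (hNH.trans hHS))
      have hbot := eq_bot_of_perfect B hBs hperf
      rw [hbot, Subgroup.relIndex_bot_left] at hBi
      exact hNfin (Nat.finite_of_card_ne_zero hBi)

end

end Pool.Agent.LibCS44
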