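import Mathlib
set_option autoImplicit false
namespace Pool.Agent.LibCS44

private theorem jacobson_int : IsJacobsonRing ℤ := by
  rw [isJacobsonRing_iff_prime_eq]
  intro P hP
  by_cases h : P = ⊥
  · subst h
    refine le_antisymm ?_ Ideal.le_jacobson
    intro x hx
    rw [Ideal.mem_jacobson_bot] at hx
    have h1 := hx (2 * x)
    rw [Int.isUnit_iff] at h1
    rw [Ideal.mem_bot]
    rcases h1 with h1 | h1
    · have h2 : x * x = 0 := by linarith
      exact mul_self_eq_zero.1 h2
    · nlinarith [mul_self_nonneg x]
  · have : P.IsMaximal := hP.isMaximal h
    exact Ideal.jacobson_eq_self_of_isMaximal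

/-- A field which is a finitely generated ring is finite (`finite_of_finite_type_of_isJacobsonRing ℤ`: it is a finitely generated abelian group; a field of characteristic zero is not) -/
theorem finite_field {K : Type} [Field K] [Algebra.FiniteType ℤ K] : Finite K := by
  have hJ := jacobson_int
  have hfin : Module.Finite ℤ K := finite_of_finite_type_of_isJacobsonRing ℤ K
  obtain ⟨p, hp⟩ := CharP.exists K
  rcases CharP.char_is_prime_or_zero K p with hprime | h0
  · have : Fact p.Prime := ⟨hprime⟩
    let _ : Algebra (ZMod p) K := ZMod.algebra K p
    have : Module.Finite (ZMod p) K := Module.Finite.of_restrictScalars_finite ℤ (ZMod p) K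
    exact Module.finite_of_finite (ZMod p)
  · subst h0
    have : CharZero K := CharP.charP_to_charZero K
    exfalso
    have hint : Algebra.IsIntegral ℤ K := Algebra.IsIntegral.of_finite ℤ K
    have hinj : Function.Injective (algebraMap ℤ K) := by
      simpa using Int.cast_injective (α := K)
    exact Int.not_isField (isField_of_isIntegral_of_isField hinj (Field.toIsField K))

end Pool.Agent.LibCS44
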