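import Pool.Agent.LibCS44.ModA2
set_option autoImplicit false
namespace Pool.Agent.LibCS44

/-- Finitely generated modules over finitely generated commutative rings are residually finite: let `I` be a maximal ideal containing the annihilator of `a`
(`≠ ⊤` since `a ≠ 0`).  By Krull's intersection theorem (`Ideal.mem_iInf_smul_pow_eq_bot_iff`) `a ∉ I ^ k • ⊤` for some `k`: otherwise `r • a = a` for some
`r ∈ I`, so `1 - r ∈ I`.  `R ⧸ I` is finite (`finite_field`), `R ⧸ I ^ k` is finite (`Ideal.finite_quotient_pow`), and `M ⧸ I ^ k • ⊤` is a finitely generated module over it. -/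
theorem exists_finite_quotient {R M : Type} [CommRing R] [Algebra.FiniteType ℤ R]
    [AddCommGroup M] [Module R M] [Module.Finite R M] (a : M) (ha : a ≠ 0) :
    ∃ M' : Submodule R M, Finite (M ⧸ M') ∧ a ∉ M' := by
  have hR : IsNoetherianRing R := Algebra.FiniteType.isNoetherianRing ℤ R
  have hne : (LinearMap.ker (LinearMap.toSpanSingleton R M a) : Ideal R) ≠ ⊤ := by
    intro h
    have h1 : (1 : R) ∈ LinearMap.ker (LinearMap.toSpanSingleton R M a) := by
      rw [h]
      trivial
    rw [LinearMap.mem_ker, LinearMap.toSpanSingleton_apply, one_smul] at h1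
    exact ha h1
  obtain ⟨I, hI, hle⟩ := Ideal.exists_le_maximal _ hne
  have h0 : Algebra.FiniteType ℤ (R ⧸ I) :=
    Algebra.FiniteType.of_surjective (R := ℤ) (Ideal.Quotient.mkₐ ℤ I)
      (Ideal.Quotient.mkₐ_surjective ℤ I)
  have hfin : Finite (R ⧸ I) := by
    refine @finite_field (R ⧸ I) (Ideal.Quotient.field I) ?_
    convert h0 using 1
    · rfl
    · refine Algebra.algebra_ext _ _ ?_
      intro n
      exact (eq_intCast (@algebraMap ℤ (R ⧸ I) _ _ (Ring.toIntAlgebra (R ⧸ I))) n).trans
        (eq_intCast (@algebraMap ℤ (R ⧸ I) _ _ (Ideal.instAlgebraQuotient ℤ I)) n).symm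
  have hnot : ∃ n : ℕ, a ∉ (I ^ n • ⊤ : Submodule R M) := by
    by_contra hcon
    push Not at hcon
    have h1 : a ∈ (⨅ i : ℕ, I ^ i • ⊤ : Submodule R M) := by
      rw [Submodule.mem_iInf]
      exact hcon
    obtain ⟨r, hr⟩ := (Ideal.mem_iInf_smul_pow_eq_bot_iff I a).1 h1
    have h2 : (1 - (r : R)) ∈ LinearMap.ker (LinearMap.toSpanSingleton R M a) := by
      rw [LinearMap.mem_ker, LinearMap.toSpanSingleton_apply, sub_smul, one_smul, hr, sub_self]
    have h3 := hle h2
    apply hI.ne_top
    rw [Ideal.eq_top_iff_one]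
    have h4 := I.add_mem h3 r.2
    simpa using h4
  obtain ⟨n, hn⟩ := hnot
  have hpow : Finite (R ⧸ I ^ n) := Ideal.finite_quotient_pow (IsNoetherian.noetherian I) n
  have htop : Finite (M ⧸ (⊤ : Submodule R M)) := inferInstance
  exact ⟨_, Submodule.finite_quotient_smul (I ^ n) Module.Finite.fg_top, hn⟩

end Pool.Agent.LibCS44
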