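import Mathlib
set_option autoImplicit false
namespace Pool.Agent.LibCS44

/-- no small subgroups: if `‖z - 1‖ < 1` then `‖z ^ 2 - 1‖ = ‖z - 1‖ * ‖z + 1‖ ≥ (3 / 2) * ‖z - 1‖`; iterate -/
theorem exists_pow_norm (z : Circle) (hz : z ≠ 1) :
    ∃ j : ℕ, 1 ≤ ‖((z ^ j : Circle) : ℂ) - 1‖ := by
  by_contra hcon
  push Not at hcon
  have hz0 : 0 < ‖(z : ℂ) - 1‖ := by
    rw [norm_pos_iff, sub_ne_zero]
    intro h
    exact hz (Circle.ext (by simpa using h))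
  have key : ∀ w : Circle, ‖(w : ℂ) - 1‖ < 1 →
      (3 / 2) * ‖(w : ℂ) - 1‖ ≤ ‖((w ^ 2 : Circle) : ℂ) - 1‖ := by
    intro w hw
    have hpar := parallelogram_law_with_norm ℝ (w : ℂ) 1
    have hw1 : ‖(w : ℂ)‖ = 1 := Circle.norm_coe w
    rw [hw1, norm_one] at hpar
    have h0 : 0 ≤ ‖(w : ℂ) - 1‖ := norm_nonneg _
    have h1 : 0 ≤ ‖(w : ℂ) + 1‖ := norm_nonneg _
    have h2 : (3 / 2 : ℝ) ≤ ‖(w : ℂ) + 1‖ := by nlinarith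
    have h3 : (((w ^ 2 : Circle) : ℂ) - 1) = ((w : ℂ) - 1) * ((w : ℂ) + 1) := by
      rw [Circle.coe_pow]
      ring
    rw [h3, norm_mul]
    nlinarith
  have hgrow : ∀ n : ℕ, (3 / 2 : ℝ) ^ n * ‖(z : ℂ) - 1‖ ≤ ‖((z ^ (2 ^ n) : Circle) : ℂ) - 1‖ := by
    intro n
    induction n with
    | zero => simp
    | succ n ih =>
      have h1 := key (z ^ (2 ^ n)) (hcon _)
      rw [← pow_mul, ← pow_succ] at h1
      calc (3 / 2 : ℝ) ^ (n + 1) * ‖(z : ℂ) - 1‖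
          = (3 / 2) * ((3 / 2 : ℝ) ^ n * ‖(z : ℂ) - 1‖) := by ring
        _ ≤ (3 / 2) * ‖((z ^ (2 ^ n) : Circle) : ℂ) - 1‖ := by linarith
        _ ≤ _ := h1
  obtain ⟨n, hn⟩ := pow_unbounded_of_one_lt (1 / ‖(z : ℂ) - 1‖) (by norm_num : (1 : ℝ) < 3 / 2)
  have h1 := hgrow n
  have h2 := hcon (2 ^ n)
  rw [div_lt_iff₀ hz0] at hn
  linarith

end Pool.Agent.LibCS44
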