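import Pool.Agent.LibCS44.ModA3
set_option autoImplicit false
namespace Pool.Agent.LibCS44
open scoped commutatorElement

section
variable {H : Type} [Group H] (N : Subgroup H)

/-- the class of an element of `N` -/
private def cls (x : N) : Additive (Abelianization N) := Additive.ofMul (Abelianization.of x)

private theorem cls_mul (x y : N) : cls N (x * y) = cls N x + cls N y := by
  simp [cls]

private theorem cls_inv (x : N) : cls N x⁻¹ = - cls N x := by
  simp [cls]

private theorem cls_one : cls N 1 = 0 := by
  simp [cls]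

private theorem cls_surj : Function.Surjective (cls N) := by
  intro m
  obtain ⟨x, hx⟩ := QuotientGroup.mk_surjective (Additive.toMul m)
  exact ⟨x, Additive.toMul.injective hx⟩

/-- conjugation on the abelianization -/
private noncomputable def act [N.Normal] : H →* Module.End ℤ (Additive (Abelianization N)) where
  toFun h := (MonoidHom.toAdditive (Abelianization.map
    (MulAut.conjNormal h : N ≃* N).toMonoidHom)).toIntLinearMap
  map_one' := by
    apply LinearMap.ext
    intro x
    obtain ⟨x, rfl⟩ := cls_surj N x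
    apply Additive.toMul.injective
    change Abelianization.map _ (Abelianization.of x) = Abelianization.of x
    rw [Abelianization.map_of]
    congr 1
    ext
    simp
  map_mul' g h := by
    apply LinearMap.ext
    intro x
    obtain ⟨x, rfl⟩ := cls_surj N x
    apply Additive.toMul.injective
    change Abelianization.map _ (Abelianization.of x) =
      Abelianization.map _ (Abelianization.map _ (Abelianization.of x))
    rw [Abelianization.map_of, Abelianization.map_of, Abelianization.map_of]
    congr 1
    ext
    simp [mul_assoc]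

private theorem act_cls [N.Normal] (h : H) (x : N) :
    act N h (cls N x) = cls N (MulAut.conjNormal h x) := rfl

end

/-- Let `N = β.ker`, `M = Additive (Abelianization N)`, a module over `R = MvPolynomial (Fin 2) ℤ` where the two variables act by conjugation with `t` and with `t⁻¹`
(`Module.compHom` along `MvPolynomial.aeval` into the endomorphism ring; the two endomorphisms commute).  It is finitely generated: if `H` is generated by `h₁, ..., h_r` and `h_i = n_i t ^ k_i`, `n_i ∈ N`,
then the elements `b t ^ k` with `b ∈ N` in the preimage of the submodule generated by the `n_i` form a subgroup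
containing the `h_i`.  Apply `exists_finite_quotient` to the class of `a`, and let `K` be the preimage of `M'` in `N`. -/
theorem exists_invariant_subgroup {H : Type} [Group H] [Group.FG H]
    (β : H →* Multiplicative ℤ) (t : H) (ht : β t = Multiplicative.ofAdd 1) (a : H)
    (ha : β a = 1) (ha' : a ∉ (⁅β.ker, β.ker⁆ : Subgroup H)) :
    ∃ K : Subgroup H, K ≤ β.ker ∧ ⁅β.ker, β.ker⁆ ≤ K ∧
      (∀ b ∈ K, t * b * t⁻¹ ∈ K ∧ t⁻¹ * b * t ∈ K) ∧ K.relIndex β.ker ≠ 0 ∧ a ∉ K := by
  classical
  let ρ : Multiplicative ℤ →* Module.End ℤ (Additive (Abelianization β.ker)) :=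
    (act β.ker).comp (zpowersHom H t)
  let _ : Module (AddMonoidAlgebra ℤ ℤ) (Additive (Abelianization β.ker)) :=
    Module.compHom _ (AddMonoidAlgebra.lift ℤ _ ℤ ρ).toRingHom
  have hsm : ∀ (k : ℤ) (m : Additive (Abelianization β.ker)),
      (AddMonoidAlgebra.single k (1 : ℤ) : AddMonoidAlgebra ℤ ℤ) • m = act β.ker (t ^ k) m := by
    intro k m
    change (AddMonoidAlgebra.lift ℤ _ ℤ ρ (AddMonoidAlgebra.single k (1 : ℤ))) m = _
    rw [AddMonoidAlgebra.lift_single]
    simp [ρ]
  have hk : ∀ x : H, x * t ^ (-(Multiplicative.toAdd (β x))) ∈ β.ker := by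
    intro x
    rw [MonoidHom.mem_ker, map_mul, map_zpow, ht]
    apply Multiplicative.toAdd.injective
    simp
  let δ : H → Additive (Abelianization β.ker) := fun x => cls β.ker ⟨_, hk x⟩
  have hδ : ∀ x y, δ (x * y) = δ x + act β.ker (t ^ (Multiplicative.toAdd (β x))) (δ y) := by
    intro x y
    simp only [δ]
    rw [act_cls, ← cls_mul]
    congr 1
    ext
    simp only [map_mul, toAdd_mul, Subgroup.coe_mul, MulAut.conjNormal_apply]
    rw [neg_add_rev, zpow_add]
    group
  have hδ1 : δ 1 = 0 := by
    rw [← cls_one β.ker]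
    simp only [δ]
    congr 1
    ext
    simp
  have hδN : ∀ (x : H) (hx : x ∈ β.ker), δ x = cls β.ker ⟨x, hx⟩ := by
    intro x hx
    simp only [δ]
    congr 1
    ext
    rw [MonoidHom.mem_ker] at hx
    simp [hx]
  -- finite generation
  obtain ⟨S, hS⟩ := Group.FG.out (G := H)
  let P : Submodule (AddMonoidAlgebra ℤ ℤ) (Additive (Abelianization β.ker)) :=
    Submodule.span _ ((S.image δ : Finset (Additive (Abelianization β.ker))) : Set _)
  have hPact : ∀ (k : ℤ) (m : Additive (Abelianization β.ker)), m ∈ P →
      act β.ker (t ^ k) m ∈ P := by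
    intro k m hm
    rw [← hsm]
    exact P.smul_mem _ hm
  let L : Subgroup H :=
    { carrier := {x | δ x ∈ P}
      one_mem' := by
        change δ 1 ∈ P
        rw [hδ1]
        exact P.zero_mem
      mul_mem' := by
        intro x y hx hy
        change δ (x * y) ∈ P
        rw [hδ]
        exact P.add_mem hx (hPact _ _ hy)
      inv_mem' := by
        intro x hx
        change δ x⁻¹ ∈ P
        have h1 := hδ x⁻¹ x
        rw [inv_mul_cancel, hδ1] at h1
        have h2 : δ x⁻¹ = - act β.ker (t ^ (Multiplicative.toAdd (β x⁻¹))) (δ x) := by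
          rw [eq_neg_iff_add_eq_zero]
          exact h1.symm
        rw [h2]
        exact P.neg_mem (hPact _ _ hx) }
  have hL : L = ⊤ := by
    rw [eq_top_iff, ← hS, Subgroup.closure_le]
    intro x hx
    change δ x ∈ P
    exact Submodule.subset_span (by
      rw [Finset.coe_image]
      exact ⟨x, hx, rfl⟩)
  have hPtop : P = ⊤ := by
    rw [eq_top_iff]
    intro m _
    obtain ⟨x, rfl⟩ := cls_surj β.ker m
    have h1 : (x : H) ∈ L := by
      rw [hL]
      trivial
    have h2 : δ (x : H) ∈ P := h1
    rwa [hδN _ x.2] at h2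
  have hfin : Module.Finite (AddMonoidAlgebra ℤ ℤ) (Additive (Abelianization β.ker)) :=
    ⟨⟨_, hPtop⟩⟩
  have hne : cls β.ker ⟨a, MonoidHom.mem_ker.2 ha⟩ ≠ 0 := by
    intro h
    apply ha'
    have h1 : (⟨a, MonoidHom.mem_ker.2 ha⟩ : β.ker) ∈ commutator β.ker :=
      (QuotientGroup.eq_one_iff _).1 (Additive.ofMul.injective h)
    rw [← Subgroup.map_subtype_commutator]
    exact ⟨_, h1, rfl⟩
  have hft : Algebra.FiniteType ℤ (AddMonoidAlgebra ℤ ℤ) := inferInstance
  have hft' : @Algebra.FiniteType ℤ (AddMonoidAlgebra ℤ ℤ) _ _ (Ring.toIntAlgebra _) := by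
    convert hft using 1
    · rfl
    · refine @Algebra.algebra_ext ℤ _ (AddMonoidAlgebra ℤ ℤ) _ _ _ ?_
      intro n
      exact (eq_intCast (@algebraMap ℤ (AddMonoidAlgebra ℤ ℤ) _ _ (Ring.toIntAlgebra _)) n).trans
        (eq_intCast (@algebraMap ℤ (AddMonoidAlgebra ℤ ℤ) _ _ AddMonoidAlgebra.algebra) n).symm
  obtain ⟨M', hM', haM'⟩ := @exists_finite_quotient (AddMonoidAlgebra ℤ ℤ) _ _ hft' _ _ hfin _ hne
  let K' : Subgroup β.ker :=
    { carrier := {x | cls β.ker x ∈ M'}
      one_mem' := by
        change cls β.ker 1 ∈ M'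
        rw [cls_one]
        exact M'.zero_mem
      mul_mem' := by
        intro x y hx hy
        change cls β.ker (x * y) ∈ M'
        rw [cls_mul]
        exact M'.add_mem hx hy
      inv_mem' := by
        intro x hx
        change cls β.ker x⁻¹ ∈ M'
        rw [cls_inv]
        exact M'.neg_mem hx }
  have hact : ∀ (k : ℤ) (m : Additive (Abelianization β.ker)), m ∈ M' →
      act β.ker (t ^ k) m ∈ M' := by
    intro k m hm
    rw [← hsm]
    exact M'.smul_mem _ hm
  refine ⟨K'.map β.ker.subtype, Subgroup.map_subtype_le K', ?_, ?_, ?_, ?_⟩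
  · rw [← Subgroup.map_subtype_commutator]
    refine Subgroup.map_mono ?_
    intro x hx
    change cls β.ker x ∈ M'
    have h1 : cls β.ker x = 0 := by
      have h2 : (Abelianization.of x) = 1 := (QuotientGroup.eq_one_iff _).2 hx
      simp [cls, h2]
    rw [h1]
    exact M'.zero_mem
  · rintro _ ⟨x, hx, rfl⟩
    constructor
    · refine ⟨MulAut.conjNormal t x, ?_, ?_⟩
      · have h1 := hact 1 _ hx
        rw [zpow_one, act_cls] at h1
        exact h1
      · simp
    · refine ⟨MulAut.conjNormal t⁻¹ x, ?_, ?_⟩
      · have h1 := hact (-1) _ hx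
        rw [zpow_neg, zpow_one, act_cls] at h1
        exact h1
      · simp
  · have h1 : (K'.map β.ker.subtype).relIndex β.ker = K'.index := by
      rw [Subgroup.relIndex]
      congr 1
      exact Subgroup.comap_map_eq_self_of_injective β.ker.subtype_injective K'
    rw [h1]
    have h2 : ∀ x y : β.ker, (x : β.ker ⧸ K') = (y : β.ker ⧸ K') ↔
        (Submodule.Quotient.mk (cls β.ker x) : _ ⧸ M') = Submodule.Quotient.mk (cls β.ker y) := by
      intro x y
      rw [QuotientGroup.eq, Submodule.Quotient.eq']
      change cls β.ker (x⁻¹ * y) ∈ M' ↔ _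
      rw [cls_mul, cls_inv]
    have h3 : Finite (β.ker ⧸ K') := by
      refine Finite.of_injective (β := _ ⧸ M') (fun q => Submodule.Quotient.mk
        (cls β.ker q.out)) ?_
      intro q r hqr
      have h4 := (h2 q.out r.out).2 hqr
      rwa [QuotientGroup.out_eq', QuotientGroup.out_eq'] at h4
    exact Subgroup.index_ne_zero_of_finite
  · rintro ⟨x, hx, hxa⟩
    apply haM'
    have h1 : x = ⟨a, MonoidHom.mem_ker.2 ha⟩ := Subtype.ext hxa
    rw [← h1]
    exact hx

end Pool.Agent.LibCS44
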