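import Pool.Agent.LibCS44.Rigid
import Pool.Agent.LibCS44.IndM
import Pool.Agent.LibCS15.PathA
import Pool.Agent.LibCS15.PathB
set_option autoImplicit false
namespace Pool.Agent.LibCS44
open Topology Filter
open scoped Matrix.Norms.L2Operator
open Pool.Agent.LibCS15 (CStarStable cocy)

/-- The set up for the next theorems.  Let `ρ m` be the representation induced (`ind_rep`, `n = Unit`) by the character `χ m` and `ρ₀` the one induced by
the trivial character.  For every `g` the finitely many `cocy Q g a` are killed by `χ m` for large `m`, so `ρ m g = ρ₀ g` for large `m`; apply `Pool.Agent.LibCS15.path_lemma`. -/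
theorem exists_paths {G : Type} [Group G] [Countable G] (hG : CStarStable G) (Q : Subgroup G)
    [Fintype (G ⧸ Q)] [DecidableEq (G ⧸ Q)] (χ : ℕ → Q →* Circle)
    (hχ : ∀ q, ∃ m₀, ∀ m, m₀ ≤ m → χ m q = 1) :
    ∃ (m₀ : ℕ) (R : ℕ → G →* unitary C(unitInterval, Matrix ((G ⧸ Q) × Unit) ((G ⧸ Q) × Unit) ℂ)),
      (∀ m, m₀ ≤ m → ∀ g,
        (R m g : C(unitInterval, Matrix ((G ⧸ Q) × Unit) ((G ⧸ Q) × Unit) ℂ)) 0 =
          indM Q (fun _ => (1 : Matrix Unit Unit ℂ)) g ∧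
        (R m g : C(unitInterval, Matrix ((G ⧸ Q) × Unit) ((G ⧸ Q) × Unit) ℂ)) 1 =
          indM Q (fun h => ((χ m h : ℂ)) • (1 : Matrix Unit Unit ℂ)) g) ∧
      (∀ g, Tendsto (fun m => (R m g : C(unitInterval, Matrix ((G ⧸ Q) × Unit) ((G ⧸ Q) × Unit) ℂ)))
        atTop (𝓝 (ContinuousMap.const _ (indM Q (fun _ => (1 : Matrix Unit Unit ℂ)) g)))) := by
  -- the characters as unitary representations
  have hex : ∀ m, ∃ v : Q →* unitary (Matrix Unit Unit ℂ),
      ∀ h, (v h : Matrix Unit Unit ℂ) = ((χ m h : ℂ)) • (1 : Matrix Unit Unit ℂ) := by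
    intro m
    refine ⟨
      { toFun := fun h => ⟨((χ m h : ℂ)) • (1 : Matrix Unit Unit ℂ), ?_⟩
        map_one' := ?_
        map_mul' := ?_ }, fun h => rfl⟩
    · have hc : star (χ m h : ℂ) * (χ m h : ℂ) = 1 := by
        rw [Complex.star_def, mul_comm, Complex.mul_conj, Circle.normSq_coe, Complex.ofReal_one]
      have hc' : (χ m h : ℂ) * star (χ m h : ℂ) = 1 := by rw [mul_comm, hc]
      rw [Unitary.mem_iff, star_smul, star_one]
      constructor
      · rw [smul_mul_smul_comm, mul_one, hc, one_smul]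
      · rw [smul_mul_smul_comm, mul_one, hc', one_smul]
    · apply Subtype.ext
      show ((χ m 1 : ℂ)) • (1 : Matrix Unit Unit ℂ) = 1
      rw [map_one, Circle.coe_one, one_smul]
    · intro g h
      apply Subtype.ext
      show ((χ m (g * h) : ℂ)) • (1 : Matrix Unit Unit ℂ) =
        (((χ m g : ℂ)) • (1 : Matrix Unit Unit ℂ)) * (((χ m h : ℂ)) • (1 : Matrix Unit Unit ℂ))
      rw [map_mul, Circle.coe_mul, smul_mul_smul_comm, mul_one]
  choose v hv using hex
  choose ρ hρ using fun m => ind_rep Q (v m)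
  obtain ⟨ρ₀, hρ₀⟩ := ind_rep Q (1 : Q →* unitary (Matrix Unit Unit ℂ))
  have hρ' : ∀ m g, (ρ m g : Matrix ((G ⧸ Q) × Unit) ((G ⧸ Q) × Unit) ℂ) =
      indM Q (fun h => ((χ m h : ℂ)) • (1 : Matrix Unit Unit ℂ)) g := by
    intro m g
    rw [hρ m g]
    congr 1
    funext h
    exact hv m h
  have hρ₀' : ∀ g, (ρ₀ g : Matrix ((G ⧸ Q) × Unit) ((G ⧸ Q) × Unit) ℂ) =
      indM Q (fun _ => (1 : Matrix Unit Unit ℂ)) g := fun g => hρ₀ g
  have hlim : ∀ g, Tendsto (fun m => (ρ m g : Matrix ((G ⧸ Q) × Unit) ((G ⧸ Q) × Unit) ℂ)) atTop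
      (𝓝 (ρ₀ g : Matrix ((G ⧸ Q) × Unit) ((G ⧸ Q) × Unit) ℂ)) := by
    intro g
    have hall : ∀ᶠ m in atTop, ∀ a : G ⧸ Q, χ m (cocy Q g a) = 1 := by
      rw [Filter.eventually_all]
      intro a
      obtain ⟨m₀, hm₀⟩ := hχ (cocy Q g a)
      filter_upwards [eventually_ge_atTop m₀] with m hm
      exact hm₀ m hm
    refine tendsto_const_nhds.congr' ?_
    filter_upwards [hall] with m hm
    rw [hρ', hρ₀']
    unfold indM
    refine Finset.sum_congr rfl fun a _ => ?_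
    have e : ((χ m (cocy Q g a) : ℂ)) • (1 : Matrix Unit Unit ℂ) = 1 := by
      rw [hm a, Circle.coe_one, one_smul]
    show blockE (g • a) a (1 : Matrix Unit Unit ℂ) =
      blockE (g • a) a (((χ m (cocy Q g a) : ℂ)) • (1 : Matrix Unit Unit ℂ))
    rw [e]
  obtain ⟨m₀, R, hR1, hR2⟩ := Pool.Agent.LibCS15.path_lemma hG ρ ρ₀ hlim
  refine ⟨m₀, R, fun m hm g => ?_, fun g => ?_⟩
  · have h1 := hR1 m hm g
    rw [hρ', hρ₀'] at h1
    exact h1
  · have h2 := hR2 g
    rw [hρ₀'] at h2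
    exact h2

end Pool.Agent.LibCS44
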