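import Pool.Agent.LibCS44.LiftVar
import Pool.Agent.LibCS44.Base
set_option autoImplicit false
namespace Pool.Agent.LibCS44
open Topology Filter
open scoped Matrix.Norms.L2Operator
open Pool.Agent.LibCS15 (IsClosedIdeal CStarStable)

private theorem PathVarA_ideal {D : Type} [CStarAlgebra D] :
    IsClosedIdeal {f : C(unitInterval, D) | f 0 = 0 ∧ f 1 = 0} := by
  constructor
  · have e1 : {f : C(unitInterval, D) | f 0 = 0 ∧ f 1 = 0} =
        (fun f : C(unitInterval, D) => f 0) ⁻¹' {0} ∩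
          (fun f : C(unitInterval, D) => f 1) ⁻¹' {0} := rfl
    rw [e1]
    exact (isClosed_singleton.preimage (continuous_eval_const (F := C(unitInterval, D)) 0)).inter
      (isClosed_singleton.preimage (continuous_eval_const (F := C(unitInterval, D)) 1))
  · exact ⟨rfl, rfl⟩
  · rintro x ⟨hx1, hx2⟩ y ⟨hy1, hy2⟩
    exact ⟨by show x 0 + y 0 = 0; rw [hx1, hy1, add_zero],
      by show x 1 + y 1 = 0; rw [hx2, hy2, add_zero]⟩
  · rintro a x ⟨hx1, hx2⟩
    exact ⟨by show a • x 0 = 0; rw [hx1, smul_zero], by show a • x 1 = 0; rw [hx2, smul_zero]⟩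
  · rintro b x ⟨hx1, hx2⟩
    exact ⟨by show b 0 * x 0 = 0; rw [hx1, mul_zero], by show b 1 * x 1 = 0; rw [hx2, mul_zero]⟩
  · rintro b x ⟨hx1, hx2⟩
    exact ⟨by show x 0 * b 0 = 0; rw [hx1, zero_mul], by show x 1 * b 1 = 0; rw [hx2, zero_mul]⟩
  · rintro x ⟨hx1, hx2⟩
    exact ⟨by show star (x 0) = 0; rw [hx1, star_zero],
      by show star (x 1) = 0; rw [hx2, star_zero]⟩

/-- Paths of almost representations with exact end points are approximated by paths of representations with the same end points: `lifting_var` for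
`D m = C([0,1], Matrix (n m) (n m) ℂ)` and the ideals of functions vanishing at `0` and `1` -/
theorem path_var {G : Type} [Group G] [Countable G] (hG : CStarStable G) (n : ℕ → Type)
    [∀ m, Fintype (n m)] [∀ m, DecidableEq (n m)] [∀ m, Nonempty (n m)]
    (v : ∀ m, G → C(unitInterval, Matrix (n m) (n m) ℂ))
    (hb : ∀ g, ∃ C : ℝ, ∀ m, ‖v m g‖ ≤ C)
    (h10 : ∀ m, v m 1 0 = 1) (h11 : ∀ m, v m 1 1 = 1)
    (h1' : Tendsto (fun m => ‖v m 1 - 1‖) atTop (𝓝 0))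
    (hmul0 : ∀ m g h, v m (g * h) 0 = v m g 0 * v m h 0)
    (hmul1 : ∀ m g h, v m (g * h) 1 = v m g 1 * v m h 1)
    (hmul' : ∀ g h, Tendsto (fun m => ‖v m (g * h) - v m g * v m h‖) atTop (𝓝 0))
    (hstar0 : ∀ m g, v m g⁻¹ 0 = star (v m g 0)) (hstar1 : ∀ m g, v m g⁻¹ 1 = star (v m g 1))
    (hstar' : ∀ g, Tendsto (fun m => ‖v m g⁻¹ - star (v m g)‖) atTop (𝓝 0)) :
    ∃ (m₀ : ℕ) (R : ∀ m, G →* unitary C(unitInterval, Matrix (n m) (n m) ℂ)),
      ∀ m, m₀ ≤ m → ∀ g, (R m g : C(unitInterval, Matrix (n m) (n m) ℂ)) 0 = v m g 0 ∧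
        (R m g : C(unitInterval, Matrix (n m) (n m) ℂ)) 1 = v m g 1 := by
  obtain ⟨m₀, R, hR, -⟩ := lifting_var hG (fun m => C(unitInterval, Matrix (n m) (n m) ℂ))
    (fun m => {f | f 0 = 0 ∧ f 1 = 0}) (fun m => PathVarA_ideal) v hb
    (fun m => ⟨by show v m 1 0 - 1 = 0; rw [h10, sub_self],
      by show v m 1 1 - 1 = 0; rw [h11, sub_self]⟩) h1'
    (fun m g h => ⟨by show v m (g * h) 0 - v m g 0 * v m h 0 = 0; rw [hmul0, sub_self],
      by show v m (g * h) 1 - v m g 1 * v m h 1 = 0; rw [hmul1, sub_self]⟩) hmul'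
    (fun m g => ⟨by show v m g⁻¹ 0 - star (v m g 0) = 0; rw [hstar0, sub_self],
      by show v m g⁻¹ 1 - star (v m g 1) = 0; rw [hstar1, sub_self]⟩) hstar'
  refine ⟨m₀, R, fun m hm g => ?_⟩
  have h2 := hR m hm g
  exact ⟨sub_eq_zero.1 h2.1, sub_eq_zero.1 h2.2⟩

end Pool.Agent.LibCS44
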