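import Pool.Agent.LibCS44.Base
import Pool.Agent.LibCS44.ModB
import Pool.Agent.LibCS44.ModA1
import Pool.Agent.LibCS44.CharB
set_option autoImplicit false
namespace Pool.Agent.LibCS44
open scoped commutatorElement

/-- From `exists_invariant_subgroup` take `K`, then a character `x` of `β.ker ⧸ K` with `x a ≠ 1` (`exists_char_of_quotient`); replace `x` by a power
so that `1 ≤ ‖x a - 1‖` (`exists_pow_norm`).  Conjugation by `t` permutes the finite set `β.ker ⧸ K`, so conjugation by some `t ^ l`, `l > 0`, acts trivially on it. -/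
theorem exists_periodic_char {H : Type} [Group H] [Group.FG H]
    (β : H →* Multiplicative ℤ) (t : H) (ht : β t = Multiplicative.ofAdd 1) (a : β.ker)
    (ha' : (a : H) ∉ (⁅β.ker, β.ker⁆ : Subgroup H)) :
    ∃ (x : β.ker →* Circle) (l : ℕ), 0 < l ∧ cc (t ^ l) x = x ∧ 1 ≤ ‖(x a : ℂ) - 1‖ := by
  obtain ⟨K, hK1, hK2, hK3, hK4, hK5⟩ := exists_invariant_subgroup β t ht a
    (MonoidHom.mem_ker.1 a.2) ha'
  set K' : Subgroup β.ker := K.subgroupOf β.ker with hK'
  have hcomm : commutator β.ker ≤ K' := by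
    rw [commutator_def, Subgroup.commutator_le]
    intro p _ q _
    rw [hK', Subgroup.mem_subgroupOf]
    exact hK2 (Subgroup.commutator_mem_commutator p.2 q.2)
  have haK : a ∉ K' := fun h => hK5 (Subgroup.mem_subgroupOf.1 h)
  obtain ⟨x₀, hx₀, hxa⟩ := exists_char_of_quotient K' hcomm a haK
  obtain ⟨j, hj⟩ := exists_pow_norm (x₀ a) hxa
  have hx : ∀ b ∈ K', (x₀ ^ j) b = 1 := by
    intro b hb
    rw [MonoidHom.pow_apply, hx₀ b hb, one_pow]
  have hpow : ∀ (l : ℕ), ∀ b ∈ K, t ^ l * b * (t ^ l)⁻¹ ∈ K := by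
    intro l
    induction l with
    | zero =>
      intro b hb
      rw [pow_zero, one_mul, inv_one, mul_one]
      exact hb
    | succ l ih =>
      intro b hb
      have h1 := ih _ (hK3 b hb).1
      have e : t ^ (l + 1) * b * (t ^ (l + 1))⁻¹ = t ^ l * (t * b * t⁻¹) * (t ^ l)⁻¹ := by
        rw [pow_succ, mul_inv_rev]
        simp only [mul_assoc]
      rw [e]
      exact h1
  have : K'.FiniteIndex := ⟨hK4⟩
  have : Finite (β.ker ⧸ K') := Subgroup.finite_quotient_of_finiteIndex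
  obtain ⟨l₁, l₂, hne, heq⟩ := Finite.exists_ne_map_eq_of_infinite
    (fun (l : ℕ) (q : β.ker ⧸ K') =>
      ((MulAut.conjNormal (t ^ l) q.out : β.ker) : β.ker ⧸ K'))
  have hcc : cc (t ^ l₁) (x₀ ^ j) = cc (t ^ l₂) (x₀ ^ j) := by
    apply MonoidHom.ext
    intro b
    have key : ∀ l : ℕ, cc (t ^ l) (x₀ ^ j) b =
        (x₀ ^ j) (MulAut.conjNormal (t ^ l) ((b : β.ker ⧸ K').out)) := by
      intro l
      have h1 : ((b : β.ker ⧸ K').out)⁻¹ * b ∈ K' := by
        rw [← QuotientGroup.eq, QuotientGroup.out_eq']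
      have h2 : b = (b : β.ker ⧸ K').out * (((b : β.ker ⧸ K').out)⁻¹ * b) := by
        rw [mul_inv_cancel_left]
      show (x₀ ^ j) (MulAut.conjNormal (t ^ l) b) = _
      have h3 : MulAut.conjNormal (t ^ l) (((b : β.ker ⧸ K').out)⁻¹ * b) ∈ K' := by
        rw [hK', Subgroup.mem_subgroupOf, MulAut.conjNormal_apply]
        exact hpow l _ (Subgroup.mem_subgroupOf.1 h1)
      calc (x₀ ^ j) (MulAut.conjNormal (t ^ l) b)
          = (x₀ ^ j) (MulAut.conjNormal (t ^ l)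
              ((b : β.ker ⧸ K').out * (((b : β.ker ⧸ K').out)⁻¹ * b))) := by rw [← h2]
        _ = (x₀ ^ j) (MulAut.conjNormal (t ^ l) ((b : β.ker ⧸ K').out)) *
              (x₀ ^ j) (MulAut.conjNormal (t ^ l) (((b : β.ker ⧸ K').out)⁻¹ * b)) := by
            rw [map_mul, map_mul]
        _ = _ := by rw [hx _ h3, mul_one]
    rw [key, key]
    have h4 := congrFun heq (b : β.ker ⧸ K')
    have h5 := QuotientGroup.eq.1 h4
    have h6 := hx _ h5
    rw [map_mul, map_inv] at h6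
    exact inv_mul_eq_one.1 h6
  have main : ∀ l₁ l₂ : ℕ, l₁ < l₂ → cc (t ^ l₁) (x₀ ^ j) = cc (t ^ l₂) (x₀ ^ j) →
      cc (t ^ (l₂ - l₁)) (x₀ ^ j) = x₀ ^ j := by
    intro l₁ l₂ hlt h
    have h1 := congrArg (cc (t ^ l₁)⁻¹) h
    rw [← cc_mul, ← cc_mul, mul_inv_cancel, cc_one, ← pow_sub t hlt.le] at h1
    exact h1.symm
  rcases Nat.lt_or_gt_of_ne hne with hlt | hlt
  · exact ⟨x₀ ^ j, l₂ - l₁, Nat.sub_pos_of_lt hlt, main l₁ l₂ hlt hcc, by
      rw [MonoidHom.pow_apply]; exact hj⟩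
  · exact ⟨x₀ ^ j, l₁ - l₂, Nat.sub_pos_of_lt hlt, main l₂ l₁ hlt hcc.symm, by
      rw [MonoidHom.pow_apply]; exact hj⟩

end Pool.Agent.LibCS44
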