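import Mathlib
set_option autoImplicit false
namespace Pool.Agent.LibCS44

/-- the permutation `(p, k) ↦ (p, k - 1)` -/
def shiftP (A : Type) (L : ℕ) : Equiv.Perm (A × ZMod L) :=
  (Equiv.refl A).prodCongr (Equiv.subRight (1 : ZMod L))

/-- the periodic datum `z (p, k) = y p ∘ τ ^ k` -/
noncomputable def zdat {N : Type} [Group N] (τ : N ≃* N) {A : Type} (L : ℕ) [NeZero L]
    (y : A → N →* Circle) (i : A × ZMod L) : N →* Circle :=
  (y i.1).comp ((τ ^ (ZMod.val i.2) : MulAut N) : N ≃* N).toMonoidHom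

theorem zdat_apply {N : Type} [Group N] (τ : N ≃* N) {A : Type} (L : ℕ) [NeZero L]
    (y : A → N →* Circle) (i : A × ZMod L) (a : N) :
    zdat τ L y i a = y i.1 ((τ ^ (ZMod.val i.2) : MulAut N) a) := rfl

private lemma PigeonA_mul {N : Type} [Group N] (τ : MulAut N) (x : N →* Circle) (L : ℕ)
    (hx : ∀ a, x ((τ ^ L : MulAut N) a) = x a) :
    ∀ (q : ℕ) (a : N), x ((τ ^ (L * q) : MulAut N) a) = x a
  | 0, a => by simp
  | q + 1, a => by
    have h1 : (τ ^ (L * (q + 1)) : MulAut N) a = (τ ^ L : MulAut N) ((τ ^ (L * q) : MulAut N) a) := by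
      rw [← MulAut.mul_apply, ← pow_add]
      congr 2
      ring
    rw [h1, hx, PigeonA_mul τ x L hx q a]

private lemma PigeonA_mod {N : Type} [Group N] (τ : MulAut N) (x : N →* Circle) (L : ℕ)
    (hx : ∀ a, x ((τ ^ L : MulAut N) a) = x a) (m : ℕ) (a : N) :
    x ((τ ^ m : MulAut N) a) = x ((τ ^ (m % L) : MulAut N) a) := by
  conv_lhs => rw [← Nat.div_add_mod m L]
  rw [pow_add, MulAut.mul_apply, PigeonA_mul τ x L hx]

/-- `(k - 1).val + 1 ≡ k.val` modulo `L`, and `y p ∘ τ ^ j` depends only on `j` modulo `L` -/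
theorem zdat_shift {N : Type} [Group N] (τ : N ≃* N) {A : Type} (L : ℕ) [NeZero L]
    (y : A → N →* Circle) (hy : ∀ p a, y p ((τ ^ L : MulAut N) a) = y p a)
    (i : A × ZMod L) (a : N) : zdat τ L y (shiftP A L i) (τ a) = zdat τ L y i a := by
  obtain ⟨p, k⟩ := i
  rw [zdat_apply, zdat_apply]
  change y p (((τ : MulAut N) ^ (ZMod.val (k - 1)) : MulAut N) (τ a)) =
    y p (((τ : MulAut N) ^ (ZMod.val k) : MulAut N) a)
  have h1 : ((τ : MulAut N) ^ (ZMod.val (k - 1)) : MulAut N) (τ a) =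
      ((τ : MulAut N) ^ (ZMod.val (k - 1) + 1) : MulAut N) a := by
    rw [pow_succ, MulAut.mul_apply]
  have h2 : (ZMod.val (k - 1) + 1) % L = ZMod.val k := by
    have h3 : (((ZMod.val (k - 1) + 1 : ℕ)) : ZMod L) = k := by
      push_cast
      rw [ZMod.natCast_zmod_val, sub_add_cancel]
    rw [← ZMod.val_natCast, h3]
  rw [h1, PigeonA_mod (τ : MulAut N) (y p) L (hy p), h2]

end Pool.Agent.LibCS44
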