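import Mathlib
set_option autoImplicit false
namespace Pool.Agent.LibCS44
open Topology Filter

section
variable {H : Type} [Group H] (β : H →* Multiplicative ℤ) (t : H)
variable {D : Type} [CStarAlgebra D]

/-- `h = a t ^ k ↦ u a * T ^ k`, where `k = β h` and `β a = 1` -/
noncomputable def semi (u : H → D) (T : unitary D) (h : H) : D :=
  u (h * t ^ (-(Multiplicative.toAdd (β h)))) * ((T ^ (Multiplicative.toAdd (β h)) : unitary D) : D)

theorem semi_one {u : H → D} (T : unitary D) (hu : u 1 = 1) : semi β t u T 1 = 1 := by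
  simp [semi, hu]

theorem semi_of_ker {u : H → D} (T : unitary D) {a : H} (ha : β a = 1) :
    semi β t u T a = u a := by
  simp [semi, ha]

theorem norm_semi_le {u : H → D} (T : unitary D) {C : ℝ} (hC : 0 ≤ C) (hu : ∀ a, ‖u a‖ ≤ C)
    (h : H) : ‖semi β t u T h‖ ≤ C := by
  have _ := hC
  unfold semi
  rw [CStarRing.norm_mul_coe_unitary]
  exact hu _

variable (ht : β t = Multiplicative.ofAdd 1)
include ht

omit [CStarAlgebra D] in
lemma semi_beta_zpow (k : ℤ) : Multiplicative.toAdd (β (t ^ k)) = k := by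
  rw [map_zpow, ht, ← ofAdd_zsmul]
  simp

lemma semi_ker_left (g : H) : β (g * t ^ (-(Multiplicative.toAdd (β g)))) = 1 := by
  apply Multiplicative.toAdd.injective
  rw [map_mul, toAdd_mul, semi_beta_zpow β t ht]
  simp

lemma semi_ker_conj (k : ℤ) {a : H} (ha : β a = 1) : β (t ^ k * a * t ^ (-k)) = 1 := by
  apply Multiplicative.toAdd.injective
  rw [β.map_mul, β.map_mul, ha, toAdd_mul, toAdd_mul, semi_beta_zpow β t ht,
    semi_beta_zpow β t ht]
  simp

lemma semi_cov_zpow {u : H → D} (T : unitary D)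
    (hcov : ∀ a, β a = 1 → u (t * a * t⁻¹) = (T : D) * u a * star (T : D)) (k : ℤ) :
    ∀ a, β a = 1 → u (t ^ k * a * t ^ (-k)) =
      ((T ^ k : unitary D) : D) * u a * star ((T ^ k : unitary D) : D) := by
  induction k using Int.induction_on with
  | zero =>
    intro a _
    simp
  | succ k ih =>
    intro a ha
    have e : t ^ ((k : ℤ) + 1) * a * t ^ (-((k : ℤ) + 1)) =
        t * (t ^ (k : ℤ) * a * t ^ (-(k : ℤ))) * t⁻¹ := by group
    rw [e, hcov _ (semi_ker_conj β t ht _ ha), ih a ha]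
    have e2 : (T ^ ((k : ℤ) + 1) : unitary D) = T * T ^ (k : ℤ) := by
      rw [add_comm, zpow_add, zpow_one]
    rw [e2]
    simp only [Submonoid.coe_mul, star_mul, mul_assoc]
  | pred k ih =>
    intro a ha
    have hb : β (t ^ (-(k : ℤ) - 1) * a * t ^ (-(-(k : ℤ) - 1))) = 1 :=
      semi_ker_conj β t ht _ ha
    have h1 := hcov _ hb
    have e : t * (t ^ (-(k : ℤ) - 1) * a * t ^ (-(-(k : ℤ) - 1))) * t⁻¹ =
        t ^ (-(k : ℤ)) * a * t ^ (-(-(k : ℤ))) := by group
    rw [e, ih a ha] at h1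
    have e2 : (T ^ (-(k : ℤ) - 1) : unitary D) = T⁻¹ * T ^ (-(k : ℤ)) := by
      rw [sub_eq_add_neg, add_comm, zpow_add, zpow_neg_one]
    have e3 : ((T⁻¹ : unitary D) : D) = star (T : D) := rfl
    have u1 : star (T : D) * (T : D) = 1 := Unitary.coe_star_mul_self T
    rw [e2]
    simp only [Submonoid.coe_mul, star_mul, e3, star_star]
    have key : ∀ x : D, x = star (T : D) * ((T : D) * x * star (T : D)) * (T : D) := by
      intro x
      calc x = (star (T : D) * (T : D)) * x * (star (T : D) * (T : D)) := by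
            rw [u1, one_mul, mul_one]
        _ = _ := by simp only [mul_assoc]
    rw [key (u (t ^ (-(k : ℤ) - 1) * a * t ^ (-(-(k : ℤ) - 1)))), ← h1]
    simp only [mul_assoc]

/-- exact version: `u` multiplicative on the kernel of `β` and covariant.  With `g = a t ^ j`, `h = b t ^ k`: `g h = (a (t ^ j b t ^ (-j))) t ^ (j + k)`, and
`u (t ^ j b t ^ (-j)) = T ^ j u b T ^ (-j)` for all `j : ℤ` by induction. -/
theorem semi_mul {u : H → D} (T : unitary D)
    (hmul : ∀ a b, β a = 1 → β b = 1 → u (a * b) = u a * u b)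
    (hcov : ∀ a, β a = 1 → u (t * a * t⁻¹) = (T : D) * u a * star (T : D)) (g h : H) :
    semi β t u T (g * h) = semi β t u T g * semi β t u T h := by
  unfold semi
  set k := Multiplicative.toAdd (β g) with hk
  set l := Multiplicative.toAdd (β h) with hl
  have e1 : Multiplicative.toAdd (β (g * h)) = k + l := by rw [map_mul, toAdd_mul]
  rw [e1]
  have e2 : g * h * t ^ (-(k + l)) = g * t ^ (-k) * (t ^ k * (h * t ^ (-l)) * t ^ (-k)) := by
    group
  have ha : β (g * t ^ (-k)) = 1 := semi_ker_left β t ht g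
  have hb : β (h * t ^ (-l)) = 1 := semi_ker_left β t ht h
  rw [e2, hmul _ _ ha (semi_ker_conj β t ht k hb), semi_cov_zpow β t ht T hcov k _ hb, zpow_add]
  have u1 : star ((T ^ k : unitary D) : D) * ((T ^ k : unitary D) : D) = 1 :=
    Unitary.coe_star_mul_self _
  simp only [Submonoid.coe_mul]
  simp only [mul_assoc]
  rw [← mul_assoc (star ((T ^ k : unitary D) : D)), u1, one_mul]

/-- `g = a t ^ j`, `g⁻¹ = (t ^ (-j) a⁻¹ t ^ j) t ^ (-j)` -/
theorem semi_star {u : H → D} (T : unitary D)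
    (hstar : ∀ a, β a = 1 → u a⁻¹ = star (u a))
    (hcov : ∀ a, β a = 1 → u (t * a * t⁻¹) = (T : D) * u a * star (T : D)) (g : H) :
    semi β t u T g⁻¹ = star (semi β t u T g) := by
  unfold semi
  set k := Multiplicative.toAdd (β g) with hk
  have e1 : Multiplicative.toAdd (β g⁻¹) = -k := by rw [map_inv, toAdd_inv]
  rw [e1]
  have e2 : g⁻¹ * t ^ (- -k) = t ^ (-k) * (g * t ^ (-k))⁻¹ * t ^ (-(-k)) := by
    group
  have ha : β (g * t ^ (-k)) = 1 := semi_ker_left β t ht g
  have ha' : β (g * t ^ (-k))⁻¹ = 1 := by rw [map_inv, ha, inv_one]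
  rw [e2, semi_cov_zpow β t ht T hcov (-k) _ ha', hstar _ ha, star_mul]
  have e3 : ((T ^ (-k) : unitary D) : D) = star ((T ^ k : unitary D) : D) := by
    rw [zpow_neg]
    rfl
  have u1 : ((T ^ k : unitary D) : D) * star ((T ^ k : unitary D) : D) = 1 :=
    Unitary.coe_mul_star_self _
  rw [e3, star_star, mul_assoc, mul_assoc, u1, mul_one]

end

end Pool.Agent.LibCS44
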