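import Pool.Agent.LibCS44.Base
import Pool.Agent.LibCS44.SemiA
import Pool.Agent.LibCS44.VpathB
import Pool.Agent.LibCS44.PigeonA
set_option autoImplicit false
namespace Pool.Agent.LibCS44
open scoped Matrix.Norms.L2Operator commutatorElement

/-- the entries of a matrix are bounded by its norm -/
theorem norm_entry_le {n : Type} [Fintype n] [DecidableEq n] (A : Matrix n n ℂ) (i j : n) :
    ‖A i j‖ ≤ ‖A‖ := by
  have h1 := Matrix.l2_opNorm_mulVec A (EuclideanSpace.single j (1 : ℂ))
  have h2 : ‖(EuclideanSpace.single j (1 : ℂ) : EuclideanSpace ℂ n)‖ = 1 := by simp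
  rw [h2, mul_one] at h1
  refine le_trans ?_ h1
  refine le_trans ?_ (PiLp.norm_apply_le _ i)
  simp

/-- The monomial representation of `H` attached to a periodic character `x` of `β.ker`: index set `Unit × ZMod l`, `u b = diag (zdat τ l (fun _ => x) i b)` with `τ = MulAut.conjNormal t`
(and, say, `u b = 0` for `b` not in the kernel), `T = pmU (shiftP Unit l)`; `v h = semi β t u T h` is multiplicative (`semi_mul`; covariance from `zdat_shift`, `pm_diagonal`) and compatible with `star`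
(`semi_star`), so it is a homomorphism to the unitary group.  For `b` in the kernel `v b = diag (x (t ^ k b t ^ (-k)))`. -/
theorem exists_monomial {H : Type} [Group H] (β : H →* Multiplicative ℤ) (t : H)
    (ht : β t = Multiplicative.ofAdd 1) (x : β.ker →* Circle) (l : ℕ) [NeZero l]
    (hx : cc (t ^ l) x = x) :
    ∃ v : H →* unitary (Matrix (Unit × ZMod l) (Unit × ZMod l) ℂ), ∀ b : β.ker,
      (v b : Matrix (Unit × ZMod l) (Unit × ZMod l) ℂ) =
        Matrix.diagonal fun i => (cc (t ^ (ZMod.val i.2)) x b : ℂ) := by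
  classical
  let τ : β.ker ≃* β.ker := MulAut.conjNormal t
  have hτ : ∀ (k : ℕ) (b : β.ker), x ((τ ^ k : MulAut β.ker) b) = cc (t ^ k) x b := by
    intro k b
    have h1 : (τ ^ k : MulAut β.ker) = MulAut.conjNormal (t ^ k) := by
      rw [map_pow]
    rw [h1]
    rfl
  let u : H → Matrix (Unit × ZMod l) (Unit × ZMod l) ℂ := fun b =>
    if hb : b ∈ β.ker then Matrix.diagonal (fun i => (zdat τ l (fun _ : Unit => x) i ⟨b, hb⟩ : ℂ))
    else 0
  have hu : ∀ b (hb : b ∈ β.ker), u b =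
      Matrix.diagonal (fun i => (zdat τ l (fun _ : Unit => x) i ⟨b, hb⟩ : ℂ)) := by
    intro b hb
    show (if hb : b ∈ β.ker then _ else _) = _
    rw [dif_pos hb]
  let T : unitary (Matrix (Unit × ZMod l) (Unit × ZMod l) ℂ) := pmU (shiftP Unit l)
  have hT : (T : Matrix (Unit × ZMod l) (Unit × ZMod l) ℂ) = pm (shiftP Unit l) := rfl
  have hmul : ∀ a b, β a = 1 → β b = 1 → u (a * b) = u a * u b := by
    intro a b ha hb
    have ha' : a ∈ β.ker := ha
    have hb' : b ∈ β.ker := hb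
    have hab : a * b ∈ β.ker := β.ker.mul_mem ha' hb'
    rw [hu a ha', hu b hb', hu _ hab, Matrix.diagonal_mul_diagonal]
    congr 1
    funext i
    have h1 : (⟨a * b, hab⟩ : β.ker) = ⟨a, ha'⟩ * ⟨b, hb'⟩ := rfl
    rw [h1, map_mul, Circle.coe_mul]
  have hstar : ∀ a, β a = 1 → u a⁻¹ = star (u a) := by
    intro a ha
    have ha' : a ∈ β.ker := ha
    have hai : a⁻¹ ∈ β.ker := β.ker.inv_mem ha'
    rw [hu a ha', hu _ hai, Matrix.star_eq_conjTranspose, Matrix.diagonal_conjTranspose]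
    congr 1
    funext i
    have h1 : (⟨a⁻¹, hai⟩ : β.ker) = (⟨a, ha'⟩)⁻¹ := rfl
    rw [h1, map_inv, Circle.coe_inv_eq_conj]
    rfl
  have hcov : ∀ a, β a = 1 → u (t * a * t⁻¹) = (T : Matrix _ _ ℂ) * u a * star (T : Matrix _ _ ℂ) := by
    intro a ha
    have ha' : a ∈ β.ker := ha
    have hta : t * a * t⁻¹ ∈ β.ker := (MonoidHom.normal_ker β).conj_mem a ha' t
    rw [hu a ha', hu _ hta, hT, pm_diagonal]
    congr 1
    funext i
    have h1 : (⟨t * a * t⁻¹, hta⟩ : β.ker) = τ ⟨a, ha'⟩ := rfl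
    have h2 := zdat_shift τ l (fun _ : Unit => x) (by
      intro _ b
      rw [hτ l b, hx]) ((shiftP Unit l)⁻¹ i) ⟨a, ha'⟩
    have h3 : shiftP Unit l ((shiftP Unit l)⁻¹ i) = i := (shiftP Unit l).apply_symm_apply i
    rw [h3] at h2
    rw [h1, h2]
  have hone : u 1 = 1 := by
    rw [hu 1 β.ker.one_mem, ← Matrix.diagonal_one]
    congr 1
    funext i
    have h1 : (⟨1, β.ker.one_mem⟩ : β.ker) = 1 := rfl
    rw [h1, map_one, Circle.coe_one]
  have hsm := semi_mul β t ht T hmul hcov
  have hss := semi_star β t ht T hstar hcov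
  have hs1 := semi_one β t T hone
  let v : H →* unitary (Matrix (Unit × ZMod l) (Unit × ZMod l) ℂ) :=
    { toFun := fun h => ⟨semi β t u T h, by
        rw [Unitary.mem_iff, ← hss, ← hsm, ← hsm, inv_mul_cancel, mul_inv_cancel, hs1]
        exact ⟨rfl, rfl⟩⟩
      map_one' := Subtype.ext hs1
      map_mul' := fun g h => Subtype.ext (hsm g h) }
  refine ⟨v, ?_⟩
  intro b
  have h1 : (v b : Matrix (Unit × ZMod l) (Unit × ZMod l) ℂ) = semi β t u T b := rfl
  rw [h1, semi_of_ker β t T b.2, hu _ b.2]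
  congr 1
  funext i
  rw [zdat_apply, hτ]

end Pool.Agent.LibCS44
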