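import Pool.Agent.LibCS44.RepA
import Pool.Agent.LibCS44.PerChar
import Pool.Agent.LibCS44.IndM
set_option autoImplicit false
namespace Pool.Agent.LibCS44
open scoped Matrix.Norms.L2Operator commutatorElement

private theorem RepB_pow {H : Type} [Group H] {N : Subgroup H} [N.Normal] (g : H)
    (x : N →* Circle) (h : cc g x = x) (n : ℕ) : cc (g ^ n) x = x := by
  induction n with
  | zero => rw [pow_zero, cc_one]
  | succ n ih => rw [pow_succ, cc_mul, ih, h]

private theorem RepB_inv {H : Type} [Group H] {N : Subgroup H} [N.Normal] (g : H)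
    (x : N →* Circle) (h : cc g x = x) : cc g⁻¹ x = x := by
  have h1 := cc_mul g g⁻¹ x
  rw [mul_inv_cancel, cc_one, h] at h1
  exact h1.symm

private theorem RepB_zpow {H : Type} [Group H] {N : Subgroup H} [N.Normal] (g : H)
    (x : N →* Circle) (h : cc g x = x) (m : ℤ) : cc (g ^ m) x = x := by
  obtain ⟨n, rfl | rfl⟩ := m.eq_nat_or_neg
  · rw [zpow_natCast]
    exact RepB_pow g x h n
  · rw [zpow_neg, zpow_natCast]
    exact RepB_inv _ x (RepB_pow g x h n)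

/-- the diagonal entry of the monomial representation -/
private theorem RepB_entry {H : Type} [Group H] (β : H →* Multiplicative ℤ) (t : H)
    (ht : β t = Multiplicative.ofAdd 1) (x : β.ker →* Circle) (l : ℕ) [NeZero l]
    (hx : cc (t ^ l) x = x) (o : H) (a y : β.ker) (hy : (y : H) = o⁻¹ * a * o) :
    ∃ k : ZMod l, cc (t ^ (ZMod.val k)) x y = x a := by
  obtain ⟨k, hk⟩ : ∃ k : ℤ, β o = Multiplicative.ofAdd k := ⟨Multiplicative.toAdd (β o), rfl⟩
  refine ⟨(k : ZMod l), ?_⟩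
  obtain ⟨j, hj⟩ : ∃ j : ℕ, j = ZMod.val (k : ZMod l) := ⟨_, rfl⟩
  rw [← hj]
  have hjk : (j : ℤ) = k % l := by
    rw [hj]
    exact ZMod.val_intCast k
  have e1 : cc (t ^ j) x y = cc (t ^ j * o⁻¹) x a := by
    rw [cc_apply, cc_apply]
    congr 1
    apply Subtype.ext
    change t ^ j * (y : H) * (t ^ j)⁻¹ = t ^ j * o⁻¹ * a * (t ^ j * o⁻¹)⁻¹
    rw [hy]
    group
  have hb : β (o * t ^ (-k)) = 1 := by
    rw [map_mul, map_zpow, hk, ht, ← ofAdd_zsmul, ← ofAdd_add]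
    simp
  have e2 : t ^ j * o⁻¹ = (t ^ l) ^ (-(k / (l : ℤ))) *
      ((⟨o * t ^ (-k), MonoidHom.mem_ker.2 hb⟩⁻¹ : β.ker) : H) := by
    have h1 : (((⟨o * t ^ (-k), MonoidHom.mem_ker.2 hb⟩ : β.ker)⁻¹ : β.ker) : H) =
        (o * t ^ (-k))⁻¹ := rfl
    rw [h1, mul_inv_rev, ← mul_assoc]
    congr 1
    rw [← zpow_natCast t l, ← zpow_mul, ← zpow_natCast t j, ← zpow_neg, ← zpow_add]
    congr 1
    rw [hjk, Int.emod_def]
    ring
  rw [e1, e2, cc_mul, RepB_zpow _ x hx, cc_of_mem]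

/-- Representations of the finitely generated group `G` which are not close to `1` at `a`.  `H` is finitely generated (Schreier, `Subgroup.fg_of_index_ne_zero`), `β.ker` corresponds to `N`;
`exists_periodic_char` gives `x` and `l`, `exists_monomial` a representation of `H` and `ind_rep` a representation `π` of `G`.  Let `c : G ⧸ H` be the coset of `1`, `o = c.out ∈ H`, `o = b t ^ k` with `b ∈ N`.
`cocy H a c = o⁻¹ a o = t ^ (-k) (b⁻¹ a b) t ^ k`, and `x (b⁻¹ a b) = x a`, so the diagonal entry of `π a` with index `(c, k mod l)` is `x a`. -/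
theorem exists_rep_fg {G : Type} [Group G] [Group.FG G] {N : Subgroup G} [N.Normal]
    (H : Subgroup G) [H.FiniteIndex] (hNH : N ≤ H) (β : H →* Multiplicative ℤ)
    (hβ : ∀ h : H, β h = 1 ↔ (h : G) ∈ N) (t : H) (ht : β t = Multiplicative.ofAdd 1)
    (a : G) (ha : a ∈ N) (ha' : a ∉ (⁅N, N⁆ : Subgroup G)) :
    ∃ (n : Type) (_ : Fintype n) (_ : DecidableEq n) (_ : Nonempty n)
      (π : G →* unitary (Matrix n n ℂ)), 1 ≤ ‖(π a : Matrix n n ℂ) - 1‖ := by
  classical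
  have hHfg : Group.FG H := inferInstance
  have hfin : Finite (G ⧸ H) := Subgroup.finite_quotient_of_finiteIndex
  have hft : Fintype (G ⧸ H) := Fintype.ofFinite _
  have hker : (⟨a, hNH ha⟩ : H) ∈ β.ker := MonoidHom.mem_ker.2 ((hβ _).2 ha)
  have hmap : β.ker.map H.subtype = N := by
    ext g
    constructor
    · rintro ⟨h, hh, rfl⟩
      exact (hβ h).1 (MonoidHom.mem_ker.1 hh)
    · intro hg
      exact ⟨⟨g, hNH hg⟩, MonoidHom.mem_ker.2 ((hβ _).2 hg), rfl⟩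
  have hnot : ((⟨⟨a, hNH ha⟩, hker⟩ : β.ker) : H) ∉ (⁅β.ker, β.ker⁆ : Subgroup H) := by
    intro hmem
    apply ha'
    have h1 : (⁅β.ker, β.ker⁆ : Subgroup H).map H.subtype = ⁅N, N⁆ := by
      rw [Subgroup.map_commutator, hmap]
    rw [← h1]
    exact ⟨_, hmem, rfl⟩
  obtain ⟨x, l, hl, hxl, hxa⟩ := exists_periodic_char β t ht ⟨⟨a, hNH ha⟩, hker⟩ hnot
  have hl0 : NeZero l := ⟨hl.ne'⟩
  obtain ⟨v, hv⟩ := exists_monomial β t ht x l hxl
  obtain ⟨ρ, hρ⟩ := ind_rep H v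
  refine ⟨(G ⧸ H) × (Unit × ZMod l), inferInstance, inferInstance,
    ⟨(((1 : G) : G ⧸ H), ((), 0))⟩, ρ, ?_⟩
  -- the coset of `1`
  obtain ⟨c, hc⟩ : ∃ c : G ⧸ H, c = ((1 : G) : G ⧸ H) := ⟨_, rfl⟩
  have hcout : c.out ∈ H := by
    have h1 : ((c.out : G) : G ⧸ H) = ((1 : G) : G ⧸ H) := by
      rw [QuotientGroup.out_eq', hc]
    have h2 := QuotientGroup.eq.1 h1
    rw [mul_one] at h2
    exact inv_mem_iff.1 h2
  have hcocy : (LibCS15.cocy H a c : G) = c.out⁻¹ * a * c.out :=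
    cocy_of_mem_normal H hNH ha c
  have hcocyN : (LibCS15.cocy H a c : G) ∈ N := by
    rw [hcocy]
    have h1 := (inferInstance : N.Normal).conj_mem a ha c.out⁻¹
    rw [inv_inv] at h1
    exact h1
  have hyker : LibCS15.cocy H a c ∈ β.ker := MonoidHom.mem_ker.2 ((hβ _).2 hcocyN)
  obtain ⟨k, hk⟩ := RepB_entry β t ht x l hxl ⟨c.out, hcout⟩ ⟨⟨a, hNH ha⟩, hker⟩
    ⟨LibCS15.cocy H a c, hyker⟩ (Subtype.ext hcocy)
  have hentry : (ρ a : Matrix ((G ⧸ H) × (Unit × ZMod l)) ((G ⧸ H) × (Unit × ZMod l)) ℂ)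
      (c, ((), k)) (c, ((), k)) = (x ⟨⟨a, hNH ha⟩, hker⟩ : ℂ) := by
    rw [hρ, indM, Matrix.sum_apply, Finset.sum_eq_single c]
    · rw [smul_of_mem_normal H hNH ha, blockE_apply, if_pos ⟨rfl, rfl⟩]
      have h1 := hv ⟨LibCS15.cocy H a c, hyker⟩
      change (v (LibCS15.cocy H a c) : Matrix (Unit × ZMod l) (Unit × ZMod l) ℂ) ((), k) ((), k) = _
      have h2 : (v (LibCS15.cocy H a c) : Matrix (Unit × ZMod l) (Unit × ZMod l) ℂ) =
        Matrix.diagonal fun i => (cc (t ^ (ZMod.val i.2)) x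
          (⟨LibCS15.cocy H a c, hyker⟩ : β.ker) : ℂ) := h1
      rw [h2, Matrix.diagonal_apply_eq, hk]
    · intro b _ hb
      rw [smul_of_mem_normal H hNH ha, blockE_apply, if_neg]
      rintro ⟨h1, -⟩
      exact hb h1.symm
    · intro h
      exact absurd (Finset.mem_univ _) h
  have h1 := norm_entry_le ((ρ a : Matrix ((G ⧸ H) × (Unit × ZMod l))
    ((G ⧸ H) × (Unit × ZMod l)) ℂ) - 1) (c, ((), k)) (c, ((), k))
  rw [Matrix.sub_apply, hentry, Matrix.one_apply_eq] at h1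
  exact hxa.trans h1

end Pool.Agent.LibCS44
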