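import Pool.Agent.LibCS44.RepB
set_option autoImplicit false
namespace Pool.Agent.LibCS44
open scoped Matrix.Norms.L2Operator commutatorElement

/-- the same for a finitely generated subgroup `K` of `G` containing `t` and `a`: apply `exists_rep_fg` to the group `K` and its subgroups `N.subgroupOf K`, `H.subgroupOf K` -/
theorem exists_rep_sub {G : Type} [Group G] {N : Subgroup G} [N.Normal]
    (H : Subgroup G) [H.FiniteIndex] (hNH : N ≤ H) (β : H →* Multiplicative ℤ)
    (hβ : ∀ h : H, β h = 1 ↔ (h : G) ∈ N) (t : H) (ht : β t = Multiplicative.ofAdd 1)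
    (K : Subgroup G) (hK : K.FG) (htK : (t : G) ∈ K) (a : K) (ha : (a : G) ∈ N)
    (ha' : (a : G) ∉ (⁅N, N⁆ : Subgroup G)) :
    ∃ (n : Type) (_ : Fintype n) (_ : DecidableEq n) (_ : Nonempty n)
      (π : K →* unitary (Matrix n n ℂ)), 1 ≤ ‖(π a : Matrix n n ℂ) - 1‖ := by
  have hfg : Group.FG K := (Group.fg_iff_subgroup_fg K).mpr hK
  let ι : (H.subgroupOf K) →* H :=
    { toFun := fun x => ⟨(x.1 : G), Subgroup.mem_subgroupOf.mp x.2⟩
      map_one' := rfl
      map_mul' := fun _ _ => rfl }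
  refine exists_rep_fg (G := K) (N := N.subgroupOf K) (H.subgroupOf K) ?_ (β.comp ι) ?_
    ⟨⟨t, htK⟩, Subgroup.mem_subgroupOf.mpr t.2⟩ ?_ a ?_ ?_
  · intro x hx
    exact Subgroup.mem_subgroupOf.mpr (hNH (Subgroup.mem_subgroupOf.mp hx))
  · intro h
    rw [Subgroup.mem_subgroupOf]
    exact hβ (ι h)
  · exact ht
  · exact Subgroup.mem_subgroupOf.mpr ha
  · intro hcon
    apply ha'
    have h1 : (a : G) ∈ Subgroup.map K.subtype ⁅N.subgroupOf K, N.subgroupOf K⁆ :=
      ⟨a, hcon, rfl⟩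
    rw [Subgroup.map_commutator] at h1
    refine Subgroup.commutator_mono ?_ ?_ h1
    · rintro _ ⟨x, hx, rfl⟩
      exact Subgroup.mem_subgroupOf.mp hx
    · rintro _ ⟨x, hx, rfl⟩
      exact Subgroup.mem_subgroupOf.mp hx

end Pool.Agent.LibCS44
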