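import Mathlib
set_option autoImplicit false
namespace Pool.Agent.LibCS44
open scoped Matrix.Norms.L2Operator

/-- the linear path of diagonal matrices from `diag (z i a)` to `diag (z' i a)` -/
noncomputable def upath {N : Type} [Group N] {I : Type} [Fintype I] [DecidableEq I]
    (z z' : I → N →* Circle) (a : N) : C(unitInterval, Matrix I I ℂ) :=
  ⟨fun s => Matrix.diagonal fun i => (1 - (s : ℝ) : ℂ) * (z i a : ℂ) + ((s : ℝ) : ℂ) * (z' i a : ℂ), by
    refine Continuous.matrix_diagonal ?_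
    refine continuous_pi fun i => ?_
    fun_prop⟩

section
variable {N : Type} [Group N] {I : Type} [Fintype I] [DecidableEq I] (z z' : I → N →* Circle)

private theorem upath_apply (a : N) (s : unitInterval) : upath z z' a s =
    Matrix.diagonal fun i => (1 - (s : ℝ) : ℂ) * (z i a : ℂ) + ((s : ℝ) : ℂ) * (z' i a : ℂ) := rfl

theorem upath_zero (a : N) : upath z z' a 0 = Matrix.diagonal fun i => (z i a : ℂ) := by
  rw [upath_apply]
  congr 1
  funext i
  simp

theorem upath_one (a : N) : upath z z' a 1 = Matrix.diagonal fun i => (z' i a : ℂ) := by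
  rw [upath_apply]
  congr 1
  funext i
  simp

private theorem entry_norm (s : unitInterval) (w w' : Circle) :
    ‖(1 - (s : ℝ) : ℂ) * (w : ℂ) + ((s : ℝ) : ℂ) * (w' : ℂ)‖ ≤ 1 := by
  have h0 : (0 : ℝ) ≤ s := s.2.1
  have h1 : (s : ℝ) ≤ 1 := s.2.2
  refine (norm_add_le _ _).trans ?_
  rw [norm_mul, norm_mul, Circle.norm_coe, Circle.norm_coe, mul_one, mul_one]
  have h2 : ‖(1 - (s : ℝ) : ℂ)‖ = 1 - (s : ℝ) := by
    have : (1 - (s : ℝ) : ℂ) = ((1 - (s : ℝ) : ℝ) : ℂ) := by push_cast; rfl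
    rw [this, Complex.norm_real, Real.norm_of_nonneg (by linarith)]
  have h3 : ‖((s : ℝ) : ℂ)‖ = s := by
    rw [Complex.norm_real, Real.norm_of_nonneg h0]
  rw [h2, h3]
  linarith

theorem norm_upath_le (a : N) : ‖upath z z' a‖ ≤ 1 := by
  rw [ContinuousMap.norm_le _ zero_le_one]
  intro s
  rw [upath_apply, Matrix.l2_opNorm_diagonal, pi_norm_le_iff_of_nonneg zero_le_one]
  intro i
  exact entry_norm s _ _

theorem upath_inv (a : N) : upath z z' a⁻¹ = star (upath z z' a) := by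
  ext s i j
  rw [ContinuousMap.star_apply, upath_apply, upath_apply, Matrix.star_eq_conjTranspose,
    Matrix.diagonal_conjTranspose]
  congr 2
  funext k
  simp only [map_inv, Circle.coe_inv_eq_conj, Pi.star_apply, star_add, star_mul']
  simp

theorem upath_map_one : upath z z' 1 = 1 := by
  ext s i j
  rw [upath_apply, ContinuousMap.one_apply, ← Matrix.diagonal_one]
  congr 2
  funext k
  simp

private theorem key_ineq {ε : ℝ} (s : unitInterval) (x y x' y' : Circle)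
    (hx : ‖(x : ℂ) - x'‖ ≤ ε) (hy : ‖(y : ℂ) - y'‖ ≤ ε)
    (hxy : ‖((x * y : Circle) : ℂ) - (x' * y' : Circle)‖ ≤ ε) :
    ‖((1 - (s : ℝ) : ℂ) * ((x * y : Circle) : ℂ) + ((s : ℝ) : ℂ) * ((x' * y' : Circle) : ℂ)) -
      ((1 - (s : ℝ) : ℂ) * (x : ℂ) + ((s : ℝ) : ℂ) * (x' : ℂ)) *
      ((1 - (s : ℝ) : ℂ) * (y : ℂ) + ((s : ℝ) : ℂ) * (y' : ℂ))‖ ≤ 3 * ε := by
  have h0 : (0 : ℝ) ≤ s := s.2.1
  have h1 : (s : ℝ) ≤ 1 := s.2.2
  have h3 : ‖((s : ℝ) : ℂ)‖ = s := by
    rw [Complex.norm_real, Real.norm_of_nonneg h0]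
  have he := entry_norm s y y'
  have hε : 0 ≤ ε := (norm_nonneg _).trans hx
  set c : ℂ := ((s : ℝ) : ℂ) with hc
  set B : ℂ := (1 - c) * (y : ℂ) + c * (y' : ℂ) with hB
  have heq : ((1 - c) * ((x * y : Circle) : ℂ) + c * ((x' * y' : Circle) : ℂ)) -
      ((1 - c) * (x : ℂ) + c * (x' : ℂ)) * B =
      -(c * (((x * y : Circle) : ℂ) - (x' * y' : Circle))) + c * ((x : ℂ) - x') * B +
        (x : ℂ) * (c * ((y : ℂ) - y')) := by
    rw [hB]
    push_cast
    ring
  rw [heq]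
  have t1 : ‖-(c * (((x * y : Circle) : ℂ) - (x' * y' : Circle)))‖ ≤ ε := by
    rw [norm_neg, norm_mul, h3]
    calc (s : ℝ) * ‖((x * y : Circle) : ℂ) - (x' * y' : Circle)‖ ≤ 1 * ε :=
          mul_le_mul h1 hxy (norm_nonneg _) zero_le_one
      _ = ε := one_mul _
  have t2 : ‖c * ((x : ℂ) - x') * B‖ ≤ ε := by
    rw [norm_mul, norm_mul, h3]
    calc (s : ℝ) * ‖(x : ℂ) - x'‖ * ‖B‖ ≤ 1 * ε * 1 :=
          mul_le_mul (mul_le_mul h1 hx (norm_nonneg _) zero_le_one) he (norm_nonneg _)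
            (by linarith)
      _ = ε := by ring
  have t3 : ‖(x : ℂ) * (c * ((y : ℂ) - y'))‖ ≤ ε := by
    rw [norm_mul, norm_mul, h3, Circle.norm_coe, one_mul]
    calc (s : ℝ) * ‖(y : ℂ) - y'‖ ≤ 1 * ε :=
          mul_le_mul h1 hy (norm_nonneg _) zero_le_one
      _ = ε := one_mul _
  refine (norm_add_le _ _).trans ?_
  refine (add_le_add (norm_add_le _ _) le_rfl).trans ?_
  linarith

/-- all the entries of `upath z z' a` are within `ε` of `z i a` -/
theorem norm_upath_mul_le {ε : ℝ} (hε : 0 ≤ ε) (a b : N) (ha : ∀ i, ‖(z i a : ℂ) - z' i a‖ ≤ ε)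
    (hb : ∀ i, ‖(z i b : ℂ) - z' i b‖ ≤ ε) (hab : ∀ i, ‖(z i (a * b) : ℂ) - z' i (a * b)‖ ≤ ε) :
    ‖upath z z' (a * b) - upath z z' a * upath z z' b‖ ≤ 3 * ε := by
  rw [ContinuousMap.norm_le _ (by linarith)]
  intro s
  rw [ContinuousMap.sub_apply, ContinuousMap.mul_apply, upath_apply, upath_apply, upath_apply,
    Matrix.diagonal_mul_diagonal, Matrix.diagonal_sub, Matrix.l2_opNorm_diagonal,
    pi_norm_le_iff_of_nonneg (by linarith)]
  intro i
  have h := key_ineq s (z i a) (z i b) (z' i a) (z' i b) (ha i) (hb i) (by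
    have := hab i
    rwa [map_mul, map_mul] at this)
  rw [map_mul, map_mul]
  exact h

end

end Pool.Agent.LibCS44
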