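import Mathlib
set_option autoImplicit false
namespace Pool.Agent.LibCS44
open scoped Matrix.Norms.L2Operator

variable {n : Type} [Fintype n] [DecidableEq n]

lemma traceA1_countable : {w : ℂ | ∃ k : ℕ, 0 < k ∧ w ^ k = 1}.Countable := by
  have e : {w : ℂ | ∃ k : ℕ, 0 < k ∧ w ^ k = 1} ⊆
      ⋃ k : ℕ, (Polynomial.nthRootsFinset k (1 : ℂ) : Set ℂ) := by
    rintro w ⟨k, hk, hw⟩
    rw [Set.mem_iUnion]
    exact ⟨k, (Polynomial.mem_nthRootsFinset hk (1 : ℂ)).mpr hw⟩
  exact (Set.countable_iUnion fun k => (Finset.countable_toSet _)).mono e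

lemma traceA1_root (U : Matrix n n ℂ) {k : ℕ} (hU : U ^ k = 1) {w : ℂ}
    (hw : w ∈ U.charpoly.roots) : w ^ k = 1 := by
  have h1 : Polynomial.IsRoot U.charpoly w := Polynomial.isRoot_of_mem_roots hw
  have h2 : w ∈ spectrum ℂ U := Matrix.mem_spectrum_of_isRoot_charpoly h1
  have h3 : w ^ k ∈ spectrum ℂ (U ^ k) := spectrum.pow_mem_pow U k h2
  rw [hU] at h3
  by_contra hne
  apply spectrum.mem_iff.mp h3
  have e : algebraMap ℂ (Matrix n n ℂ) (w ^ k) - 1 =
      algebraMap ℂ (Matrix n n ℂ) (w ^ k - 1) := by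
    rw [map_sub, map_one]
  rw [e]
  exact (IsUnit.mk0 _ (sub_ne_zero.mpr hne)).map (algebraMap ℂ (Matrix n n ℂ))

/-- The traces of the matrices of finite order form a countable set: the trace is the sum of the roots of the characteristic polynomial (`Matrix.trace_eq_sum_roots_charpoly`),
which are eigenvalues, hence roots of unity; the set of the multisets of elements of a countable set is countable. -/
theorem countable_traces :
    {z : ℂ | ∃ (U : Matrix n n ℂ) (k : ℕ), 0 < k ∧ U ^ k = 1 ∧ U.trace = z}.Countable := by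
  set S : Set ℂ := {w : ℂ | ∃ k : ℕ, 0 < k ∧ w ^ k = 1} with hS
  have hSc : Countable S := traceA1_countable.to_subtype
  have h1 : (Set.range fun s : Multiset S => (s.map (fun w : S => (w : ℂ))).sum).Countable :=
    Set.countable_range _
  refine h1.mono ?_
  rintro z ⟨U, k, hk, hU, rfl⟩
  have hall : ∀ w ∈ U.charpoly.roots, w ∈ S := fun w hw => ⟨k, hk, traceA1_root U hU hw⟩
  refine ⟨U.charpoly.roots.pmap (fun w hw => (⟨w, hw⟩ : S)) hall, ?_⟩
  simp only []
  rw [Multiset.map_pmap, Matrix.trace_eq_sum_roots_charpoly]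
  congr 1
  simp only [Multiset.pmap_eq_map, Multiset.map_id']

end Pool.Agent.LibCS44
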