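import Pool.Agent.LibCS44.Base
set_option autoImplicit false
namespace Pool.Agent.LibCS44

/-- Linear independence of characters (`linearIndependent_monoidHom N ℂ`).  Subtract: `∑ j, ∑ l, (m j - m' j) χ j l + (c - c') 1 = 0` as functions on `N`.  Collect in the free vector space on
`N →* ℂ` (the characters `χ j l` as homomorphisms to `ℂ` and the trivial one) and look at the coefficient of `χ j₀ l₀`, where
`m j₀ ≠ m' j₀`: it is `(m j₀ - m' j₀)` times the number of `l` with `χ j₀ l = χ j₀ l₀`. -/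
theorem traces_ne {N : Type} [Group N] {d : ℕ} {Λ : Type} [Fintype Λ] [Nonempty Λ]
    (χ : Fin d → Λ → N →* Circle) (hne1 : ∀ j l, χ j l ≠ 1)
    (hdisj : ∀ j j' l l', χ j l = χ j' l' → j = j') (m m' : Fin d → ℕ) (hm : m ≠ m')
    (c c' : ℂ) :
    ∃ a : N, ∑ j, (m j : ℂ) * ∑ l, (χ j l a : ℂ) + c ≠ ∑ j, (m' j : ℂ) * ∑ l, (χ j l a : ℂ) + c' := by
  classical
  by_contra hcon
  push Not at hcon
  set e : (N →* Circle) → (N →* ℂ) := fun x => Circle.coeHom.comp x with he
  have hinj : Function.Injective e := by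
    intro x y hxy
    ext a
    exact DFunLike.congr_fun hxy a
  have hone : e 1 = 1 := by
    ext a
    simp [he]
  set F : (N →* ℂ) →₀ ℂ := ∑ j, ∑ l, Finsupp.single (e (χ j l)) ((m j : ℂ) - (m' j : ℂ)) +
    Finsupp.single (1 : N →* ℂ) (c - c') with hF
  have hli := linearIndependent_iff.mp (linearIndependent_monoidHom N ℂ) F
  have hzero : Finsupp.linearCombination ℂ (fun f : N →* ℂ => (f : N → ℂ)) F = 0 := by
    rw [hF]
    simp only [map_add, map_sum, Finsupp.linearCombination_single]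
    funext a
    simp only [Pi.add_apply, Finset.sum_apply, Pi.smul_apply, smul_eq_mul, Pi.zero_apply]
    have h1 := hcon a
    have h2 : ∀ j l, (e (χ j l) : N → ℂ) a = (χ j l a : ℂ) := fun j l => rfl
    simp only [h2]
    have h3 : ∑ j, ∑ l, ((m j : ℂ) - (m' j : ℂ)) * (χ j l a : ℂ) =
        ∑ j, (m j : ℂ) * ∑ l, (χ j l a : ℂ) - ∑ j, (m' j : ℂ) * ∑ l, (χ j l a : ℂ) := by
      rw [← Finset.sum_sub_distrib]
      refine Finset.sum_congr rfl fun j _ => ?_
      rw [← Finset.mul_sum, sub_mul]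
    rw [h3]
    have h4 : (1 : N →* ℂ) a = 1 := rfl
    rw [h4, mul_one]
    linear_combination h1
  have hF0 := hli hzero
  obtain ⟨j₀, hj₀⟩ : ∃ j, m j ≠ m' j := by
    by_contra hc
    push Not at hc
    exact hm (funext hc)
  obtain ⟨l₀⟩ := (inferInstance : Nonempty Λ)
  have hval : F (e (χ j₀ l₀)) = 0 := by
    rw [hF0]
    rfl
  have hcomp : F (e (χ j₀ l₀)) = ((m j₀ : ℂ) - (m' j₀ : ℂ)) *
      ((Finset.univ.filter fun l => χ j₀ l = χ j₀ l₀).card : ℂ) := by
    rw [hF]
    simp only [Finsupp.add_apply, Finsupp.finsetSum_apply]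
    have h1 : (Finsupp.single (1 : N →* ℂ) (c - c')) (e (χ j₀ l₀)) = 0 := by
      rw [Finsupp.single_apply, if_neg]
      intro h
      rw [← hone] at h
      exact hne1 j₀ l₀ (hinj h).symm
    rw [h1, add_zero, Finset.sum_eq_single j₀]
    · have h2 : ∀ l, (Finsupp.single (e (χ j₀ l)) ((m j₀ : ℂ) - (m' j₀ : ℂ))) (e (χ j₀ l₀)) =
          if χ j₀ l = χ j₀ l₀ then ((m j₀ : ℂ) - (m' j₀ : ℂ)) else 0 := by
        intro l
        rw [Finsupp.single_apply]
        by_cases h : χ j₀ l = χ j₀ l₀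
        · rw [if_pos h, if_pos (congrArg e h)]
        · rw [if_neg h, if_neg (fun hh => h (hinj hh))]
      rw [Finset.sum_congr rfl fun l _ => h2 l, Finset.sum_ite, Finset.sum_const_zero, add_zero,
        Finset.sum_const, nsmul_eq_mul, mul_comm]
    · intro j _ hj
      refine Finset.sum_eq_zero fun l _ => ?_
      rw [Finsupp.single_apply, if_neg]
      intro h
      exact hj (hdisj _ _ _ _ (hinj h))
    · intro h
      exact absurd (Finset.mem_univ _) h
  rw [hcomp] at hval
  rcases mul_eq_zero.mp hval with h | h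
  · apply hj₀
    have h5 : (m j₀ : ℂ) = (m' j₀ : ℂ) := sub_eq_zero.mp h
    exact_mod_cast h5
  · have h6 : (Finset.univ.filter fun l => χ j₀ l = χ j₀ l₀).card = 0 := by exact_mod_cast h
    rw [Finset.card_eq_zero] at h6
    have h7 : l₀ ∈ (Finset.univ.filter fun l => χ j₀ l = χ j₀ l₀) := by simp
    rw [h6] at h7
    exact absurd h7 (Finset.notMem_empty _)

end Pool.Agent.LibCS44
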