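import Pool.Agent.LibCS44.VAc
set_option autoImplicit false
namespace Pool.Agent.LibCS44
open Module
open scoped Matrix.Norms.L2Operator

/-- A solvable group acting unitarily on a space of dimension at least `2` has a finite index subgroup with a proper nonzero invariant
subspace.  If all the `ρ g` are scalar take any line.  Otherwise let `j` be maximal such that `ρ a` is not scalar for some `a ∈ derivedSeries G j` (it exists since
`derivedSeries G n = ⊥` for some `n`) and apply `invariant_of_normal` to `A = derivedSeries G j`. -/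
theorem exists_invariant {G : Type} [Group G] (hG : Group.IsSolvable G) {V : Type}
    [NormedAddCommGroup V] [InnerProductSpace ℂ V] [FiniteDimensional ℂ V]
    (ρ : G →* (V →ₗ[ℂ] V)) (hu : ∀ g x y, inner ℂ (ρ g x) (ρ g y) = inner ℂ x y)
    (hV : 2 ≤ finrank ℂ V) :
    ∃ (P : Subgroup G) (W : Submodule ℂ V), P.FiniteIndex ∧ W ≠ ⊥ ∧ W ≠ ⊤ ∧
      ∀ g ∈ P, ∀ w ∈ W, ρ g w ∈ W := by
  classical
  have hV0 : 0 < finrank ℂ V := by omega
  have hnt : Nontrivial V := Module.finrank_pos_iff.1 hV0
  by_cases hall : ∀ g : G, ∃ c : ℂ, ρ g = c • (1 : V →ₗ[ℂ] V)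
  · obtain ⟨v, hv⟩ := exists_ne (0 : V)
    refine ⟨⊤, Submodule.span ℂ {v}, inferInstance, ?_, ?_, ?_⟩
    · rw [Ne, Submodule.span_singleton_eq_bot]
      exact hv
    · intro htop
      have h1 := finrank_span_singleton (K := ℂ) hv
      rw [htop, finrank_top] at h1
      omega
    · intro g _ w hw
      obtain ⟨c, hc⟩ := hall g
      rw [hc]
      exact Submodule.smul_mem _ c hw
  · push Not at hall
    obtain ⟨a0, ha0⟩ := hall
    obtain ⟨n, hn⟩ := hG.solvable
    have hex : ∃ k, ∀ a ∈ derivedSeries G k, ∃ c : ℂ, ρ a = c • (1 : V →ₗ[ℂ] V) := by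
      refine ⟨n, fun a ha => ⟨1, ?_⟩⟩
      rw [hn, Subgroup.mem_bot] at ha
      rw [ha, map_one, one_smul]
    have hk := Nat.find_spec hex
    have hk0 : Nat.find hex ≠ 0 := by
      intro h0
      rw [h0] at hk
      obtain ⟨c, hc⟩ := hk a0 (by rw [derivedSeries_zero]; trivial)
      exact ha0 c hc
    obtain ⟨j, hj⟩ := Nat.exists_eq_succ_of_ne_zero hk0
    have hj' := Nat.find_min hex (m := j) (by omega)
    push Not at hj'
    refine invariant_of_normal ρ hu hV0 (derivedSeries G j) ?_ hj'
    intro x hx y hy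
    rw [hj] at hk
    refine hk _ ?_
    rw [Nat.succ_eq_add_one, derivedSeries_succ]
    exact Subgroup.commutator_mem_commutator hx hy

end Pool.Agent.LibCS44
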