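import Mathlib
set_option autoImplicit false
namespace Pool.Agent.LibCS44
open Module

variable {G : Type} [Group G] {V : Type} [NormedAddCommGroup V] [InnerProductSpace ℂ V]
  [FiniteDimensional ℂ V]

theorem vaa_finiteIndex {G : Type} [Group G] {α : Type} (P : Subgroup G) (F : G → α)
    (hF : (Set.range F).Finite) (h : ∀ a b, F a = F b → a⁻¹ * b ∈ P) : P.FiniteIndex := by
  have : Finite (Set.range F) := hF.to_subtype
  have hfin : Finite (G ⧸ P) := by
    refine Finite.of_injective (fun q : G ⧸ P => (⟨F q.out, q.out, rfl⟩ : Set.range F)) ?_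
    intro p q hpq
    have h1 : F p.out = F q.out := congrArg Subtype.val hpq
    have h2 := h _ _ h1
    rw [← p.out_eq, ← q.out_eq]
    exact QuotientGroup.eq.2 h2
  exact Subgroup.finiteIndex_of_finite_quotient

/-- The centralizer of `ρ a` has finite index if `ρ a` has finitely many conjugates: the cosets of this subgroup correspond to the conjugates (`g ↦ ρ (g * a * g⁻¹)` is
constant exactly on the left cosets). -/
theorem centralizer_finiteIndex (ρ : G →* (V →ₗ[ℂ] V)) (a : G)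
    (h : (Set.range fun g : G => ρ (g * a * g⁻¹)).Finite) :
    ∃ P : Subgroup G, P.FiniteIndex ∧ ∀ g ∈ P, ρ g * ρ a = ρ a * ρ g := by
  have hinv : ∀ g : G, ρ g⁻¹ * ρ g = 1 := fun g => by rw [← map_mul, inv_mul_cancel, map_one]
  have hinv' : ∀ g : G, ρ g * ρ g⁻¹ = 1 := fun g => by rw [← map_mul, mul_inv_cancel, map_one]
  let P : Subgroup G :=
    { carrier := {g | ρ g * ρ a = ρ a * ρ g}
      mul_mem' := by
        intro x y hx hy
        show ρ (x * y) * ρ a = ρ a * ρ (x * y)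
        rw [map_mul, mul_assoc, show ρ y * ρ a = ρ a * ρ y from hy, ← mul_assoc,
          show ρ x * ρ a = ρ a * ρ x from hx, mul_assoc]
      one_mem' := by
        show ρ 1 * ρ a = ρ a * ρ 1
        rw [map_one, one_mul, mul_one]
      inv_mem' := by
        intro x hx
        show ρ x⁻¹ * ρ a = ρ a * ρ x⁻¹
        have hx' : ρ x * ρ a = ρ a * ρ x := hx
        calc ρ x⁻¹ * ρ a = ρ x⁻¹ * (ρ a * (ρ x * ρ x⁻¹)) := by rw [hinv', mul_one]
          _ = ρ x⁻¹ * (ρ a * ρ x) * ρ x⁻¹ := by simp only [mul_assoc]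
          _ = ρ x⁻¹ * (ρ x * ρ a) * ρ x⁻¹ := by rw [hx']
          _ = (ρ x⁻¹ * ρ x) * ρ a * ρ x⁻¹ := by simp only [mul_assoc]
          _ = ρ a * ρ x⁻¹ := by rw [hinv, one_mul] }
  refine ⟨P, vaa_finiteIndex P _ h ?_, fun g hg => hg⟩
  intro x y hxy
  have hxy' : ρ (x * a * x⁻¹) = ρ (y * a * y⁻¹) := hxy
  show ρ (x⁻¹ * y) * ρ a = ρ a * ρ (x⁻¹ * y)
  have h1 : ρ (x⁻¹ * y) * ρ a = ρ x⁻¹ * ρ (y * a * y⁻¹) * ρ y := by
    rw [← map_mul, ← map_mul, ← map_mul]
    congr 1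
    group
  rw [h1, ← hxy', ← map_mul, ← map_mul, ← map_mul]
  congr 1
  group

/-- If a finite index subgroup commutes with a non-scalar `ρ a`, it leaves invariant an eigenspace of `ρ a`, which is neither `⊥` nor `⊤`. -/
theorem invariant_of_commute (ρ : G →* (V →ₗ[ℂ] V)) (hV : 0 < finrank ℂ V) (a : G)
    (ha : ∀ c : ℂ, ρ a ≠ c • (1 : V →ₗ[ℂ] V)) (P : Subgroup G) [P.FiniteIndex]
    (hP : ∀ g ∈ P, ρ g * ρ a = ρ a * ρ g) :
    ∃ (P : Subgroup G) (W : Submodule ℂ V), P.FiniteIndex ∧ W ≠ ⊥ ∧ W ≠ ⊤ ∧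
      ∀ g ∈ P, ∀ w ∈ W, ρ g w ∈ W := by
  have hnt : Nontrivial V := Module.finrank_pos_iff.1 hV
  obtain ⟨μ, hμ⟩ := Module.End.exists_eigenvalue (ρ a)
  refine ⟨P, Module.End.eigenspace (ρ a) μ, inferInstance, hμ, ?_, ?_⟩
  · intro htop
    apply ha μ
    ext v
    have hv : v ∈ Module.End.eigenspace (ρ a) μ := by rw [htop]; trivial
    simpa using Module.End.mem_eigenspace_iff.1 hv
  · intro g hg w hw
    rw [Module.End.mem_eigenspace_iff] at hw ⊢
    rw [← Module.End.mul_apply, ← hP g hg, Module.End.mul_apply, hw, map_smul]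

end Pool.Agent.LibCS44
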