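import Mathlib
set_option autoImplicit false
namespace Pool.Agent.LibCS44
open Module

variable {G : Type} [Group G] {V : Type} [NormedAddCommGroup V] [InnerProductSpace ℂ V]
  [FiniteDimensional ℂ V]

/-- Determinants: if every `ρ (g * a * g⁻¹)` is a scalar multiple of one of the elements of the finite set `R` then there are only finitely many of
them.  Proof: `det (ρ (g * a * g⁻¹)) = det (ρ a) ≠ 0`, and if `ρ (g * a * g⁻¹) = c • r` then `c ^ (finrank ℂ V) * det r = det (ρ a)`, so `det r ≠ 0` and `c` is one of the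
finitely many roots of `X ^ finrank ℂ V - det (ρ a) / det r` (`finrank ℂ V > 0`). -/
theorem finite_conj (ρ : G →* (V →ₗ[ℂ] V)) (hV : 0 < finrank ℂ V) (a : G)
    (R : Set (V →ₗ[ℂ] V)) (hR : R.Finite)
    (h : ∀ g : G, ∃ r ∈ R, ∃ c : ℂ, ρ (g * a * g⁻¹) = c • r) :
    (Set.range fun g : G => ρ (g * a * g⁻¹)).Finite := by
  classical
  set D : ℂ := LinearMap.det (ρ a) with hD
  have hmul : ∀ g : G, LinearMap.det (ρ g) * LinearMap.det (ρ g⁻¹) = 1 := by
    intro g
    rw [← map_mul, ← map_mul, mul_inv_cancel, map_one, map_one]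
  have hD0 : D ≠ 0 := by
    intro h0
    have := hmul a
    rw [← hD, h0, zero_mul] at this
    exact zero_ne_one this
  have hdet : ∀ g : G, LinearMap.det (ρ (g * a * g⁻¹)) = D := by
    intro g
    rw [map_mul, map_mul, map_mul, map_mul]
    have := hmul g
    linear_combination D * this
  have hfin : ∀ r : V →ₗ[ℂ] V, {c : ℂ | c ^ finrank ℂ V * LinearMap.det r = D}.Finite := by
    intro r
    by_cases hr : LinearMap.det r = 0
    · have : {c : ℂ | c ^ finrank ℂ V * LinearMap.det r = D} = ∅ := by
        ext c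
        simp only [Set.mem_setOf_eq, hr, mul_zero, Set.mem_empty_iff_false, iff_false]
        exact fun h => hD0 h.symm
      rw [this]
      exact Set.finite_empty
    · refine Set.Finite.subset (Finset.finite_toSet
        (Polynomial.nthRoots (finrank ℂ V) (D / LinearMap.det r)).toFinset) fun c hc => ?_
      rw [Finset.mem_coe, Multiset.mem_toFinset, Polynomial.mem_nthRoots hV]
      rw [eq_div_iff hr]
      exact hc
  have hbig : (⋃ r ∈ R, (fun c : ℂ => c • r) '' {c : ℂ | c ^ finrank ℂ V * LinearMap.det r = D}).Finite :=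
    hR.biUnion fun r _ => (hfin r).image _
  refine hbig.subset ?_
  rintro _ ⟨g, rfl⟩
  obtain ⟨r, hr, c, hc⟩ := h g
  simp only [Set.mem_iUnion, Set.mem_image, Set.mem_setOf_eq]
  refine ⟨r, hr, c, ?_, hc.symm⟩
  rw [← hdet g, hc, LinearMap.det_smul]

end Pool.Agent.LibCS44
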