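import Mathlib
set_option autoImplicit false
namespace Pool.Agent.LibCS44
open Module

variable {G : Type} [Group G] {V : Type} [NormedAddCommGroup V] [InnerProductSpace ℂ V]
  [FiniteDimensional ℂ V]

/-- a unitary has no generalised eigenvectors of order two -/
theorem vab_unitary_sq (U : V →ₗ[ℂ] V) (hU : ∀ x y, inner ℂ (U x) (U y) = inner ℂ x y) (c : ℂ)
    (v : V) (h : (U - c • (1 : V →ₗ[ℂ] V)) ((U - c • (1 : V →ₗ[ℂ] V)) v) = 0) :
    (U - c • (1 : V →ₗ[ℂ] V)) v = 0 := by
  set w : V := (U - c • (1 : V →ₗ[ℂ] V)) v with hw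
  by_contra hne
  have h1 : U w = c • w := by
    have : U w - c • w = 0 := by simpa using h
    exact sub_eq_zero.1 this
  have h2 : w = U v - c • v := by simp [hw]
  have hww : inner ℂ w w ≠ (0 : ℂ) := fun h0 => hne (inner_self_eq_zero.1 h0)
  have h3 : (starRingEnd ℂ) c * c = 1 := by
    have h4 := hU w w
    rw [h1, inner_smul_left, inner_smul_right] at h4
    have h5 : ((starRingEnd ℂ) c * c - 1) * inner ℂ w w = 0 := by linear_combination h4
    rcases mul_eq_zero.1 h5 with h6 | h6
    · linear_combination h6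
    · exact absurd h6 hww
  have h7 : (starRingEnd ℂ) c * inner ℂ w (U v) = inner ℂ w v := by
    have h8 := hU w v
    rw [h1, inner_smul_left] at h8
    exact h8
  have h9 : inner ℂ w w = inner ℂ w (U v) - c * inner ℂ w v := by
    conv_lhs => rw [show inner ℂ w w = inner ℂ w (U v - c • v) by rw [← h2]]
    rw [inner_sub_right, inner_smul_right]
  apply hww
  rw [h9]
  linear_combination (-inner ℂ w (U v)) * h3 + c * h7

theorem vab_unitary_pow (U : V →ₗ[ℂ] V) (hU : ∀ x y, inner ℂ (U x) (U y) = inner ℂ x y) (c : ℂ)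
    (k : ℕ) (v : V) (h : ((U - c • (1 : V →ₗ[ℂ] V)) ^ k) v = 0) :
    (U - c • (1 : V →ₗ[ℂ] V)) v = 0 := by
  induction k generalizing v with
  | zero =>
    have : v = 0 := by simpa using h
    rw [this, map_zero]
  | succ k ih =>
    rw [pow_succ, Module.End.mul_apply] at h
    exact vab_unitary_sq U hU c v (ih _ h)

theorem vab_max (U : V →ₗ[ℂ] V) (hU : ∀ x y, inner ℂ (U x) (U y) = inner ℂ x y) (c : ℂ) (v : V)
    (h : v ∈ Module.End.maxGenEigenspace U c) : U v = c • v := by
  rw [Module.End.mem_maxGenEigenspace] at h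
  obtain ⟨k, hk⟩ := h
  have := vab_unitary_pow U hU c k v hk
  have h2 : U v - c • v = 0 := by simpa using this
  exact sub_eq_zero.1 h2

/-- A normal subgroup `Z` acting by commuting unitaries, not all of them scalar, forces an invariant subspace for a finite index subgroup.
Proof: for `ψ : Z → ℂ` let `V ψ = {v | ∀ z : Z, ρ z v = ψ z • v}`.  The `V ψ` are pairwise orthogonal (eigenvectors of a unitary for different eigenvalues are
orthogonal), so the set `Ψ` of the `ψ` with `V ψ ≠ ⊥` is finite (choose unit vectors: an orthonormal family in `V`).  `Ψ` is not empty: a nonzero subspace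
of minimal dimension invariant under all the `ρ z`, `z ∈ Z`, is an eigenspace of each `ρ z` (commuting operators).  Let `χ ∈ Ψ`.  `ρ g (V ψ) = V (z ↦ ψ (g⁻¹ z g))`, so `G` acts on the finite set
`Ψ`, and the stabilizer `P` of `χ` has finite index and leaves `V χ ≠ ⊥` invariant; `V χ ≠ ⊤` because some `ρ z` is not scalar. -/
theorem invariant_of_normal_commuting (ρ : G →* (V →ₗ[ℂ] V))
    (hu : ∀ g x y, inner ℂ (ρ g x) (ρ g y) = inner ℂ x y) (hV : 0 < finrank ℂ V)
    (Z : Subgroup G) [Z.Normal] (hZ : ∀ x ∈ Z, ∀ y ∈ Z, ρ x * ρ y = ρ y * ρ x)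
    (hns : ∃ a ∈ Z, ∀ c : ℂ, ρ a ≠ c • (1 : V →ₗ[ℂ] V)) :
    ∃ (P : Subgroup G) (W : Submodule ℂ V), P.FiniteIndex ∧ W ≠ ⊥ ∧ W ≠ ⊤ ∧
      ∀ g ∈ P, ∀ w ∈ W, ρ g w ∈ W := by
  classical
  let f : Z → Module.End ℂ V := fun z => ρ z
  have hcomm : ∀ i j : Z, Commute (f j) (f i) := fun i j => hZ j j.2 i i.2
  have hmaps : ∀ (i j : Z) (φ : ℂ), Set.MapsTo (f i) ((f j).maxGenEigenspace φ)
      ((f j).maxGenEigenspace φ) := fun i j φ =>
    Module.End.mapsTo_maxGenEigenspace_of_comm (hcomm i j) φ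
  let E : (Z → ℂ) → Submodule ℂ V := fun χ => ⨅ i, (f i).maxGenEigenspace (χ i)
  have hmem : ∀ (χ : Z → ℂ) (v : V), v ∈ E χ ↔ ∀ z : Z, ρ z v = χ z • v := by
    intro χ v
    show v ∈ ⨅ i, (f i).maxGenEigenspace (χ i) ↔ _
    rw [Submodule.mem_iInf]
    refine forall_congr' fun z => ⟨fun h => vab_max (ρ z) (hu z) (χ z) v h, fun h => ?_⟩
    rw [Module.End.mem_maxGenEigenspace]
    refine ⟨1, ?_⟩
    rw [pow_one]
    show (ρ z - χ z • (1 : V →ₗ[ℂ] V)) v = 0
    simp [h]
  have hind : iSupIndep E := Module.End.independent_iInf_maxGenEigenspace_of_forall_mapsTo f hmaps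
  have hfin : {χ | E χ ≠ ⊥}.Finite := WellFoundedGT.finite_ne_bot_of_iSupIndep hind
  have htop : ⨆ χ, E χ = ⊤ := Module.End.iSup_iInf_maxGenEigenspace_eq_top_of_forall_mapsTo f hmaps
    fun i => Module.End.iSup_maxGenEigenspace_eq_top (f i)
  have hnt : Nontrivial V := Module.finrank_pos_iff.1 hV
  obtain ⟨χ, hχ⟩ : ∃ χ, E χ ≠ ⊥ := by
    by_contra hcon
    push Not at hcon
    have : (⊤ : Submodule ℂ V) = ⊥ := by
      rw [← htop]
      exact iSup_eq_bot.2 hcon
    exact top_ne_bot this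
  -- the action on functions
  let act : G → (Z → ℂ) → (Z → ℂ) := fun g ψ z => ψ ⟨g⁻¹ * z * g, by
    have := (inferInstance : Z.Normal).conj_mem z z.2 g⁻¹
    simpa using this⟩
  have hact : ∀ (g : G) (ψ : Z → ℂ) (v : V), v ∈ E ψ → ρ g v ∈ E (act g ψ) := by
    intro g ψ v hv
    rw [hmem] at hv ⊢
    intro z
    have h1 := hv ⟨g⁻¹ * z * g, by
      have := (inferInstance : Z.Normal).conj_mem z z.2 g⁻¹
      simpa using this⟩
    have h2 : ρ (z : G) (ρ g v) = ρ g (ρ (g⁻¹ * z * g) v) := by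
      rw [← Module.End.mul_apply, ← Module.End.mul_apply, ← map_mul, ← map_mul]
      congr 2
      group
    rw [h2, h1, map_smul]
  have hinj : ∀ (g : G) (v : V), ρ g v = 0 → v = 0 := by
    intro g v h
    have h1 := hu g v v
    rw [h, inner_zero_left] at h1
    exact inner_self_eq_zero.1 h1.symm
  have hne : ∀ (g : G), E (act g χ) ≠ ⊥ := by
    intro g hbot
    obtain ⟨v, hv, hv0⟩ := Submodule.exists_mem_ne_zero_of_ne_bot hχ
    have := hact g χ v hv
    rw [hbot, Submodule.mem_bot] at this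
    exact hv0 (hinj g v this)
  have hact_mul : ∀ (g h : G) (ψ : Z → ℂ), act (g * h) ψ = act g (act h ψ) := by
    intro g h ψ
    funext z
    show ψ _ = ψ _
    congr 1
    apply Subtype.ext
    show (g * h)⁻¹ * z * (g * h) = h⁻¹ * (g⁻¹ * z * g) * h
    group
  have hact_one : ∀ ψ : Z → ℂ, act 1 ψ = ψ := by
    intro ψ
    funext z
    show ψ _ = ψ _
    congr 1
    apply Subtype.ext
    show (1 : G)⁻¹ * z * 1 = z
    group
  let P : Subgroup G :=
    { carrier := {g | act g χ = χ}
      mul_mem' := by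
        intro a b ha hb
        show act (a * b) χ = χ
        rw [hact_mul, show act b χ = χ from hb, show act a χ = χ from ha]
      one_mem' := hact_one χ
      inv_mem' := by
        intro a ha
        show act a⁻¹ χ = χ
        have h1 : act a⁻¹ (act a χ) = χ := by rw [← hact_mul, inv_mul_cancel, hact_one]
        rwa [show act a χ = χ from ha] at h1 }
  have hP : P.FiniteIndex := by
    have hf : Finite {ψ // E ψ ≠ ⊥} := hfin.to_subtype
    let F : G ⧸ P → {ψ // E ψ ≠ ⊥} := Quotient.lift (fun g => ⟨act g χ, hne g⟩) (by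
      intro a b hab
      have h1 : a⁻¹ * b ∈ P := QuotientGroup.leftRel_apply.1 hab
      have h2 : act (a⁻¹ * b) χ = χ := h1
      apply Subtype.ext
      show act a χ = act b χ
      rw [← h2, ← hact_mul, h2, mul_inv_cancel_left])
    have hF : Function.Injective F := by
      intro a b
      refine Quotient.inductionOn₂ a b fun a b h => ?_
      have h1 : act a χ = act b χ := congrArg Subtype.val h
      apply Quotient.sound
      refine QuotientGroup.leftRel_apply.2 ?_
      show act (a⁻¹ * b) χ = χ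
      rw [hact_mul, ← h1, ← hact_mul, inv_mul_cancel, hact_one]
    have : Finite (G ⧸ P) := Finite.of_injective F hF
    exact Subgroup.finiteIndex_of_finite_quotient
  refine ⟨P, E χ, hP, hχ, ?_, ?_⟩
  · intro htop'
    obtain ⟨a, ha, hac⟩ := hns
    refine hac (χ ⟨a, ha⟩) ?_
    ext v
    have hv : v ∈ E χ := by rw [htop']; trivial
    have := (hmem χ v).1 hv ⟨a, ha⟩
    simpa using this
  · intro g hg w hw
    have h1 := hact g χ w hw
    rwa [show act g χ = χ from hg] at h1

end Pool.Agent.LibCS44
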