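import Pool.Agent.LibCS44.VAc1
import Pool.Agent.LibCS44.VAb
set_option autoImplicit false
namespace Pool.Agent.LibCS44
open Module

variable {G : Type} [Group G] {V : Type} [NormedAddCommGroup V] [InnerProductSpace ℂ V]
  [FiniteDimensional ℂ V]

/-- Main step.  Let `A` be a normal subgroup with `ρ ⁅x, y⁆` scalar for `x y ∈ A` and `ρ a` not scalar for some `a ∈ A`.  Take `Z` as in `center_relIndex`.  If some `ρ z`, `z ∈ Z`, is not scalar use
`invariant_of_normal_commuting`.  Otherwise let `a₁, ..., a_m` be representatives of `A / Z`; every `ρ (g * a * g⁻¹)`, `g ∈ G`, is a scalar multiple of some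
`ρ a_i` (`g * a * g⁻¹ = a_i * z`); by `finite_conj`, `centralizer_finiteIndex` a finite index subgroup of `G` commutes with `ρ a`; conclude by
`invariant_of_commute`. -/
theorem invariant_of_normal (ρ : G →* (V →ₗ[ℂ] V))
    (hu : ∀ g x y, inner ℂ (ρ g x) (ρ g y) = inner ℂ x y) (hV : 0 < finrank ℂ V)
    (A : Subgroup G) [A.Normal]
    (hA : ∀ x ∈ A, ∀ y ∈ A, ∃ c : ℂ, ρ (x * y * x⁻¹ * y⁻¹) = c • (1 : V →ₗ[ℂ] V))
    (hns : ∃ a ∈ A, ∀ c : ℂ, ρ a ≠ c • (1 : V →ₗ[ℂ] V)) :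
    ∃ (P : Subgroup G) (W : Submodule ℂ V), P.FiniteIndex ∧ W ≠ ⊥ ∧ W ≠ ⊤ ∧
      ∀ g ∈ P, ∀ w ∈ W, ρ g w ∈ W := by
  classical
  obtain ⟨Z, hZn, hZA, hZi, hZc⟩ := center_relIndex ρ hV A hA
  by_cases hz : ∃ z ∈ Z, ∀ c : ℂ, ρ z ≠ c • (1 : V →ₗ[ℂ] V)
  · exact invariant_of_normal_commuting ρ hu hV Z (fun x hx y hy => hZc x hx y (hZA hy)) hz
  · push Not at hz
    obtain ⟨a, haA, ha⟩ := hns
    have hfi : (Z.subgroupOf A).FiniteIndex := ⟨hZi⟩
    have hfin : Finite (A ⧸ Z.subgroupOf A) := Subgroup.finite_quotient_of_finiteIndex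
    have hfc := finite_conj ρ hV a (Set.range fun q : A ⧸ Z.subgroupOf A => ρ (q.out : A))
      (Set.finite_range _) (by
        intro g
        have hx : g * a * g⁻¹ ∈ A := (inferInstance : A.Normal).conj_mem a haA g
        set x : A := ⟨g * a * g⁻¹, hx⟩ with hxdef
        have h1 : ((QuotientGroup.mk x : A ⧸ Z.subgroupOf A).out)⁻¹ * x ∈ Z.subgroupOf A := by
          rw [← QuotientGroup.eq, QuotientGroup.out_eq']
        rw [Subgroup.mem_subgroupOf] at h1
        obtain ⟨c, hc⟩ := hz _ h1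
        refine ⟨_, ⟨QuotientGroup.mk x, rfl⟩, c, ?_⟩
        have h2 : g * a * g⁻¹ = ((QuotientGroup.mk x : A ⧸ Z.subgroupOf A).out : G) *
            (((((QuotientGroup.mk x : A ⧸ Z.subgroupOf A).out)⁻¹ * x : A)) : G) := by
          push_cast
          rw [mul_inv_cancel_left]
        rw [h2, map_mul, hc, mul_smul_comm, mul_one])
    obtain ⟨P, hP, hPc⟩ := centralizer_finiteIndex ρ a hfc
    exact invariant_of_commute ρ hV a ha P hPc

end Pool.Agent.LibCS44
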