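import Pool.Agent.LibCS44.VAa
import Pool.Agent.LibCS44.VAb
set_option autoImplicit false
namespace Pool.Agent.LibCS44
open Module

variable {G : Type} [Group G] {V : Type} [NormedAddCommGroup V] [InnerProductSpace ℂ V]
  [FiniteDimensional ℂ V]

/-- Let `A` be a normal subgroup with `ρ ⁅x, y⁆` scalar for all `x y ∈ A`.  Then the subgroup `Z` of the elements `b ∈ A` such that `ρ b` commutes with `ρ A` is
normal in `G` and has finite relative index in `A`.  Proof: choose a finite subset `a₁, ..., a_r` of `A` with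
`span (ρ '' A) = span {ρ a₁, ..., ρ a_r}`; then `Z` is the intersection of `A` with the centralizers of the `ρ a_i`.  For each `i` the set of the `ρ (b * a_i * b⁻¹)`, `b ∈ A`, is finite by `finite_conj` applied to
the group `A`: `ρ (b * a * b⁻¹) = ρ ⁅b, a⁆ * ρ a` is a scalar multiple of `ρ a`; so the centralizer of `ρ a_i` in `A` has finite index (`centralizer_finiteIndex`). -/
theorem center_relIndex (ρ : G →* (V →ₗ[ℂ] V)) (hV : 0 < finrank ℂ V)
    (A : Subgroup G) [A.Normal]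
    (hA : ∀ x ∈ A, ∀ y ∈ A, ∃ c : ℂ, ρ (x * y * x⁻¹ * y⁻¹) = c • (1 : V →ₗ[ℂ] V)) :
    ∃ Z : Subgroup G, Z.Normal ∧ Z ≤ A ∧ Z.relIndex A ≠ 0 ∧
      ∀ x ∈ Z, ∀ y ∈ A, ρ x * ρ y = ρ y * ρ x := by
  classical
  have hinv : ∀ g : G, ρ g⁻¹ * ρ g = 1 := fun g => by rw [← map_mul, inv_mul_cancel, map_one]
  have hinv' : ∀ g : G, ρ g * ρ g⁻¹ = 1 := fun g => by rw [← map_mul, mul_inv_cancel, map_one]
  let Z : Subgroup G :=
    { carrier := {b | b ∈ A ∧ ∀ y ∈ A, ρ b * ρ y = ρ y * ρ b}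
      mul_mem' := by
        rintro a b ⟨ha, ha'⟩ ⟨hb, hb'⟩
        refine ⟨A.mul_mem ha hb, fun y hy => ?_⟩
        rw [map_mul, mul_assoc, hb' y hy, ← mul_assoc, ha' y hy, mul_assoc]
      one_mem' := ⟨A.one_mem, fun y _ => by rw [map_one, one_mul, mul_one]⟩
      inv_mem' := by
        rintro x ⟨hx, hx'⟩
        refine ⟨A.inv_mem hx, fun y hy => ?_⟩
        calc ρ x⁻¹ * ρ y = ρ x⁻¹ * (ρ y * (ρ x * ρ x⁻¹)) := by rw [hinv', mul_one]
          _ = ρ x⁻¹ * (ρ y * ρ x) * ρ x⁻¹ := by simp only [mul_assoc]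
          _ = ρ x⁻¹ * (ρ x * ρ y) * ρ x⁻¹ := by rw [hx' y hy]
          _ = (ρ x⁻¹ * ρ x) * ρ y * ρ x⁻¹ := by simp only [mul_assoc]
          _ = ρ y * ρ x⁻¹ := by rw [hinv, one_mul] }
  have hmem : ∀ b, b ∈ Z ↔ b ∈ A ∧ ∀ y ∈ A, ρ b * ρ y = ρ y * ρ b := fun b => Iff.rfl
  refine ⟨Z, ?_, fun b hb => ((hmem b).1 hb).1, ?_, fun x hx y hy => ((hmem x).1 hx).2 y hy⟩
  · refine ⟨fun b hb g => ?_⟩
    rw [hmem] at hb ⊢
    refine ⟨(inferInstance : A.Normal).conj_mem b hb.1 g, fun y hy => ?_⟩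
    have hy' : g⁻¹ * y * g ∈ A := by
      have := (inferInstance : A.Normal).conj_mem y hy g⁻¹
      rwa [inv_inv] at this
    have h1 := hb.2 _ hy'
    have e1 : ρ (g * b * g⁻¹) * ρ y = ρ g * (ρ b * ρ (g⁻¹ * y * g)) * ρ g⁻¹ := by
      simp only [← map_mul]
      congr 1
      group
    have e2 : ρ y * ρ (g * b * g⁻¹) = ρ g * (ρ (g⁻¹ * y * g) * ρ b) * ρ g⁻¹ := by
      simp only [← map_mul]
      congr 1
      group
    rw [e1, e2, h1]
  · -- finite index
    let ρA : A →* (V →ₗ[ℂ] V) := ρ.comp A.subtype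
    have hρA : ∀ x : A, ρA x = ρ x := fun x => rfl
    have hfg : (Submodule.span ℂ (Set.range fun x : A => ρA x)).FG := IsNoetherian.noetherian _
    obtain ⟨s, hs, hspan⟩ := (Submodule.fg_span_iff_fg_span_finset_subset _).1 hfg
    have hP : ∀ T : s, ∃ P : Subgroup A, P.FiniteIndex ∧ ∀ g ∈ P, ρA g * T.1 = T.1 * ρA g := by
      rintro ⟨T, hT⟩
      obtain ⟨a, rfl⟩ := hs hT
      refine centralizer_finiteIndex ρA a (finite_conj ρA hV a {ρA a} (Set.finite_singleton _) ?_)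
      intro g
      obtain ⟨c, hc⟩ := hA g g.2 a a.2
      refine ⟨ρA a, rfl, c, ?_⟩
      have h1 : ρ ((g : G) * a * (g : G)⁻¹) = ρ ((g : G) * a * (g : G)⁻¹ * (a : G)⁻¹) * ρ a := by
        rw [← map_mul, inv_mul_cancel_right]
      show ρ ((g : G) * a * (g : G)⁻¹) = c • ρ a
      rw [h1, hc, smul_mul_assoc, one_mul]
    choose P hPf hPc using hP
    have hle : (⨅ T : s, P T) ≤ Z.subgroupOf A := by
      intro b hb
      rw [Subgroup.mem_iInf] at hb
      rw [Subgroup.mem_subgroupOf, hmem]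
      refine ⟨b.2, fun y hy => ?_⟩
      have hsub : Submodule.span ℂ (Set.range fun x : A => ρA x) ≤
          Subalgebra.toSubmodule (Subalgebra.centralizer ℂ {ρA b}) := by
        rw [hspan, Submodule.span_le]
        intro T hT
        rw [SetLike.mem_coe, Subalgebra.mem_toSubmodule, Subalgebra.mem_centralizer_iff]
        intro g hg
        rw [Set.mem_singleton_iff.1 hg]
        exact hPc ⟨T, hT⟩ b (hb ⟨T, hT⟩)
      have h2 : ρA ⟨y, hy⟩ ∈ Subalgebra.toSubmodule (Subalgebra.centralizer ℂ {ρA b}) :=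
        hsub (Submodule.subset_span ⟨⟨y, hy⟩, rfl⟩)
      rw [Subalgebra.mem_toSubmodule, Subalgebra.mem_centralizer_iff] at h2
      exact h2 _ rfl
    have hfi : (⨅ T : s, P T).FiniteIndex := Subgroup.finiteIndex_iInf hPf
    have : (Z.subgroupOf A).FiniteIndex := Subgroup.finiteIndex_of_le hle
    exact this.index_ne_zero

end Pool.Agent.LibCS44
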