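import Mathlib
set_option autoImplicit false
namespace Pool.Agent.LibCS44
open scoped Matrix.Norms.L2Operator

private theorem vp_finite {D : Type} [CStarAlgebra D] (W : D) {n : ℕ} (hn : 0 < n)
    (hW : W ^ n = 1) : (spectrum ℂ W).Finite := by
  refine Set.Finite.subset (s := {z : ℂ | z ^ n = 1}) ?_ ?_
  · have : {z : ℂ | z ^ n = 1} ⊆ (Polynomial.nthRoots n (1 : ℂ)).toFinset := by
      intro z hz
      simp only [Finset.mem_coe, Multiset.mem_toFinset]
      rw [Polynomial.mem_nthRoots hn]
      exact hz
    exact (Finset.finite_toSet _).subset this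
  · intro z hz
    have h1 : z ^ n ∈ spectrum ℂ (W ^ n) := spectrum.pow_mem_pow W n hz
    rw [hW] at h1
    have h2 : Nontrivial D := by
      by_contra h
      rw [not_nontrivial_iff_subsingleton] at h
      rw [spectrum.of_subsingleton] at hz
      exact hz
    rw [spectrum.one_eq] at h1
    exact h1

/-- A unitary `W` with `W ^ n = 1` is joined to `1` by a path of unitaries which commute with everything that commutes with `W`: let `ω = exp (2 π i / n)`,
`E j = (1 / n) ∑ l < n, ω ^ (- j l) W ^ l` (orthogonal projections with sum `1`, `∑ j, ω ^ j E j = W`) and `V s = ∑ j < n, exp (2 π i j s / n) E j`. -/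
theorem exists_path_of_pow {D : Type} [CStarAlgebra D] (W : unitary D) {n : ℕ} (hn : 0 < n)
    (hW : W ^ n = 1) :
    ∃ V : unitary C(unitInterval, D), (V : C(unitInterval, D)) 0 = 1 ∧
      (V : C(unitInterval, D)) 1 = (W : D) ∧
      ∀ (s : unitInterval) (X : D), Commute (W : D) X → Commute ((V : C(unitInterval, D)) s) X := by
  have hWn : (W : D) ^ n = 1 := by
    have := congrArg (fun u : unitary D => (u : D)) hW
    simpa using this
  have hfin := vp_finite (W : D) hn hWn
  have hcont : ContinuousOn Complex.arg (spectrum ℂ (W : D)) := by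
    have : Finite (spectrum ℂ (W : D)) := hfin
    rw [continuousOn_iff_continuous_domRestrict]
    exact continuous_of_discreteTopology
  -- the logarithm
  set a : selfAdjoint D := Unitary.argSelfAdjoint W with ha
  have hexp : selfAdjoint.expUnitary a = W := by
    ext
    rw [selfAdjoint.expUnitary_coe, ha, Unitary.argSelfAdjoint_coe,
      ← CFC.exp_eq_normedSpace_exp (𝕜 := ℂ), ← cfc_comp_smul .., ← cfc_comp' ..]
    conv_rhs => rw [← cfc_id' ℂ (W : D)]
    refine cfc_congr fun y hy => ?_
    have hy₁ : ‖y‖ = 1 := spectrum.norm_eq_one_of_unitary W.2 hy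
    have : Complex.I * y.arg = Complex.log y :=
      Complex.ext (by simp [Complex.log_re, hy₁]) (by simp [Complex.log_im])
    have hy0 : y ≠ 0 := by
      rintro rfl
      simp at hy₁
    simpa [← Complex.exp_eq_exp_ℂ, this] using Complex.exp_log hy0
  let v : unitInterval → unitary D := fun s => selfAdjoint.expUnitary ((s : ℝ) • a)
  have hv : Continuous v :=
    selfAdjoint.continuous_expUnitary.comp (continuous_subtype_val.smul continuous_const)
  let V0 : C(unitInterval, D) := ⟨fun s => (v s : D), continuous_subtype_val.comp hv⟩
  have hV0 : V0 ∈ unitary C(unitInterval, D) := by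
    rw [Unitary.mem_iff]
    constructor
    · ext s
      exact Unitary.coe_star_mul_self (v s)
    · ext s
      exact Unitary.coe_mul_star_self (v s)
  refine ⟨⟨V0, hV0⟩, ?_, ?_, ?_⟩
  · change (v 0 : D) = 1
    simp [v]
  · change (v 1 : D) = W
    simp only [v, Set.Icc.coe_one, one_smul]
    rw [hexp]
  · intro s X hX
    change Commute ((v s : D)) X
    have hstar : Commute (star (W : D)) X := by
      have h1 : star (W : D) * W = 1 := Unitary.coe_star_mul_self W
      have h2 : (W : D) * star (W : D) = 1 := Unitary.coe_mul_star_self W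
      change star (W : D) * X = X * star (W : D)
      calc star (W : D) * X = star (W : D) * X * ((W : D) * star (W : D)) := by rw [h2, mul_one]
        _ = star (W : D) * (X * W) * star (W : D) := by simp only [mul_assoc]
        _ = star (W : D) * (W * X) * star (W : D) := by rw [hX.eq]
        _ = (star (W : D) * W) * X * star (W : D) := by simp only [mul_assoc]
        _ = X * star (W : D) := by rw [h1, one_mul]
    have h1 : Commute ((a : selfAdjoint D) : D) X := by
      rw [ha, Unitary.argSelfAdjoint_coe]
      exact hX.cfc hstar _
    have h2 : Commute (Complex.I • (((s : ℝ) • a : selfAdjoint D) : D)) X := by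
      apply Commute.smul_left
      rw [selfAdjoint.val_smul]
      exact Commute.smul_left h1 _
    simp only [v, selfAdjoint.expUnitary_coe]
    exact h2.exp_left

end Pool.Agent.LibCS44
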